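import Pool.Agent.Lib.MP_e9747f_lc.Main

/-! A criterion for the undecidability of the second level. -/

set_option autoImplicit false

namespace Pool.Agent.Lib.MP_e9747f_lc

variable {G L : Type} [Group G] {d : ℕ}

/-- For every `k` there are `f g t s` with `f`, `g` not commuting and `s` commuting with `t` such
that a conjugate of `g` under the centraliser of `t` fails to commute with at most one of the
conjugates of `f` by powers of `s` in a window of width `k`. -/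
def Crit (G : Type) [Group G] : Prop :=
  ∀ k : ℕ, ∃ f g t s : G, ¬ Commute f g ∧ Commute s t ∧ ∀ z, Commute z t →
    ¬ Commute f (z * g * z⁻¹) → ∀ i : ℤ, i ≠ 0 → |i| ≤ k →
      Commute (s ^ i * f * (s ^ i)⁻¹) (z * g * z⁻¹)

theorem line_model {S : Sys L d} {m : ℕ} {H : L → (Fin (d + 1) → ℤ) → Prop} (hH : S.Model m H)
    {M : ℕ} (hM : ∀ l c, H l c → ∀ r, |c r| ≤ M) : ∃ (K : ℕ) (σ : Option (Fin (d + 1)) → ℤ)
    (A : L → Finset ℤ), σ none = 0 ∧ σ (some 0) = 1 ∧
    (∀ l l' s s', ∀ i ∈ A l, ∀ j ∈ A l', |i - σ s - (j - σ s')| ≤ K) ∧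
    (∀ ρ ∈ S.R, ∀ n, n + σ ρ.1.2 ∈ A ρ.1.1 → n + σ ρ.2.1.2 ∈ A ρ.2.1.1 →
      n + σ ρ.2.2.2 ∈ A ρ.2.2.1) ∧ (∀ l ∈ S.base, 0 ∈ A l) ∧ (∀ j < m, (j : ℤ) ∈ A S.seg) ∧
    (m : ℤ) ∈ A S.top ∧ ∀ i, i ∉ A S.bot := by
  classical
  obtain ⟨w, hw⟩ : ∃ w : ℤ, w = 2 * M + 3 := ⟨_, rfl⟩
  obtain ⟨φ, hφ⟩ : ∃ φ : (Fin (d + 1) → ℤ) → ℤ, φ = fun c => ∑ r, c r * w ^ r.val := ⟨_, rfl⟩
  have add : ∀ c c', φ (c + c') = φ c + φ c' := fun c c' => by
    simp [hφ, add_mul, Finset.sum_add_distrib]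
  have sub : ∀ c c', φ (c - c') = φ c - φ c' := fun c c' => by simp [hφ, sub_mul]
  have sgl : ∀ r n, φ (Pi.single r n) = n * w ^ r.val := fun r n => by
    simp [hφ, Pi.single_apply]
  obtain ⟨K, hK⟩ : ∃ K : ℕ, ∀ c : Fin (d + 1) → ℤ, (∀ r, |c r| < w) → |φ c| ≤ K :=
    ⟨(∑ r : Fin (d + 1), w * |w ^ r.val|).toNat, fun c hc => by
      rw [hφ]
      refine (Finset.abs_sum_le_sum_abs _ _).trans (le_trans (Finset.sum_le_sum fun r _ => ?_)
        (Int.self_le_toNat _))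
      rw [abs_mul]
      exact mul_le_mul_of_nonneg_right (hc r).le (abs_nonneg _)⟩
  have bd : ∀ l l' c c' (s s' : Option (Fin (d + 1))), H l c → H l' c' → ∀ r,
      |(c - sv s - (c' - sv s')) r| < w := fun l l' c c' s s' h h' r => by
    have k : ∀ s : Option (Fin (d + 1)), 0 ≤ sv s r ∧ sv s r ≤ 1 := fun s => by
      cases s
      · simp [sv]
      · simp only [sv, Pi.single_apply]
        split_ifs <;> simp
    have := abs_le.1 (hM l c h r)
    have := abs_le.1 (hM l' c' h' r)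
    have := k s
    have := k s'
    simp only [Pi.sub_apply, abs_lt]
    omega
  obtain ⟨A, hA⟩ : ∃ A : L → Finset ℤ, ∀ l i, i ∈ A l ↔ ∃ c, H l c ∧ φ c = i :=
    ⟨fun l => (Finset.Icc (-K : ℤ) K).filter fun i => ∃ c, H l c ∧ φ c = i, fun l i =>
      Finset.mem_filter.trans (and_iff_right_of_imp fun ⟨c, h, e⟩ =>
        Finset.mem_Icc.2 (abs_le.1 (e ▸ hK c fun r => by have := hM l c h r; omega)))⟩
  obtain ⟨m1, m2, m3, m4, m5⟩ := hH
  refine ⟨K, fun s => φ (sv s), A, by simp [sv, hφ], by simp [sv, sgl], ?_, ?_,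
    fun l hl => (hA _ _).2 ⟨0, m2 l hl, by simp [hφ]⟩,
    fun j hj => (hA _ _).2 ⟨_, m3 j hj, by simp [sgl]⟩, (hA _ _).2 ⟨_, m4, by simp [sgl]⟩,
    fun i h => let ⟨c, h, _⟩ := (hA _ _).1 h; m5 c h⟩
  · simp only [hA]
    rintro l l' s s' _ ⟨c, h, rfl⟩ _ ⟨c', h', rfl⟩
    simpa only [sub] using hK _ (bd l l' c c' s s' h h')
  · simp only [hA]
    rintro ρ hρ n ⟨c1, a1, b1⟩ ⟨c2, a2, b2⟩
    have e2 := sub_eq_zero.1 (digits_zero _ _ (bd _ _ c2 c1 ρ.2.1.2 ρ.1.2 a2 a1) (by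
      change (fun c : Fin (d + 1) → ℤ => ∑ r : Fin (d + 1), c r * w ^ r.val) _ = 0
      rw [← hφ]
      simp only [sub]
      linarith))
    exact ⟨_, m1 ρ hρ (c1 - sv ρ.1.2) (by simpa using a1) (by simpa [← e2] using a2),
      by simp [add, sub, b1]⟩

/-- the label `a` is present at the cell `z` -/
def LC (g a z : G) : Prop := ¬ Commute a (z * g * z⁻¹)

/-- a solution of the system in a group, second form -/
def Sys.SolC (S : Sys L d) (m : ℕ) (g t0 : G) (t : Fin (d + 1) → G) (a : L → G) : Prop :=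
  (∀ r s, Commute (t r) (t s)) ∧ (∀ r, Commute (t r) t0) ∧
  (∀ ρ ∈ S.R, ∀ z, Commute z t0 → LC g (a ρ.1.1) (tv t ρ.1.2 * z) →
    LC g (a ρ.2.1.1) (tv t ρ.2.1.2 * z) → LC g (a ρ.2.2.1) (tv t ρ.2.2.2 * z)) ∧
  (∀ l ∈ S.base, ¬ Commute (a l) g) ∧
  (∀ w, (∃ j < m, w = t 0 ^ j * g * (t 0 ^ j)⁻¹) → ¬ Commute (a S.seg) w) ∧
  (∀ w, w = t 0 ^ m * g * (t 0 ^ m)⁻¹ → ¬ Commute (a S.top) w) ∧
  ∀ z, Commute z t0 → ¬ LC g (a S.bot) z

theorem df_LC {f g k : (ℕ → G) → G} (hf : TD f) (hg : TD g) (hk : TD k) {b : Bool} :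
    Df 0 b fun _ v => LC (f v) (g v) (k v) := .not (.commute hg ((hk.mul hf).mul hk.inv))

theorem df_SolC [Finite L] (S : Sys L d) (ι : L → ℕ) : Df (G := G) 1 false fun m v =>
    S.SolC m (v 0) (v 1) (fun r => v (2 * r + 2)) fun l => v (2 * ι l + 3) := by
  have tt : ∀ s : Option (Fin (d + 1)), TD fun v : ℕ → G =>
      tv (fun r => v (2 * r + 2 + 1)) s * v 0 := fun s => by
    have : TD fun v : ℕ → G => tv (fun r => v (2 * r + 2 + 1)) s := by
      cases s
      exacts [.one, .var _]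
    exact this.mul (.var 0)
  refine .and (.fin fun r => .fin fun s => (Df.commute (.var _) (.var _)).pad)
    (.and (.fin fun r => (Df.commute (.var _) (.var _)).pad)
    (.and (.fin fun ρ => .when (.all (.pad ?_)) _) (.and (.fin fun l =>
      .when (Df.not (.commute (.var _) (.var _))).pad _) (.and (.all (.pad ?_))
        (.and (.all (.pad ?_)) (.all (.pad ?_)))))))
  · exact .imp (.commute (.var _) (.var _)) (.imp (df_LC (.var _) (.var _) (tt _))
      (.imp (df_LC (.var _) (.var _) (tt _)) (df_LC (.var _) (.var _) (tt _))))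
  · exact .imp (Df.sub3 (P := fun m a b c => ∃ j < m, a = b ^ j * c * (b ^ j)⁻¹) .seg (.var 0)
      (.var 3) (.var 1)) (.not (.commute (.var _) (.var _)))
  · exact .imp (Df.sub3 (P := fun m a b c => a = b ^ m * c * (b ^ m)⁻¹) .top (.var 0)
      (.var 3) (.var 1)) (.not (.commute (.var _) (.var _)))
  · exact .imp (.commute (.var _) (.var _)) (.not (df_LC (.var _) (.var _) (.var _)))

theorem model_of_solC {S : Sys L d} {m : ℕ} {g t0 : G} {t : Fin (d + 1) → G} {a : L → G}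
    (h : S.SolC m g t0 t a) : ∃ H, S.Model m H := by
  obtain ⟨h0, hc, h1, h2, h3, h4, h5⟩ := h
  obtain ⟨τ, k1, k2, kc⟩ : ∃ τ : (Fin (d + 1) → ℤ) → G, (∀ c c', τ (c + c') = τ c * τ c') ∧
      (∀ r n, τ (Pi.single r n) = t r ^ n) ∧ ∀ c, Commute (τ c) t0 := by
    refine ⟨fun c => MonoidHom.noncommPiCoprod (fun r => zpowersHom G (t r))
      (fun r s _ x y => (h0 r s).zpow_zpow _ _) fun r => Multiplicative.ofAdd (c r),
      fun c c' => by rw [← map_mul]; rfl, fun r n => ?_, fun c => ?_⟩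
    · have : (fun s => Multiplicative.ofAdd ((Pi.single r n : Fin (d + 1) → ℤ) s)) =
          Pi.mulSingle r (Multiplicative.ofAdd n) := by
        funext s
        by_cases c : s = r <;> simp [c]
      simp only [this, MonoidHom.noncommPiCoprod_mulSingle]
      rfl
    · exact (MonoidHom.commute_noncommPiCoprod (fun r => zpowersHom G (t r))
        (fun r x => ((hc r).zpow_left _).symm) _).symm
  have k0 : τ 0 = 1 := by simpa using k2 0 0
  have k3 : ∀ c s, τ (c + sv s) = tv t s * τ c := fun c s => by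
    cases s
    · simp [sv, tv]
    · simp [add_comm c, k1, k2, sv, tv]
  refine ⟨fun l c => LC g (a l) (τ c), fun ρ hρ c => ?_, fun l hl => ?_,
    fun j hj => h3 _ ⟨j, hj, by simp [k2]⟩, h4 _ (by simp [k2]), fun c => h5 _ (kc c)⟩
  · simp only [k3]
    exact h1 ρ hρ _ (kc c)
  · simpa [k0, LC] using h2 l hl

theorem exists_prod (F : ℤ → G) (A : Finset ℤ) : ∃ a : G, ∀ y,
    (∀ i ∈ A, ∀ j ∈ A, ¬ Commute (F i) y → ¬ Commute (F j) y → i = j) →
      (¬ Commute a y ↔ ∃ i ∈ A, ¬ Commute (F i) y) := by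
  induction A using Finset.induction_on with
  | empty => exact ⟨1, by simp⟩
  | insert i A hi ih =>
    obtain ⟨a, ha⟩ := ih
    refine ⟨F i * a, fun y h => ?_⟩
    have k := ha y fun i hi j hj => h i (by simp [hi]) j (by simp [hj])
    rw [Finset.exists_mem_insert, ← k]
    by_cases c : Commute a y
    · simp only [c, not_true, or_false]
      exact not_congr ⟨fun e => by simpa using e.mul_left c.inv_left, fun e => e.mul_left c⟩
    · obtain ⟨j, hj, c'⟩ := k.1 c
      have e : Commute (F i) y := by_contra fun e =>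
        hi (h i (by simp) j (by simp [hj]) e c' ▸ hj)
      simp only [c, not_false_iff, or_true, iff_true]
      exact fun e' => c (by simpa using e.inv_left.mul_left e')

theorem solC_of_model (hG : Crit G) {S : Sys L d} {m : ℕ} {H : L → (Fin (d + 1) → ℤ) → Prop}
    (hH : S.Model m H) {M : ℕ} (hM : ∀ l c, H l c → ∀ r, |c r| ≤ M) :
    ∃ (g t0 : G) (t : _) (a : _), S.SolC m g t0 t a := by
  obtain ⟨K, σ, A, s0, s1, hK, m1, m2, m3, m4, m5⟩ := line_model hH hM
  obtain ⟨f, g, t, s, h1, h2, h3⟩ := hG K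
  have cs : ∀ (i : ℤ) z, Commute z t → Commute (s ^ i * z) t := fun i z h =>
    (h2.zpow_left i).mul_left h
  have sh : ∀ (i j : ℤ) z, Commute (s ^ i * f * (s ^ i)⁻¹) (s ^ j * z * g * (s ^ j * z)⁻¹) ↔
      Commute (s ^ (i - j) * f * (s ^ (i - j))⁻¹) (z * g * z⁻¹) := fun i j z => by
    rw [← Commute.conj_iff (s ^ j)⁻¹, zpow_sub]
    simp [mul_assoc, ((Commute.refl s).zpow_zpow i j).inv_right.eq]
  have un : ∀ z, Commute z t → ∀ i j : ℤ, |i - j| ≤ K →
      ¬ Commute (s ^ i * f * (s ^ i)⁻¹) (z * g * z⁻¹) →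
      ¬ Commute (s ^ j * f * (s ^ j)⁻¹) (z * g * z⁻¹) → i = j := fun z hz i j h a b => by
    by_contra c
    have := h3 _ (cs (-j) z hz) (by simpa using (sh 0 (-j) z).not.2 (by simpa using b)) (i - j)
      (sub_ne_zero.2 c) h
    exact a (by simpa using (sh _ _ z).1 this)
  choose a ha using fun l => exists_prod (fun i => s ^ i * f * (s ^ i)⁻¹) (A l)
  have lc : ∀ l z, Commute z t → (LC g (a l) z ↔
      ∃ i ∈ A l, ¬ Commute (s ^ i * f * (s ^ i)⁻¹) (z * g * z⁻¹)) := fun l z hz =>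
    ha l _ fun i hi j hj => un z hz i j (by simpa [s0] using hK l l none none i hi j hj)
  have fact : ∀ l, ∀ i ∈ A l, ¬ Commute (a l) (s ^ i * g * (s ^ i)⁻¹) := fun l i hi =>
    (lc l _ (h2.zpow_left i)).2 ⟨i, hi, by rwa [Commute.conj_iff]⟩
  have etv : ∀ o, tv (fun r => s ^ σ (some r)) o = s ^ σ o := fun o => by
    cases o <;> simp [tv, s0]
  refine ⟨g, t, fun r => s ^ σ (some r), a, fun r r' => (Commute.refl s).zpow_zpow _ _,
    fun r => h2.zpow_left _, fun ρ hρ z hz => ?_, fun l hl => by simpa using fact l 0 (m2 l hl),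
    ?_, ?_, fun z hz h => ?_⟩
  · simp only [etv, lc _ _ (cs _ z hz), sh]
    rintro ⟨i, a1, b1⟩ ⟨j, a2, b2⟩
    have e := un z hz _ _ (hK _ _ _ _ i a1 j a2) b1 b2
    exact ⟨_, m1 ρ hρ (i - σ ρ.1.2) (by simpa using a1) (by simpa [e] using a2), by simpa using b1⟩
  · rintro _ ⟨j, hj, rfl⟩
    simpa [s1] using fact _ _ (m3 j hj)
  · rintro _ rfl
    simpa [s1] using fact _ _ m4
  · obtain ⟨i, h, -⟩ := (lc _ _ hz).1 h
    exact m5 i h

theorem not_computable_crit {α : Type} (hG : Crit G) [Encodable α] (u : α → G) (n : ℕ) :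
    ¬ ComputablePred (SigmaTrue (n + 1 + 1) G u) := fun h => by
  obtain ⟨L, _, d, S, hS⟩ := exists_sys
  obtain ⟨ι, hι⟩ := exists_injective_nat L
  have k : ∀ n, Df (G := G) (n + 1) false fun m v =>
      S.SolC m (v 0) (v 1) (fun r => v (2 * r + 2)) fun l => v (2 * ι l + 3) := fun n => by
    induction n with
    | zero => exact df_SolC S ι
    | succ n ih => exact ih.pad
  obtain ⟨f, hf, e⟩ := (k n).reduce u
  refine hS (fun m => SigmaTrue (n + 1 + 1) G u (f m)) (fun m ⟨H, M, h1, h2⟩ => (e m).1 ?_)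
    (fun m h => ?_) (ComputablePred.computable_of_manyOneReducible ⟨f, hf, fun _ => .rfl⟩ h)
  · obtain ⟨x, y, t, a, h⟩ := solC_of_model hG h1 h2
    refine ⟨fun n => if n = 0 then x else if n = 1 then y else if n % 2 = 0 then
      Function.extend Fin.val t 1 (n / 2 - 1) else Function.extend ι a 1 (n / 2 - 1), ?_⟩
    convert h using 2 with r l <;> beta_reduce
    · rfl
    · rfl
    · rw [if_neg (by omega), if_neg (by omega), if_pos (by omega),
        show (2 * r.val + 2) / 2 - 1 = r.val by omega, Fin.val_injective.extend_apply]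
    · rw [if_neg (by omega), if_neg (by omega), if_neg (by omega),
        show (2 * ι l + 3) / 2 - 1 = ι l by omega, hι.extend_apply]
  · obtain ⟨v, h⟩ := (e m).2 h
    exact model_of_solC h

end Pool.Agent.Lib.MP_e9747f_lc
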