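import Mathlib

set_option autoImplicit false

namespace Pool.Agent.Lib.MP_e9747f_lc

open FirstOrder FirstOrder.Language

/-- The first-order language of groups: one function symbol of each arity `0` (the identity),
`1` (the inverse) and `2` (the product), no relation symbols. -/
abbrev grpLang : FirstOrder.Language :=
  ⟨fun n => Fin (if n ≤ 2 then 1 else 0), fun _ => Empty⟩

/-- A group as a structure for the language of groups. -/
@[reducible] def grpStr (G : Type) [Group G] : grpLang.Structure G where
  funMap {n} f x := match n, f, x with
    | 0, _, _ => 1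
    | 1, _, x => (x 0)⁻¹
    | 2, _, x => x 0 * x 1
    | _ + 3, f, _ => absurd f.2 (by simp)
  RelMap r _ := r.elim

/-- `Pfx n b φ`: the formula `φ` is prenex with exactly `n` alternating (nonempty) blocks of
quantifiers in front of a quantifier-free matrix, and the first block is existential if `b = true`
(a `Σ_n` formula) and universal if `b = false` (a `Π_n` formula). -/
inductive Pfx {α : Type} : ℕ → Bool → ∀ {k : ℕ}, grpLang.BoundedFormula α k → Prop
  | qf {b : Bool} {k : ℕ} {φ : grpLang.BoundedFormula α k} : φ.IsQF → Pfx 0 b φ
  | exNew {n k : ℕ} {φ : grpLang.BoundedFormula α (k + 1)} : Pfx n false φ → Pfx (n + 1) true φ.ex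
  | exOld {n k : ℕ} {φ : grpLang.BoundedFormula α (k + 1)} :
      Pfx (n + 1) true φ → Pfx (n + 1) true φ.ex
  | allNew {n k : ℕ} {φ : grpLang.BoundedFormula α (k + 1)} :
      Pfx n true φ → Pfx (n + 1) false φ.all
  | allOld {n k : ℕ} {φ : grpLang.BoundedFormula α (k + 1)} :
      Pfx (n + 1) false φ → Pfx (n + 1) false φ.all

/-- The Goedel numbers (Mathlib's list encoding) of the `Σ_n` formulas with free variables in `α`
that hold in `G` when the variables are given the values `v`. -/
def SigmaTrue (n : ℕ) (G : Type) [Group G] {α : Type} [Encodable α] (v : α → G) (k : ℕ) : Prop :=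
  ∃ φ : grpLang.Formula α, Encodable.encode (BoundedFormula.listEncode φ) = k ∧ Pfx n true φ ∧
    @Formula.Realize grpLang G (grpStr G) α φ v

/-- `G` is `Σ_n`-decidable: it has a copy with universe `ℕ` (given by a bijection `c`) whose
operations are computable and whose `Σ_n`-diagram (formulas with parameters from the copy) is
computable. -/
def SigmaDecidable (n : ℕ) (G : Type) [Group G] : Prop :=
  ∃ c : ℕ ≃ G, (Computable₂ fun a b => c.symm (c a * c b)) ∧ (Computable fun a => c.symm (c a)⁻¹) ∧
    ComputablePred (SigmaTrue n G c)

end Pool.Agent.Lib.MP_e9747f_lc
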