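import Pool.Agent.Lib.MP_e9747f_lc.DiBase

/-! Diophantine sets are closed under bounded universal quantification. -/

set_option autoImplicit false

namespace Pool.Agent.Lib.MP_e9747f_lc

open Dioph Finset

section Arith

variable {b M q : ℕ} (hq : q = b.factorial * M.factorial - 1) (hM : b + 3 ≤ M)

/-- the moduli -/
def md (b M y : ℕ) : ℕ := b.factorial / (y + 1) * M.factorial - 1

theorem md_succ {y : ℕ} (hy : y < b) : md b M y + 1 = b.factorial / (y + 1) * M.factorial := by
  have : 0 < b.factorial / (y + 1) :=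
    Nat.div_pos (Nat.le_of_dvd (Nat.factorial_pos b) (Nat.dvd_factorial (by omega) hy)) (by omega)
  have := Nat.mul_pos this (Nat.factorial_pos M)
  unfold md
  omega

include hq in
theorem md_mul {y : ℕ} (hy : y < b) : q = y + (y + 1) * md b M y := by
  have h1 := md_succ (M := M) hy
  have h2 := Nat.mul_div_cancel' (Nat.dvd_factorial (Nat.succ_pos y) hy)
  have h3 : (y + 1) * (md b M y + 1) = b.factorial * M.factorial := by
    rw [h1, ← mul_assoc, h2]
  rw [mul_add] at h3
  omega

theorem md_prime {y r : ℕ} (hy : y < b) (hr : r.Prime) (h : r ∣ md b M y) : M < r := by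
  by_contra c
  have : r ∣ md b M y + 1 :=
    md_succ (M := M) hy ▸ Dvd.dvd.mul_left (Nat.dvd_factorial hr.pos (not_lt.1 c)) _
  exact hr.one_lt.ne' (Nat.dvd_one.1 ((Nat.dvd_add_right h).1 this))

include hM in
theorem md_big {y : ℕ} (hy : y < b) : 2 ≤ md b M y := by
  have h1 := md_succ (M := M) hy
  have : 0 < b.factorial / (y + 1) :=
    Nat.div_pos (Nat.le_of_dvd (Nat.factorial_pos b) (Nat.dvd_factorial (by omega) hy)) (by omega)
  have h2 := Nat.self_le_factorial M
  have := Nat.mul_le_mul this h2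
  omega

include hq in
theorem md_prod : q.choose b = ∏ y ∈ range b, md b M y := by
  refine Nat.eq_of_mul_eq_mul_left (Nat.factorial_pos b) ?_
  rw [← Nat.descFactorial_eq_factorial_mul_choose, Nat.descFactorial_eq_prod_range,
    ← prod_range_add_one_eq_factorial, ← prod_mul_distrib]
  refine prod_congr rfl fun y hy => ?_
  have := md_mul hq (mem_range.1 hy)
  omega

include hq hM in
theorem md_coprime {y y' : ℕ} (hy : y < b) (hy' : y' < b) (h : y ≠ y') :
    (md b M y).Coprime (md b M y') := by
  refine Nat.Coprime.symm (Nat.coprime_of_dvd fun r hr h1 h2 => ?_)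
  have k := md_prime hy hr h2
  have e1 := md_mul hq hy
  have e2 := md_mul hq hy'
  have d1 : (r : ℤ) ∣ (q : ℤ) - y := by
    rw [e1]; push_cast; simpa using Dvd.dvd.mul_left (Int.natCast_dvd_natCast.2 h2) _
  have d2 : (r : ℤ) ∣ (q : ℤ) - y' := by
    rw [e2]; push_cast; simpa using Dvd.dvd.mul_left (Int.natCast_dvd_natCast.2 h1) _
  have d3 : (r : ℤ) ∣ (y' : ℤ) - y := by simpa using d1.sub d2
  have := Int.eq_zero_of_abs_lt_dvd d3 (by rw [abs_lt]; omega)
  omega

include hq in
theorem md_mod {y : ℕ} (hy : y < b) : (q : ℤ) ≡ y [ZMOD md b M y] := by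
  refine Int.ModEq.symm (Int.modEq_iff_dvd.2 ⟨y + 1, ?_⟩)
  rw [md_mul hq hy]
  push_cast
  ring

end Arith

theorem mod_lt_of_dvd_choose {r z w : ℕ} (hr : r.Prime) (hw : w < r) (h : r ∣ z.choose w) :
    z % r < w := by
  have h1 : r ∣ z.descFactorial w :=
    Nat.descFactorial_eq_factorial_mul_choose z w ▸ h.mul_left _
  rw [Nat.descFactorial_eq_prod_range, (Nat.Prime.prime hr).dvd_finsetProd_iff] at h1
  obtain ⟨i, hi, h2⟩ := h1
  have hi := mem_range.1 hi
  by_cases c : z < i
  · exact lt_of_le_of_lt (Nat.mod_le z r) (by omega)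
  · have : i ≡ z [MOD r] := (Nat.modEq_iff_dvd' (not_lt.1 c)).2 h2
    rw [← this, Nat.mod_eq_of_lt (by omega)]
    exact hi

theorem dvd_choose_of_mod {n z w t : ℕ} (hn : ∀ r, r.Prime → r ∣ n → w < r) (ht : t < w)
    (h : z ≡ t [MOD n]) : n ∣ z.choose w := by
  by_cases c : z < w
  · simp [Nat.choose_eq_zero_of_lt c]
  have h1 : n ∣ z.descFactorial w := by
    rw [Nat.descFactorial_eq_prod_range]
    exact ((Nat.modEq_iff_dvd' (by omega)).1 h.symm).trans (dvd_prod_of_mem _ (mem_range.2 ht))
  rw [Nat.descFactorial_eq_factorial_mul_choose] at h1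
  refine Nat.Coprime.dvd_of_dvd_mul_left (Nat.coprime_of_dvd fun r hr h2 h3 => ?_) h1
  exact absurd ((Nat.Prime.dvd_factorial hr).1 h3) (not_le.2 (hn r hr h2))

variable {α : Type}

/-- one more coordinate -/
def el (y : ℕ) (v : α → ℕ) : Option α → ℕ
  | none => y
  | some i => v i

theorem ball_key {β : Type} (p : Poly (Option α ⊕ β)) : ∃ (l : List β) (B : (Option α → ℕ) → ℕ),
    DiophFn B ∧ ∀ (v : α → ℕ) (b : ℕ), (∀ y < b, ∃ t, p (Sum.elim (el y v) t) = 0) ↔
      ∃ (w : ℕ) (z : β → ℕ),
        (b.factorial * (b + w + B (el (b + w) v) + 3).factorial - 1).choose b ∣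
          (p (Sum.elim (el (b.factorial * (b + w + B (el (b + w) v) + 3).factorial - 1) v) z)).natAbs ∧
        ∀ j ∈ l, (b.factorial * (b + w + B (el (b + w) v) + 3).factorial - 1).choose b ∣
          (z j).choose w := by
  classical
  obtain ⟨l, hl⟩ := poly_supp p
  obtain ⟨B, hB, hb⟩ := poly_bound p
  have cg : ∀ (v : α → ℕ) (m : ℤ) (y y' : ℕ) (t t' : β → ℕ), (y : ℤ) ≡ y' [ZMOD m] →
      (∀ j ∈ l.filterMap Sum.getRight?, (t j : ℤ) ≡ t' j [ZMOD m]) →
      p (Sum.elim (el y v) t) ≡ p (Sum.elim (el y' v) t') [ZMOD m] := fun v m y y' t t' h h' => by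
    refine hl m _ _ ?_
    rintro ((_ | i) | j) hi
    · exact h
    · rfl
    · exact h' j (List.mem_filterMap.2 ⟨_, hi, rfl⟩)
  refine ⟨l.filterMap Sum.getRight?, B, hB, fun v b => ⟨fun h => ?_, ?_⟩⟩
  · choose! t ht using h
    obtain ⟨w, hw⟩ : ∃ w, ∀ y < b, ∀ j ∈ l.filterMap Sum.getRight?, t y j < w :=
      ⟨((range b) ×ˢ (l.filterMap Sum.getRight?).toFinset).sup (fun x => t x.1 x.2) + 1,
        fun y hy j hj => Nat.lt_succ_of_le (le_sup (f := fun x : ℕ × β => t x.1 x.2) (b := (y, j))
          (mem_product.2 ⟨mem_range.2 hy, List.mem_toFinset.2 hj⟩))⟩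
    refine ⟨w, ?_⟩
    generalize hM : b + w + B (el (b + w) v) + 3 = M
    generalize hq : b.factorial * M.factorial - 1 = q
    have hM' : b + 3 ≤ M := by omega
    have pc : Set.Pairwise (range b : Set ℕ) (Function.onFun Nat.Coprime (md b M)) :=
      fun y hy y' hy' e => md_coprime hq.symm hM' (by simpa using hy) (by simpa using hy') e
    have cr := fun j => Nat.chineseRemainderOfFinset (fun y => t y j) (md b M) (range b)
      (fun y hy => by have := md_big hM' (mem_range.1 hy); omega) pc
    have pd : ∀ k, (∀ y < b, md b M y ∣ k) → q.choose b ∣ k := fun k hk => by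
      rw [md_prod hq.symm]
      exact prod_dvd_of_isRelPrime (fun y hy y' hy' e => Nat.coprime_iff_isRelPrime.1 (pc hy hy' e))
        fun y hy => hk y (mem_range.1 hy)
    refine ⟨fun j => (cr j).1, pd _ fun y hy => ?_, fun j hj => pd _ fun y hy => ?_⟩
    · have := cg v (md b M y) q y (fun j => (cr j).1) (t y) (md_mod hq.symm hy) fun j _ =>
        Int.natCast_modEq_iff.2 ((cr j).2 y (mem_range.2 hy))
      rw [ht y hy] at this
      exact Int.natCast_dvd.1 (Int.modEq_zero_iff_dvd.1 this)
    · exact dvd_choose_of_mod (fun r hr h => by have := md_prime hy hr h; omega) (hw y hy j hj)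
        ((cr j).2 y (mem_range.2 hy))
  · rintro ⟨w, z, h⟩ y hy
    generalize hM : b + w + B (el (b + w) v) + 3 = M at h
    generalize hq : b.factorial * M.factorial - 1 = q at h
    have hM' : b + 3 ≤ M := by omega
    obtain ⟨r, hr, h1⟩ := Nat.exists_prime_and_dvd (n := md b M y)
      (by have := md_big hM' hy; omega)
    have h2 := md_prime hy hr h1
    have h3 : r ∣ q.choose b := h1.trans (md_prod hq.symm ▸ dvd_prod_of_mem _ (mem_range.2 hy))
    refine ⟨fun j => if j ∈ l.filterMap Sum.getRight? then z j % r else 0, ?_⟩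
    have h4 := cg v r q y z (fun j => if j ∈ l.filterMap Sum.getRight? then z j % r else 0)
      ((md_mod hq.symm hy).of_dvd (Int.natCast_dvd_natCast.2 h1)) fun j hj => by
        rw [if_pos hj]
        exact Int.natCast_modEq_iff.2 (Nat.mod_modEq _ _).symm
    have h5 := hb (el (b + w) v) (Sum.elim (el y v)
      fun j => if j ∈ l.filterMap Sum.getRight? then z j % r else 0) (fun _ => rfl)
      (show y ≤ b + w by omega) fun j => by
        show (if _ then _ else _) ≤ b + w
        split_ifs with hj
        · exact (mod_lt_of_dvd_choose hr (by omega) (h3.trans (h.2 j hj))).le.trans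
            (Nat.le_add_left _ _)
        · omega
    refine Int.eq_zero_of_abs_lt_dvd (m := r) ?_ (by omega)
    exact Int.modEq_zero_iff_dvd.1 (h4.symm.trans
      (Int.modEq_zero_iff_dvd.2 (Int.natCast_dvd.2 (h3.trans h.1))))

theorem f_el {γ : Type} {B : (Option α → ℕ) → ℕ} (hB : DiophFn B) {f : (γ → ℕ) → ℕ}
    (hf : DiophFn f) (e : α → γ) : DiophFn fun V => B (el (f V) fun i => V (e i)) := by
  refine f_of (d_congr (d_ex (P := fun x (V : Option γ → ℕ) => x = f (fun i => V (some i)) ∧
    B (el x fun i => V (some (e i))) = V none) (d_and (eq_dioph (proj_dioph none) (f_up (f_up hf)))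
      (eq_dioph ?_ (proj_dioph (some none))))) (by simp))
  refine f_congr (reindex_diophFn (fun o : Option α => o.map fun i => some (e i)) hB) fun V => ?_
  congr 1
  funext o
  cases o <;> rfl

theorem d_ball {P : ℕ → (α → ℕ) → Prop}
    (h : Dioph {v : Option α → ℕ | P (v none) fun i => v (some i)}) {b : (α → ℕ) → ℕ}
    (hb : DiophFn b) : Dioph {v | ∀ y < b v, P y v} := by
  obtain ⟨β, p, hp⟩ := h
  obtain ⟨l, B, hB, key⟩ := ball_key p
  refine d_congr ?_ fun v => ((forall₂_congr fun y _ => hp (el y v)).trans (key v (b v))).symm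
  refine d_ex (ex_dioph (β := β) (S := {V : Option α ⊕ β → ℕ |
    ((b fun i => V (.inl (some i))).factorial * ((b fun i => V (.inl (some i))) + V (.inl none) +
      B (el ((b fun i => V (.inl (some i))) + V (.inl none)) fun i => V (.inl (some i))) +
        3).factorial - 1).choose (b fun i => V (.inl (some i))) ∣
      (p (Sum.elim (el ((b fun i => V (.inl (some i))).factorial * ((b fun i => V (.inl (some i))) +
        V (.inl none) + B (el ((b fun i => V (.inl (some i))) + V (.inl none))
          fun i => V (.inl (some i))) + 3).factorial - 1) fun i => V (.inl (some i)))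
            fun j => V (.inr j))).natAbs ∧
      ∀ j ∈ l, ((b fun i => V (.inl (some i))).factorial * ((b fun i => V (.inl (some i))) +
        V (.inl none) + B (el ((b fun i => V (.inl (some i))) + V (.inl none))
          fun i => V (.inl (some i))) + 3).factorial - 1).choose (b fun i => V (.inl (some i))) ∣
        (V (.inr j)).choose (V (.inl none))}) ?_)
  have b' : DiophFn fun V : Option α ⊕ β → ℕ => b fun i => V (.inl (some i)) :=
    reindex_diophFn (fun i => Sum.inl (some i)) hb
  have s := add_dioph b' (proj_dioph (.inl none))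
  have q := sub_dioph (mul_dioph (f_fact b') (f_fact (add_dioph (add_dioph s
    (f_el hB s fun i => .inl (some i))) (f_const 3)))) (f_const 1)
  refine d_and (dvd_dioph (f_choose q b') ?_)
    (d_list (fun j => dvd_dioph (f_choose q b') (f_choose (proj_dioph _) (proj_dioph _))) l)
  refine f_congr (f_el (abs_poly_dioph (p.map (Sum.elim
    (fun o : Option α => o.map fun i => Sum.inl (some i)) fun j => some (Sum.inr j)))) q id)
    fun V => ?_
  rw [Poly.map_apply]
  congr 2
  funext o
  rcases o with (_ | i) | j <;> rfl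

end Pool.Agent.Lib.MP_e9747f_lc
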