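import Mathlib

/-! Binomial coefficients and factorials are Diophantine. -/

set_option autoImplicit false

namespace Pool.Agent.Lib.MP_e9747f_lc

open Dioph Finset

variable {α : Type}

theorem d_congr {P Q : (α → ℕ) → Prop} (h : Dioph {v | P v}) (e : ∀ v, P v ↔ Q v) :
    Dioph {v | Q v} := h.ext e

theorem d_and {P Q : (α → ℕ) → Prop} (h : Dioph {v | P v}) (h' : Dioph {v | Q v}) :
    Dioph {v | P v ∧ Q v} := h.inter h'

theorem d_or {P Q : (α → ℕ) → Prop} (h : Dioph {v | P v}) (h' : Dioph {v | Q v}) :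
    Dioph {v | P v ∨ Q v} := h.union h'

theorem d_ex {P : ℕ → (α → ℕ) → Prop}
    (h : Dioph {v : Option α → ℕ | P (v none) fun i => v (some i)}) : Dioph {v | ∃ x, P x v} :=
  ex1_dioph h

theorem f_up {f : (α → ℕ) → ℕ} (h : DiophFn f) :
    DiophFn fun v : Option α → ℕ => f fun i => v (some i) := reindex_diophFn some h

theorem f_of {f : (α → ℕ) → ℕ}
    (h : Dioph {v : Option α → ℕ | f (fun i => v (some i)) = v none}) : DiophFn f := h

theorem f_congr {f g : (α → ℕ) → ℕ} (h : DiophFn f) (e : ∀ v, f v = g v) : DiophFn g := by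
  rwa [← show f = g from funext e]

theorem f_const (n : ℕ) : DiophFn fun _ : α → ℕ => n := const_dioph n

theorem d_list {ι : Type} {P : ι → (α → ℕ) → Prop} (h : ∀ j, Dioph {v | P j v}) (l : List ι) :
    Dioph {v | ∀ j ∈ l, P j v} := by
  induction l with
  | nil => exact d_congr (eq_dioph (f_const 0) (f_const 0)) (by simp)
  | cons j l ih => exact d_congr (d_and (h j) ih) (by simp)

theorem choose_eq (n k u : ℕ) (hu : 2 ^ n < u) : n.choose k = (u + 1) ^ n / u ^ k % u := by
  have u0 : 0 < u := lt_of_le_of_lt (Nat.zero_le _) hu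
  have lt : ∀ i, n.choose i < u := fun i => lt_of_le_of_lt (Nat.choose_le_two_pow n i) hu
  have low : ∀ j, ∑ i ∈ range j, u ^ i * n.choose i < u ^ j := fun j => by
    induction j with
    | zero => simp
    | succ j ih =>
      rw [sum_range_succ, pow_succ]
      have := lt j
      nlinarith [pow_pos u0 j]
  have e : (u + 1) ^ n = ∑ i ∈ range (k + 1 + n), u ^ i * n.choose i := by
    rw [add_pow]
    simp only [one_pow, mul_one, Nat.cast_id]
    refine sum_subset (range_subset_range.2 (by omega)) fun i _ hi => ?_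
    rw [Nat.choose_eq_zero_of_lt (by simpa using hi), mul_zero]
  have e2 : (u + 1) ^ n = ∑ i ∈ range k, u ^ i * n.choose i +
      u ^ k * (n.choose k + u * ∑ i ∈ range n, u ^ i * n.choose (k + 1 + i)) := by
    rw [e, sum_range_add, sum_range_succ, mul_add, add_assoc, mul_sum, mul_sum]
    congr 2
    refine sum_congr rfl fun i _ => ?_
    ring
  rw [e2, Nat.add_mul_div_left _ _ (pow_pos u0 k), Nat.div_eq_of_lt (low k), zero_add,
    Nat.add_mul_mod_self_left, Nat.mod_eq_of_lt (lt k)]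

theorem f_choose {f g : (α → ℕ) → ℕ} (hf : DiophFn f) (hg : DiophFn g) :
    DiophFn fun v => (f v).choose (g v) := by
  have u : DiophFn fun v => 2 ^ f v + 1 := add_dioph (pow_dioph (f_const 2) hf) (f_const 1)
  exact f_congr (mod_dioph (div_dioph (pow_dioph (add_dioph u (f_const 1)) hf) (pow_dioph u hg)) u)
    fun v => (choose_eq _ _ _ (Nat.lt_succ_self _)).symm

theorem fact_eq (n r : ℕ) (hr : (n ^ n + 1) * (n * n) + n < r) :
    n.factorial = r ^ n / r.choose n := by
  have h1 := Nat.descFactorial_eq_factorial_mul_choose r n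
  have h2 := Nat.descFactorial_le_pow r n
  have h3 := Nat.pow_sub_le_descFactorial r n
  have h4 : n.factorial ≤ n ^ n := Nat.factorial_le_pow n
  have c0 : 0 < r.choose n := Nat.choose_pos (by omega)
  symm
  refine Nat.div_eq_of_lt_le (by rw [← h1]; exact h2) ?_
  rcases n with _ | n
  · simp
  have h5 : ((r : ℤ) - (n + 1 : ℕ)) ^ (n + 1) ≤ (r.descFactorial (n + 1) : ℤ) := by
    have : (r - (n + 1)) ^ (n + 1) ≤ r.descFactorial (n + 1) :=
      le_trans (Nat.pow_le_pow_left (by omega) _) h3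
    have := Int.ofNat_le.2 this
    rwa [Nat.cast_pow, Nat.cast_sub (by omega)] at this
  have h6 := pow_add_mul_le_add_pow (a := (r : ℤ)) (b := -((n + 1 : ℕ) : ℤ)) (by positivity)
    (by omega) (n + 1)
  rw [← sub_eq_add_neg, Nat.add_sub_cancel] at h6
  have f0 := Nat.factorial_pos (n + 1)
  refine Nat.lt_of_mul_lt_mul_left (a := (n + 1).factorial) ?_
  have h7 : ((n + 1).factorial + 1) * ((n + 1) * (n + 1)) < r := by nlinarith
  have e : (n + 1).factorial * (((n + 1).factorial + 1) * r.choose (n + 1)) =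
      ((n + 1).factorial + 1) * r.descFactorial (n + 1) := by rw [h1]; ring
  rw [e]
  zify at h7 ⊢
  have p : (0 : ℤ) < (r : ℤ) ^ n := by
    have : 0 < r := by omega
    positivity
  push_cast at h5 h6
  rw [pow_succ (r : ℤ) n] at h6 ⊢
  have h8 := h6.trans h5
  generalize (r.descFactorial (n + 1) : ℤ) = D at h8 ⊢
  have f1 : (0 : ℤ) < ((n + 1).factorial : ℤ) := by exact_mod_cast f0
  generalize ((n + 1).factorial : ℤ) = f at h7 f1 ⊢
  generalize (r : ℤ) ^ n = R at h8 p ⊢
  nlinarith [mul_lt_mul_of_pos_left h7 p, mul_le_mul_of_nonneg_left h8 (by omega : 0 ≤ f + 1)]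

theorem f_fact {f : (α → ℕ) → ℕ} (hf : DiophFn f) : DiophFn fun v => (f v).factorial := by
  have r : DiophFn fun v => (f v ^ f v + 1) * (f v * f v) + f v + 1 :=
    add_dioph (add_dioph (mul_dioph (add_dioph (pow_dioph hf hf) (f_const 1)) (mul_dioph hf hf)) hf)
      (f_const 1)
  exact f_congr (div_dioph (pow_dioph r hf) (f_choose r hf))
    fun v => (fact_eq _ _ (Nat.lt_succ_self _)).symm

/-- finite support and congruences -/
theorem poly_supp {γ : Type} (p : Poly γ) : ∃ l : List γ, ∀ (m : ℤ) (x y : γ → ℕ),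
    (∀ i ∈ l, (x i : ℤ) ≡ y i [ZMOD m]) → p x ≡ p y [ZMOD m] := by
  refine Poly.induction (C := fun p => ∃ l : List γ, ∀ (m : ℤ) (x y : γ → ℕ),
    (∀ i ∈ l, (x i : ℤ) ≡ y i [ZMOD m]) → p x ≡ p y [ZMOD m]) (fun i => ⟨[i], fun m x y h => ?_⟩)
    (fun n => ⟨[], fun m x y _ => Int.ModEq.refl _⟩) ?_ ?_ p
  · exact h i (by simp)
  · rintro f g ⟨l, h⟩ ⟨l', h'⟩
    exact ⟨l ++ l', fun m x y e => (h m x y fun i hi => e i (by simp [hi])).sub
      (h' m x y fun i hi => e i (by simp [hi]))⟩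
  · rintro f g ⟨l, h⟩ ⟨l', h'⟩
    exact ⟨l ++ l', fun m x y e => (h m x y fun i hi => e i (by simp [hi])).mul
      (h' m x y fun i hi => e i (by simp [hi]))⟩

/-- a Diophantine bound -/
theorem poly_bound {β : Type} (p : Poly (Option α ⊕ β)) : ∃ B : (Option α → ℕ) → ℕ, DiophFn B ∧
    ∀ (u : Option α → ℕ) (x : Option α ⊕ β → ℕ), (∀ i, x (.inl (some i)) = u (some i)) →
      x (.inl none) ≤ u none → (∀ j, x (.inr j) ≤ u none) → |p x| ≤ B u := by
  refine Poly.induction (C := fun p => ∃ B : (Option α → ℕ) → ℕ, DiophFn B ∧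
    ∀ (u : Option α → ℕ) (x : Option α ⊕ β → ℕ), (∀ i, x (.inl (some i)) = u (some i)) →
      x (.inl none) ≤ u none → (∀ j, x (.inr j) ≤ u none) → |p x| ≤ B u) ?_
    (fun n => ⟨fun _ => n.natAbs, f_const _, fun u x _ _ _ => by simp⟩) ?_ ?_ p
  · rintro ((_ | i) | j)
    · exact ⟨_, proj_dioph none, fun u x _ h _ => by simpa using h⟩
    · exact ⟨_, proj_dioph (some i), fun u x h _ _ => by simp [h]⟩
    · exact ⟨_, proj_dioph none, fun u x _ _ h => by simpa using h j⟩
  · rintro f g ⟨B, a, h⟩ ⟨B', a', h'⟩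
    refine ⟨_, add_dioph a a', fun u x h1 h2 h3 => ?_⟩
    have := h u x h1 h2 h3
    have := h' u x h1 h2 h3
    have := abs_sub (f x) (g x)
    simp only [Poly.sub_apply]
    push_cast
    omega
  · rintro f g ⟨B, a, h⟩ ⟨B', a', h'⟩
    refine ⟨_, mul_dioph a a', fun u x h1 h2 h3 => ?_⟩
    simp only [Poly.mul_apply, abs_mul]
    push_cast
    exact mul_le_mul (h u x h1 h2 h3) (h' u x h1 h2 h3) (abs_nonneg _) (by positivity)

end Pool.Agent.Lib.MP_e9747f_lc
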