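import Pool.Agent.Lib.MP_e9747f_lc.DiAll

/-! Primitive recursive functions are Diophantine; there is a Diophantine set that is not
computable. -/

set_option autoImplicit false

namespace Pool.Agent.Lib.MP_e9747f_lc

open Dioph

variable {α : Type}

theorem f_pair {f g : (α → ℕ) → ℕ} (hf : DiophFn f) (hg : DiophFn g) :
    DiophFn fun v => Nat.pair (f v) (g v) := by
  have a := f_up hf
  have b := f_up hg
  refine f_of (d_congr (d_or
    (d_and (lt_dioph a b) (eq_dioph (add_dioph (mul_dioph b b) a) (proj_dioph none)))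
    (d_and (le_dioph b a) (eq_dioph (add_dioph (add_dioph (mul_dioph a a) a) b) (proj_dioph none))))
    fun v => ?_)
  unfold Nat.pair
  split_ifs with c
  · simp [c, c.not_ge]
  · simp [c, not_lt.1 c]

theorem f_left {f : (α → ℕ) → ℕ} (hf : DiophFn f) : DiophFn fun v => (f v).unpair.1 := by
  refine f_of (d_congr (d_ex (P := fun x (V : Option α → ℕ) =>
    Nat.pair (V none) x = f fun i => V (some i))
    (eq_dioph (f_pair (proj_dioph (some none)) (proj_dioph none)) (f_up (f_up hf)))) fun v => ?_)
  exact ⟨fun ⟨x, h⟩ => by simp [← h], fun h => ⟨_, by rw [← h, Nat.pair_unpair]⟩⟩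

theorem f_right {f : (α → ℕ) → ℕ} (hf : DiophFn f) : DiophFn fun v => (f v).unpair.2 := by
  refine f_of (d_congr (d_ex (P := fun x (V : Option α → ℕ) =>
    Nat.pair x (V none) = f fun i => V (some i))
    (eq_dioph (f_pair (proj_dioph none) (proj_dioph (some none))) (f_up (f_up hf)))) fun v => ?_)
  exact ⟨fun ⟨x, h⟩ => by simp [← h], fun h => ⟨_, by rw [← h, Nat.pair_unpair]⟩⟩

theorem f_beta {f g : (α → ℕ) → ℕ} (hf : DiophFn f) (hg : DiophFn g) :
    DiophFn fun v => Nat.beta (f v) (g v) :=
  mod_dioph (f_left hf) (add_dioph (mul_dioph (add_dioph hg (f_const 1)) (f_right hf)) (f_const 1))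

theorem rec_iff (a k r : ℕ) (s : ℕ → ℕ → ℕ) : (Nat.rec a s k : ℕ) = r ↔ ∃ c, Nat.beta c 0 = a ∧
    (∀ i < k, Nat.beta c (i + 1) = s i (Nat.beta c i)) ∧ Nat.beta c k = r := by
  constructor
  · rintro rfl
    have e : ∀ i ≤ k, Nat.beta (Nat.unbeta (List.ofFn fun j : Fin (k + 1) =>
        (Nat.rec a s j.val : ℕ))) i = (Nat.rec a s i : ℕ) := fun i hi => by
      have := Nat.beta_unbeta_coe (List.ofFn fun j : Fin (k + 1) => (Nat.rec a s j.val : ℕ))
        ⟨i, by simpa using Nat.lt_succ_of_le hi⟩
      rw [this, Fin.getElem_fin, List.getElem_ofFn]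
    exact ⟨_, e 0 k.zero_le, fun i hi => by rw [e i hi.le, e (i + 1) hi], e k le_rfl⟩
  · rintro ⟨c, h0, h1, rfl⟩
    suffices ∀ i ≤ k, (Nat.rec a s i : ℕ) = Nat.beta c i from this k le_rfl
    intro i hi
    induction i with
    | zero => exact h0.symm
    | succ i ih => rw [h1 i hi, ← ih (by omega)]

theorem f_primrec {f : ℕ → ℕ} (h : Nat.Primrec f) :
    ∀ {α : Type} {g : (α → ℕ) → ℕ}, DiophFn g → DiophFn fun v => f (g v) := by
  induction h with
  | zero => exact fun _ => f_const 0
  | succ => exact fun h => add_dioph h (f_const 1)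
  | left => exact f_left
  | right => exact f_right
  | pair _ _ a b => exact fun h => f_pair (a h) (b h)
  | comp _ _ a b => exact fun h => a (b h)
  | @prec f s _ _ a b =>
    intro α g h
    have h2 := f_up (f_up h)
    refine f_of (d_congr (d_ex (P := fun c (V : Option α → ℕ) =>
      Nat.beta c 0 = f (g fun i => V (some i)).unpair.1 ∧
      (∀ i < (g fun i => V (some i)).unpair.2, Nat.beta c (i + 1) =
        s (Nat.pair (g fun i => V (some i)).unpair.1 (Nat.pair i (Nat.beta c i)))) ∧
      Nat.beta c (g fun i => V (some i)).unpair.2 = V none)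
      (d_and (eq_dioph (f_beta (proj_dioph none) (f_const 0)) (a (f_left h2)))
        (d_and (d_ball (P := fun i (V : Option (Option α) → ℕ) => Nat.beta (V none) (i + 1) =
          s (Nat.pair (g fun i => V (some (some i))).unpair.1 (Nat.pair i (Nat.beta (V none) i))))
          ?_ (f_right h2))
          (eq_dioph (f_beta (proj_dioph none) (f_right h2)) (proj_dioph (some none))))))
      fun v => (rec_iff _ _ _ fun y IH =>
        s (Nat.pair (g fun i => v (some i)).unpair.1 (Nat.pair y IH))).symm)
    exact eq_dioph (f_beta (proj_dioph (some none)) (add_dioph (proj_dioph none) (f_const 1)))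
      (b (f_pair (f_left (f_up h2))
        (f_pair (proj_dioph none) (f_beta (proj_dioph (some none)) (proj_dioph none)))))

open Nat.Partrec in
/-- A Diophantine set that is not computable. -/
theorem exists_dioph : ∃ K : ℕ → Prop, ¬ ComputablePred K ∧ Dioph {v : Unit → ℕ | K (v ())} := by
  have p : Primrec fun n : ℕ => Encodable.encode
      (Code.evaln n.unpair.2 (Denumerable.ofNat Code n.unpair.1) 0) :=
    Primrec.encode.comp (Code.primrec_evaln.comp (((Primrec.snd.comp Primrec.unpair).pair
      ((Primrec.ofNat Code).comp (Primrec.fst.comp Primrec.unpair))).pair (.const 0)))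
  refine ⟨fun m => ((Denumerable.ofNat Code m).eval 0).Dom, fun h => ?_, ?_⟩
  · refine ComputablePred.halting_problem 0
      (ComputablePred.computable_of_manyOneReducible ⟨Encodable.encode, .encode, fun c => ?_⟩ h)
    simp
  · refine d_congr (d_ex (P := fun k (v : Unit → ℕ) => 0 < Encodable.encode (Code.evaln
      (Nat.pair (v ()) k).unpair.2 (Denumerable.ofNat Code (Nat.pair (v ()) k).unpair.1) 0))
      (lt_dioph (f_const 0) (f_primrec (Primrec.nat_iff.1 p)
        (f_pair (proj_dioph (some ())) (proj_dioph none))))) fun v => ?_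
    simp only [Nat.unpair_pair, Part.dom_iff_mem, Code.evaln_complete]
    refine ⟨fun ⟨k, h⟩ => ?_, fun ⟨x, k, h⟩ => ⟨k, by simp [Option.mem_def.1 h]⟩⟩
    cases e : Code.evaln k (Denumerable.ofNat Code (v ())) 0 with
    | none => simp [e] at h
    | some x => exact ⟨x, k, e⟩

end Pool.Agent.Lib.MP_e9747f_lc
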