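import Pool.Agent.Lib.MP_e9747f_lc.Defs

/-! Primitive recursive families of prenex formulas of the language of groups. -/

set_option autoImplicit false
open FirstOrder FirstOrder.Language Encodable Function

namespace Pool.Agent.Lib.MP_e9747f_lc

inductive Tm : Type
  | var : ℕ → ℕ → Tm
  | one : Tm
  | inv : Tm → Tm
  | mul : Tm → Tm → Tm

inductive Fm : Type
  | eq : Tm → Tm → Fm
  | bot : Fm
  | imp : Fm → Fm → Fm

namespace Tm

def ev {G : Type} [Group G] (V : ℕ → ℕ → G) : Tm → G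
  | var j i => V j i
  | one => 1
  | inv s => (s.ev V)⁻¹
  | mul s t => s.ev V * t.ev V

def code (ρ : ℕ → ℕ → List ℕ) : Tm → List ℕ
  | var j i => ρ j i
  | one => [2 * Nat.pair 0 0 + 1]
  | inv s => (2 * Nat.pair 1 0 + 1) :: s.code ρ
  | mul s t => (2 * Nat.pair 2 0 + 1) :: (s.code ρ ++ t.code ρ)

def sub (σ : ℕ → ℕ → Tm) : Tm → Tm
  | var j i => σ j i
  | one => one
  | inv s => inv (s.sub σ)
  | mul s t => mul (s.sub σ) (t.sub σ)

def bd : Tm → ℕ
  | var _ i => i + 1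
  | one => 0
  | inv s => s.bd
  | mul s t => max s.bd t.bd

theorem ev_sub {G : Type} [Group G] (V : ℕ → ℕ → G) (σ : ℕ → ℕ → Tm) (s : Tm) :
    (s.sub σ).ev V = s.ev fun j i => (σ j i).ev V := by
  induction s <;> simp_all [sub, ev]

theorem code_sub (ρ : ℕ → ℕ → List ℕ) (σ : ℕ → ℕ → Tm) (s : Tm) :
    (s.sub σ).code ρ = s.code fun j i => (σ j i).code ρ := by
  induction s <;> simp_all [sub, code]

theorem ev_congr {G : Type} [Group G] {V V' : ℕ → ℕ → G} {B : ℕ}
    (h : ∀ j, ∀ i < B, V j i = V' j i) (s : Tm) (hs : s.bd ≤ B) : s.ev V = s.ev V' := by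
  induction s with
  | var j i => exact h j i hs
  | one => rfl
  | inv s ih => simp only [ev, ih hs]
  | mul s t ih1 ih2 =>
    simp only [ev, ih1 (le_of_max_le_left hs), ih2 (le_of_max_le_right hs)]

end Tm

namespace Fm

def ev {G : Type} [Group G] (V : ℕ → ℕ → G) : Fm → Prop
  | eq s t => s.ev V = t.ev V
  | bot => False
  | imp φ ψ => φ.ev V → ψ.ev V

def code (d : ℕ) (ρ : ℕ → ℕ → List ℕ) : Fm → List ℕ
  | eq s t => [2 * Nat.pair d (encode (s.code ρ)), 2 * Nat.pair d (encode (t.code ρ))]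
  | bot => [2 * (2 * (d + 2) + 1) + 1]
  | imp φ ψ => 3 :: (φ.code d ρ ++ ψ.code d ρ)

def sub (σ : ℕ → ℕ → Tm) : Fm → Fm
  | eq s t => eq (s.sub σ) (t.sub σ)
  | bot => bot
  | imp φ ψ => imp (φ.sub σ) (ψ.sub σ)

theorem ev_sub {G : Type} [Group G] (V : ℕ → ℕ → G) (σ : ℕ → ℕ → Tm) (φ : Fm) :
    (φ.sub σ).ev V ↔ φ.ev fun j i => (σ j i).ev V := by
  induction φ <;> simp_all [sub, ev, Tm.ev_sub]

theorem code_sub (d : ℕ) (ρ : ℕ → ℕ → List ℕ) (σ : ℕ → ℕ → Tm) (φ : Fm) :
    (φ.sub σ).code d ρ = φ.code d fun j i => (σ j i).code ρ := by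
  induction φ <;> simp_all [sub, code, Tm.code_sub]

end Fm

variable {G : Type} [Group G]

/-- depends only on the variables of index below `B` -/
def Loc (B : ℕ) (F : (ℕ → ℕ → G) → Prop) : Prop :=
  ∀ V V', (∀ j, ∀ i < B, V j i = V' j i) → (F V ↔ F V')

/-- defined by a primitive recursive family of quantifier-free formulas -/
def QD (F : ℕ → (ℕ → ℕ → G) → Prop) : Prop :=
  ∃ μ : ℕ → Fm, (∀ d ρ, Primrec fun m => (μ m).code d ρ) ∧ (∃ B, ∀ m, Loc B (F m)) ∧
    ∀ m V, (μ m).ev V ↔ F m V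

theorem QD.bot : QD (G := G) fun _ _ => False :=
  ⟨fun _ => .bot, fun _ _ => .const _, ⟨0, fun _ _ _ _ => .rfl⟩, fun _ _ => .rfl⟩

theorem QD.imp {F F' : ℕ → (ℕ → ℕ → G) → Prop} (h : QD F) (h' : QD F') :
    QD fun m V => F m V → F' m V := by
  obtain ⟨μ, a1, ⟨B, a2⟩, a3⟩ := h
  obtain ⟨μ', b1, ⟨B', b2⟩, b3⟩ := h'
  refine ⟨fun m => .imp (μ m) (μ' m), fun d ρ => Primrec.list_cons.comp (.const 3)
    (Primrec.list_append.comp (a1 d ρ) (b1 d ρ)), ⟨max B B', fun m V V' e => imp_congr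
      (a2 m V V' fun j i hi => e j i (lt_max_of_lt_left hi))
      (b2 m V V' fun j i hi => e j i (lt_max_of_lt_right hi))⟩, fun m V => ?_⟩
  simp only [Fm.ev, a3, b3]

theorem QD.congr {F F' : ℕ → (ℕ → ℕ → G) → Prop} (h : QD F) (e : ∀ m V, F m V ↔ F' m V) :
    QD F' := by
  rwa [show F' = F from funext₂ fun m V => propext (e m V).symm]

theorem QD.not {F : ℕ → (ℕ → ℕ → G) → Prop} (h : QD F) : QD fun m V => ¬ F m V := h.imp .bot

theorem QD.and {F F' : ℕ → (ℕ → ℕ → G) → Prop} (h : QD F) (h' : QD F') :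
    QD fun m V => F m V ∧ F' m V := (h.imp h'.not).not.congr fun _ _ => by tauto

theorem QD.sub {F : ℕ → (ℕ → ℕ → G) → Prop} (h : QD F) (σ : ℕ → ℕ → Tm)
    (hσ : ∀ B, ∃ B', ∀ j, ∀ i < B, (σ j i).bd ≤ B') :
    QD fun m V => F m fun j i => (σ j i).ev V := by
  obtain ⟨μ, a1, ⟨B, a2⟩, a3⟩ := h
  obtain ⟨B', hB⟩ := hσ B
  exact ⟨fun m => (μ m).sub σ, fun d ρ => by simpa only [Fm.code_sub] using a1 d _,
    ⟨B', fun m V V' e => a2 m _ _ fun j i hi => Tm.ev_congr e _ (hB j i hi)⟩,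
    fun m V => (Fm.ev_sub V σ _).trans (a3 m _)⟩

/-- renaming of variables -/
theorem QD.ren {F : ℕ → (ℕ → ℕ → G) → Prop} (h : QD F) (a b : ℕ → ℕ → ℕ)
    (hb : ∀ j i, b j i ≤ 2 * i + 1) : QD fun m V => F m fun j i => V (a j i) (b j i) :=
  h.sub (fun j i => .var (a j i) (b j i)) fun B => ⟨2 * B + 2, fun j i hi => by
    have := hb j i
    simp only [Tm.bd]
    omega⟩

theorem primrec_eq {s t : ℕ → Tm} (hs : ∀ ρ, Primrec fun m => (s m).code ρ)
    (ht : ∀ ρ, Primrec fun m => (t m).code ρ) (d : ℕ) (ρ : ℕ → ℕ → List ℕ) :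
    Primrec fun m => (Fm.eq (s m) (t m)).code d ρ := by
  have k : ∀ {s : ℕ → Tm}, (∀ ρ, Primrec fun m => (s m).code ρ) →
      Primrec fun m => 2 * Nat.pair d (encode ((s m).code ρ)) := fun h =>
    Primrec.nat_mul.comp (.const 2) (Primrec₂.natPair.comp (.const d) (Primrec.encode.comp (h ρ)))
  exact Primrec.list_cons.comp (k hs) (Primrec.list_cons.comp (k ht) (.const []))

theorem QD.eq (s t : Tm) : QD (G := G) fun _ V => s.ev V = t.ev V :=
  ⟨fun _ => .eq s t, fun _ _ => .const _, ⟨max s.bd t.bd, fun _ V V' e => by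
    simp only [Tm.ev_congr e s (le_max_left _ _), Tm.ev_congr e t (le_max_right _ _)]⟩,
    fun _ _ => .rfl⟩

/-- the term for `x ^ j * y * x⁻¹ ^ j` -/
def cj : ℕ → Tm
  | 0 => .var 0 2
  | j + 1 => .mul (.var 0 1) (.mul (cj j) (.inv (.var 0 1)))

theorem ev_cj (V : ℕ → ℕ → G) (j : ℕ) : (cj j).ev V = V 0 1 ^ j * V 0 2 * (V 0 1 ^ j)⁻¹ := by
  induction j with
  | zero => simp [cj, Tm.ev]
  | succ j ih => simp [cj, Tm.ev, ih, pow_succ', mul_assoc]

theorem primrec_cj (ρ : ℕ → ℕ → List ℕ) : Primrec fun m => (cj m).code ρ := by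
  have h := Primrec.nat_rec₁ (f := fun (_ : ℕ) (l : List ℕ) => (2 * Nat.pair 2 0 + 1) :: (ρ 0 1 ++
    (2 * Nat.pair 2 0 + 1) :: (l ++ (2 * Nat.pair 1 0 + 1) :: ρ 0 1))) (ρ 0 2)
    (Primrec.list_cons.comp (.const _) (Primrec.list_append.comp (.const _)
      (Primrec.list_cons.comp (.const _) (Primrec.list_append.comp .snd (.const _))))).to₂
  refine h.of_eq fun m => ?_
  induction m with
  | zero => rfl
  | succ m ih => simp only [cj, Tm.code, ← ih]

omit [Group G] in
theorem loc_cj (F : G → G → G → Prop) : Loc 3 fun V : ℕ → ℕ → G => F (V 0 0) (V 0 1) (V 0 2) :=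
  fun V V' e => by simp only [e 0 0 (by omega), e 0 1 (by omega), e 0 2 (by omega)]

theorem QD.top : QD (G := G) fun m V => V 0 0 = V 0 1 ^ m * V 0 2 * (V 0 1 ^ m)⁻¹ :=
  ⟨fun m => .eq (.var 0 0) (cj m), primrec_eq (fun _ => .const _) primrec_cj,
    ⟨3, fun m => loc_cj fun a b c => a = b ^ m * c * (b ^ m)⁻¹⟩,
    fun m V => by simp only [Fm.ev, ev_cj, Tm.ev]⟩

/-- a long disjunction -/
def dj : ℕ → Fm
  | 0 => .bot
  | m + 1 => .imp (.imp (.eq (.var 0 0) (cj m)) .bot) (dj m)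

theorem QD.seg : QD (G := G) fun m V => ∃ j < m, V 0 0 = V 0 1 ^ j * V 0 2 * (V 0 1 ^ j)⁻¹ := by
  refine ⟨dj, fun d ρ => ?_,
    ⟨3, fun m => loc_cj fun a b c => ∃ j < m, a = b ^ j * c * (b ^ j)⁻¹⟩, fun m V => ?_⟩
  · have h := Primrec.nat_rec₁ (f := fun (m : ℕ) (l : List ℕ) => 3 :: ((3 ::
      ((Fm.eq (.var 0 0) (cj m)).code d ρ ++ Fm.bot.code d ρ)) ++ l)) (Fm.bot.code d ρ)
      (Primrec.list_cons.comp (.const _) (Primrec.list_append.comp (Primrec.list_cons.comp
        (.const _) (Primrec.list_append.comp ((primrec_eq (fun _ => .const _) primrec_cj d ρ).comp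
          .fst) (.const _))) .snd)).to₂
    refine h.of_eq fun m => ?_
    induction m with
    | zero => rfl
    | succ m ih => exact congrArg (fun l => 3 :: (_ ++ l)) ih
  · induction m with
    | zero => simp [dj, Fm.ev]
    | succ m ih =>
      simp only [dj, Fm.ev, ih, ev_cj, Tm.ev, Nat.exists_lt_succ_right]
      exact ⟨fun h => or_iff_not_imp_right.2 h, fun h => or_iff_not_imp_right.1 h⟩

/-- a prefix of `n` blocks of quantifiers -/
def Q : ℕ → Bool → ((ℕ → ℕ → G) → Prop) → (ℕ → ℕ → G) → Prop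
  | 0, _, F, V => F V
  | n + 1, true, F, V => ∃ w, Q n false F (update V (n + 1) w)
  | n + 1, false, F, V => ∀ w, Q n true F (update V (n + 1) w)

omit [Group G] in
theorem Q_not (n : ℕ) (b : Bool) (F : (ℕ → ℕ → G) → Prop) (V : ℕ → ℕ → G) :
    Q n b (fun V => ¬ F V) V ↔ ¬ Q n (!b) F V := by
  induction n generalizing b V with
  | zero => rfl
  | succ n ih => cases b <;> simp [Q, ih]

omit [Group G] in
theorem Q_comp (Θ : (ℕ → ℕ → G) → ℕ → ℕ → G) (n : ℕ)
    (h : ∀ k < n, ∀ V w, Θ (update V (k + 1) w) = update (Θ V) (k + 1) w) (b : Bool)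
    (F : (ℕ → ℕ → G) → Prop) (V : ℕ → ℕ → G) : Q n b (fun V => F (Θ V)) V ↔ Q n b F (Θ V) := by
  induction n generalizing b V with
  | zero => rfl
  | succ n ih =>
    cases b <;> simp only [Q, ih fun k hk => h k (by omega), h n (by omega)]

omit [Group G] in
theorem Q_loc {B : ℕ} {F : (ℕ → ℕ → G) → Prop} (h : Loc B F) (n : ℕ) (b : Bool) :
    Loc B (Q n b F) := by
  induction n generalizing b with
  | zero => exact h
  | succ n ih =>
    intro V V' e
    have k : ∀ b w, Q n b F (update V (n + 1) w) ↔ Q n b F (update V' (n + 1) w) :=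
      fun b w => ih b _ _ fun j i hi => by
        by_cases c : j = n + 1 <;> simp [c, e j i hi]
    cases b <;> simp only [Q, k]

theorem Q_shift (n : ℕ) (b : Bool) (F : (ℕ → ℕ → G) → Prop) (V : ℕ → ℕ → G) :
    Q (n + 1) b (fun V => F fun j i => V (if j = 0 then 0 else j + 1) i) V ↔
      Q n b F fun j i => V (if j = 0 then 0 else j + 1) i := by
  induction n generalizing b V with
  | zero =>
    have k : ∀ w, (fun j i => update V (0 + 1) w (if j = 0 then 0 else j + 1) i) =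
        fun j i => V (if j = 0 then 0 else j + 1) i := fun w => by
      funext j i
      rw [update_of_ne (by split_ifs <;> omega)]
    cases b <;> simp only [Q, k] <;> simp
  | succ n ih =>
    have k : ∀ w, (fun j i => update V (n + 1 + 1) w (if j = 0 then 0 else j + 1) i) =
        update (fun j i => V (if j = 0 then 0 else j + 1) i) (n + 1) w := fun w => by
      funext j i
      by_cases c : j = n + 1
      · simp [c]
      · rw [update_of_ne (by split_ifs <;> omega), update_of_ne c]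
    cases b
    · rw [Q, Q]
      simp only [ih, k]
    · rw [Q, Q]
      simp only [ih, k]

omit [Group G] in
theorem Q_and (n : ℕ) (b : Bool) (F F' : (ℕ → ℕ → G) → Prop) (V : ℕ → ℕ → G) :
    Q n b (fun V => (F fun j i => V j (if j = 0 then i else 2 * i)) ∧
      F' fun j i => V j (if j = 0 then i else 2 * i + 1)) V ↔
    Q n b F (fun j i => V j (if j = 0 then i else 2 * i)) ∧
      Q n b F' fun j i => V j (if j = 0 then i else 2 * i + 1) := by
  induction n generalizing b V with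
  | zero => rfl
  | succ n ih =>
    have k : ∀ (g : ℕ → ℕ) (w : ℕ → G), (fun j i => update V (n + 1) w j (if j = 0 then i else g i)) =
        update (fun j i => V j (if j = 0 then i else g i)) (n + 1) fun i => w (g i) := fun g w => by
      funext j i
      by_cases c : j = n + 1 <;> simp [c]
    have s : ∀ u w : ℕ → G, ∃ z : ℕ → G, (fun i => z (2 * i)) = u ∧ (fun i => z (2 * i + 1)) = w :=
      fun u w => ⟨fun i => if i % 2 = 0 then u (i / 2) else w (i / 2), funext fun i => by simp,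
        funext fun i => by simp [Nat.add_mod, Nat.add_div]⟩
    cases b <;> simp only [Q, ih, k (2 * ·), k (2 * · + 1)]
    · refine ⟨fun h => ⟨fun u => ?_, fun u => ?_⟩, fun h w => ⟨h.1 _, h.2 _⟩⟩
      · obtain ⟨z, h1, -⟩ := s u u
        exact h1 ▸ (h z).1
      · obtain ⟨z, -, h1⟩ := s u u
        exact h1 ▸ (h z).2
    · refine ⟨fun ⟨w, h⟩ => ⟨⟨_, h.1⟩, _, h.2⟩, fun ⟨⟨u, h1⟩, w, h2⟩ => ?_⟩
      obtain ⟨z, rfl, rfl⟩ := s u w
      exact ⟨z, h1, h2⟩

/-- defined by a primitive recursive family of prenex formulas -/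
def Df (n : ℕ) (b : Bool) (P : ℕ → (ℕ → G) → Prop) : Prop :=
  ∃ F, QD F ∧ ∀ m V, Q n b (F m) V ↔ P m (V 0)

/-- given by a term -/
def TD (f : (ℕ → G) → G) : Prop := ∃ s : Tm, ∀ V, s.ev V = f (V 0)

theorem TD.var (i : ℕ) : TD (G := G) fun v => v i := ⟨.var 0 i, fun _ => rfl⟩

theorem TD.one : TD (G := G) fun _ => 1 := ⟨.one, fun _ => rfl⟩

theorem TD.inv {f : (ℕ → G) → G} (h : TD f) : TD fun v => (f v)⁻¹ :=
  let ⟨s, h⟩ := h
  ⟨.inv s, fun V => congrArg _ (h V)⟩

theorem TD.mul {f g : (ℕ → G) → G} (h : TD f) (h' : TD g) : TD fun v => f v * g v :=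
  let ⟨s, h⟩ := h
  let ⟨t, h'⟩ := h'
  ⟨.mul s t, fun V => congrArg₂ _ (h V) (h' V)⟩

theorem TD.pow {f : (ℕ → G) → G} (h : TD f) (n : ℕ) : TD fun v => f v ^ n := by
  induction n with
  | zero => simpa using TD.one
  | succ n ih => simpa [pow_succ] using ih.mul h

/-- the commutator -/
def cm (a b : G) : G := a * b * a⁻¹ * b⁻¹

theorem TD.comm {f g : (ℕ → G) → G} (h : TD f) (h' : TD g) : TD fun v => cm (f v) (g v) :=
  ((h.mul h').mul h.inv).mul h'.inv

namespace Df

variable {n : ℕ} {b : Bool} {P P' : ℕ → (ℕ → G) → Prop}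

theorem congr (h : Df n b P) (e : ∀ m v, P m v ↔ P' m v) : Df n b P' := by
  rwa [show P' = P from funext₂ fun m V => propext (e m V).symm]

theorem eq {f g : (ℕ → G) → G} (h : TD f) (h' : TD g) : Df 0 b fun _ v => f v = g v := by
  obtain ⟨s, h⟩ := h
  obtain ⟨t, h'⟩ := h'
  exact ⟨_, .eq s t, fun m V => by simp only [Q, h, h']⟩

theorem commute {f g : (ℕ → G) → G} (h : TD f) (h' : TD g) :
    Df 0 b fun _ v => Commute (f v) (g v) := eq (h.mul h') (h'.mul h)

theorem not (h : Df n (!b) P) : Df n b fun m v => ¬ P m v := by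
  obtain ⟨F, h, e⟩ := h
  exact ⟨_, h.not, fun m V => (Q_not n b _ V).trans (e m V).not⟩

theorem out (h : Df n (!b) P) : Df (n + 1) b P := by
  obtain ⟨F, h, e⟩ := h
  refine ⟨F, h, fun m V => ?_⟩
  cases b <;> simp_all [Q]

theorem pad (h : Df n b P) : Df (n + 1) b P := by
  obtain ⟨F, h, e⟩ := h
  exact ⟨_, h.ren (fun j _ => if j = 0 then 0 else j + 1) (fun _ i => i) fun _ _ => by omega,
    fun m V => (Q_shift n b _ V).trans (e m _)⟩

theorem and (h : Df n b P) (h' : Df n b P') : Df n b fun m v => P m v ∧ P' m v := by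
  obtain ⟨F, h, e⟩ := h
  obtain ⟨F', h', e'⟩ := h'
  exact ⟨_, (h.ren (fun j _ => j) (fun j i => if j = 0 then i else 2 * i)
    fun _ _ => by split_ifs <;> omega).and (h'.ren (fun j _ => j)
      (fun j i => if j = 0 then i else 2 * i + 1) fun _ _ => by split_ifs <;> omega),
    fun m V => (Q_and n b _ _ V).trans (and_congr (e m _) (e' m _))⟩

theorem imp (h : Df n (!b) P) (h' : Df n b P') : Df n b fun m v => P m v → P' m v :=
  (not (b := b) (h.and (not (b := !b) (by simpa using h')))).congr fun _ _ => by tauto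

theorem sub (h : Df n b P) (f : ℕ → (ℕ → G) → G) (hf : ∀ i, TD (f i)) :
    Df n b fun m v => P m fun i => f i v := by
  obtain ⟨F, h, e⟩ := h
  choose s hs using hf
  have k : ∀ V : ℕ → ℕ → G, (fun j i => (if j = 0 then s i else .var j i : Tm).ev V) =
      update V 0 fun i => f i (V 0) := fun V => by
    funext j i
    by_cases c : j = 0 <;> simp [c, hs, Tm.ev]
  refine ⟨_, h.sub (fun j i => if j = 0 then s i else .var j i) fun B =>
    ⟨max B ((Finset.range B).sup fun i => (s i).bd), fun j i hi => ?_⟩, fun m V => ?_⟩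
  · split_ifs
    · exact le_max_of_le_right (Finset.le_sup (f := fun i => (s i).bd) (Finset.mem_range.2 hi))
    · exact le_max_of_le_left hi
  · simp only [k]
    refine (Q_comp (fun V => update V 0 fun i => f i (V 0)) n (fun k _ V w => ?_) b _ V).trans
      ((e m _).trans (by simp))
    rw [update_comm (by omega)]
    simp

theorem ex {R : ℕ → G → (ℕ → G) → Prop}
    (h : Df (n + 1) true fun m v => R m (v 0) fun i => v (i + 1)) :
    Df (n + 1) true fun m v => ∃ x, R m x v := by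
  obtain ⟨F, h, e⟩ := h
  obtain ⟨Θ, hΘ⟩ : ∃ Θ : (ℕ → ℕ → G) → ℕ → ℕ → G, Θ = fun V j i =>
      V (if j = 0 ∧ i = 0 then n + 1 else j) (if j = 0 then i - 1 else if j = n + 1 then i + 1
        else i) := ⟨_, rfl⟩
  have k : ∀ V w, Θ (update V (n + 1) w) = update (update V 0 fun i =>
      if i = 0 then w 0 else V 0 (i - 1)) (n + 1) fun i => w (i + 1) := fun V w => by
    funext j i
    by_cases c : j = 0
    · by_cases c' : i = 0 <;> simp [hΘ, c, c']
    · by_cases c' : j = n + 1 <;> simp [hΘ, c, c']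
  refine ⟨fun m V => F m (Θ V), hΘ ▸ h.ren _ _ fun _ _ => by split_ifs <;> omega, fun m V => ?_⟩
  have e' : ∀ x, (∃ w, Q n false (F m) (update (update V 0 fun i =>
      if i = 0 then x else V 0 (i - 1)) (n + 1) w)) ↔ R m x (V 0) := fun x =>
    (e m _).trans (by simp)
  have c : ∀ k < n, ∀ V w, Θ (update V (k + 1) w) = update (Θ V) (k + 1) w := fun k hk V w => by
    funext j i
    by_cases c : j = k + 1
    · simp [hΘ, c, hk.ne]
    · simp only [hΘ, update_of_ne c]
      rw [update_of_ne (by split_ifs <;> omega)]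
  simp only [Q, Q_comp Θ n c, k, ← e']
  exact ⟨fun ⟨w, h⟩ => ⟨_, _, h⟩, fun ⟨x, w, h⟩ =>
    ⟨fun i => if i = 0 then x else w (i - 1), by simpa using h⟩⟩

theorem all {R : ℕ → G → (ℕ → G) → Prop}
    (h : Df (n + 1) false fun m v => R m (v 0) fun i => v (i + 1)) :
    Df (n + 1) false fun m v => ∀ x, R m x v :=
  (not (b := false) (ex (R := fun m x v => ¬ R m x v) (not (b := true) h))).congr
    fun _ _ => by simp

theorem tt (n : ℕ) (b : Bool) : Df (G := G) n b fun _ _ => True := by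
  induction n with
  | zero => exact (eq TD.one TD.one).congr (by simp)
  | succ n ih => exact ih.pad

theorem fin {ι : Type} [Finite ι] {R : ι → ℕ → (ℕ → G) → Prop} (h : ∀ i, Df n b (R i)) :
    Df n b fun m v => ∀ i, R i m v := by
  have := Fintype.ofFinite ι
  suffices k : ∀ l : List ι, Df n b fun m v => ∀ i ∈ l, R i m v from
    (k Finset.univ.toList).congr (by simp)
  intro l
  induction l with
  | nil => exact (tt n b).congr (by simp)
  | cons i l ih => exact ((h i).and ih).congr (by simp)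

theorem top : Df (G := G) 0 b fun m v => v 0 = v 1 ^ m * v 2 * (v 1 ^ m)⁻¹ :=
  ⟨_, QD.top, fun _ _ => .rfl⟩

theorem seg : Df (G := G) 0 b fun m v => ∃ j < m, v 0 = v 1 ^ j * v 2 * (v 1 ^ j)⁻¹ :=
  ⟨_, QD.seg, fun _ _ => .rfl⟩

end Df

end Pool.Agent.Lib.MP_e9747f_lc
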