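import Mathlib

/-! Fox derivatives and their first consequences for free groups. -/

set_option autoImplicit false

namespace Pool.Agent.Lib.MP_e9747f_lc

open FreeGroup (of lift)
open Finsupp Function

attribute [local instance] comapSMul comapMulAction comapDistribMulAction

variable {ι : Type}

section Coc

variable {H M : Type} [Group H] [AddCommGroup M] [DistribMulAction H M]

/-- crossed homomorphisms -/
def Coc (φ : FreeGroup ι →* H) (D : FreeGroup ι → M) : Prop :=
  ∀ g h, D (g * h) = D g + φ g • D h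

variable {φ : FreeGroup ι →* H} {D D' : FreeGroup ι → M}

theorem Coc.one (h : Coc φ D) : D 1 = 0 := by simpa using h 1 1

theorem Coc.inv (h : Coc φ D) (g : FreeGroup ι) : D g⁻¹ = -((φ g)⁻¹ • D g) := by
  have := h g⁻¹ g
  rw [inv_mul_cancel, h.one, map_inv] at this
  exact eq_neg_of_add_eq_zero_left this.symm

theorem Coc.ext (h : Coc φ D) (h' : Coc φ D') (e : ∀ y, D (of y) = D' (of y)) (g : FreeGroup ι) :
    D g = D' g := by
  induction g using FreeGroup.induction_on with
  | C1 => rw [h.one, h'.one]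
  | of y => exact e y
  | inv_of y ih => rw [h.inv, h'.inv, e y]
  | mul a b ha hb => rw [h, h', ha, hb]

theorem Coc.exists (φ : FreeGroup ι →* H) (m : ι → M) : ∃ D, Coc φ D ∧ ∀ y, D (of y) = m y := by
  obtain ⟨T, hT⟩ : ∃ T : FreeGroup ι →* Equiv.Perm M, ∀ y p, T (of y) p = φ (of y) • p + m y :=
    ⟨lift fun y => (MulAction.toPerm (φ (of y))).trans (Equiv.addRight (m y)), fun y p => by simp⟩
  have k : ∀ g p, T g p = T g 0 + φ g • p := fun g => by
    induction g using FreeGroup.induction_on with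
    | C1 => simp
    | of y => simp [hT, add_comm]
    | inv_of y ih =>
      have : ∀ p, T (of y)⁻¹ p = (φ (of y))⁻¹ • (p - m y) := fun p => by
        rw [map_inv, Equiv.Perm.inv_eq_iff_eq, hT]
        simp
      intro p
      simp only [this, map_inv φ, smul_sub, smul_zero]
      abel
    | mul a b ha hb =>
      intro p
      simp only [map_mul, Equiv.Perm.mul_apply]
      rw [ha, hb p, ha (T b 0), smul_add, mul_smul, add_assoc]
  exact ⟨fun g => T g 0, fun g h => by simp only [map_mul, Equiv.Perm.mul_apply, k g (T h 0)],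
    fun y => by simp [hT]⟩

end Coc

theorem per {X : Type} {π : X → X} (hπ : Injective π) {p : X →₀ ℤ} (h : mapDomain π p = p) :
    ∃ M, 0 < M ∧ ∀ a ∈ p.support, ∀ k, π^[M * k] a = a := by
  classical
  have m : Set.MapsTo π p.support p.support := fun a ha => by
    rw [Finset.mem_coe, ← h, mapDomain_support_of_injective hπ]
    exact Finset.mem_image_of_mem _ ha
  have inj : Injective (m.restrict π _ _) := (Set.MapsTo.restrict_inj m).2 hπ.injOn
  refine ⟨orderOf (Equiv.ofBijective _ (Finite.injective_iff_bijective.1 inj)), orderOf_pos _,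
    fun a ha k => IsPeriodicPt.mul_const ?_ k⟩
  have := congrArg (fun σ : Equiv.Perm (p.support : Set X) => (σ ⟨a, ha⟩).1)
    (pow_orderOf_eq_one (Equiv.ofBijective _ (Finite.injective_iff_bijective.1 inj)))
  simp only [Equiv.Perm.coe_pow, Equiv.Perm.one_apply] at this
  exact (Set.MapsTo.coe_iterate_restrict m ⟨a, ha⟩ _).symm.trans this

theorem per_smul {G X : Type} [Group G] [MulAction G X] {g : G} {p : X →₀ ℤ} (h : g • p = p) :
    ∃ M, 0 < M ∧ ∀ a ∈ p.support, g ^ M • a = a := by
  obtain ⟨M, h0, h1⟩ := per (MulAction.injective g) h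
  exact ⟨M, h0, fun a ha => by simpa [smul_iterate] using h1 a ha 1⟩

theorem zero_of_smul {g : FreeGroup ι} (hg : g ≠ 1) {p : FreeGroup ι →₀ ℤ} (h : g • p = p) :
    p = 0 := by
  obtain ⟨M, h0, h1⟩ := per_smul h
  by_contra c
  obtain ⟨a, ha⟩ := support_nonempty_iff.2 c
  exact hg ((pow_eq_one_iff_left h0.ne').1 (by simpa using h1 a ha))

variable [DecidableEq ι]

/-- the Fox derivative -/
noncomputable def fox (x : ι) : FreeGroup ι → FreeGroup ι →₀ ℤ :=
  (Coc.exists (MonoidHom.id _) fun y => if y = x then single 1 1 else 0).choose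

theorem fox_coc (x : ι) : Coc (MonoidHom.id _) (fox x) :=
  (Coc.exists (MonoidHom.id _) fun y => if y = x then single 1 1 else 0).choose_spec.1

theorem fox_mul (x : ι) (g h : FreeGroup ι) : fox x (g * h) = fox x g + g • fox x h := fox_coc x g h

theorem fox_inv (x : ι) (g : FreeGroup ι) : fox x g⁻¹ = -(g⁻¹ • fox x g) := (fox_coc x).inv g

theorem fox_of (x y : ι) : fox x (of y) = if y = x then single 1 1 else 0 :=
  (Coc.exists (MonoidHom.id _) fun y => if y = x then single 1 1 else 0).choose_spec.2 y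

/-- the free factor on the generators other than `x` -/
def Fr (x : ι) : Subgroup (FreeGroup ι) := Subgroup.closure (of '' {y | y ≠ x})

omit [DecidableEq ι] in
theorem of_mem {x y : ι} (h : y ≠ x) : of y ∈ Fr x := Subgroup.subset_closure ⟨y, h, rfl⟩

theorem fox_zero {x : ι} {g : FreeGroup ι} (h : g ∈ Fr x) : fox x g = 0 := by
  induction h using Subgroup.closure_induction with
  | mem g h => obtain ⟨y, h, rfl⟩ := h; rw [fox_of, if_neg h]
  | one => exact (fox_coc x).one
  | mul a b _ _ ha hb => simp [fox_mul, ha, hb]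
  | inv a _ ha => simp [fox_inv, ha]

/-- the boundary -/
noncomputable def bd (K : Subgroup (FreeGroup ι)) (e : ι) :
    (FreeGroup ι →₀ ℤ) →+ (FreeGroup ι ⧸ K →₀ ℤ) :=
  mapDomain.addMonoidHom (M := ℤ) (fun g => ((g * of e : FreeGroup ι) : FreeGroup ι ⧸ K)) -
    mapDomain.addMonoidHom (M := ℤ) fun g : FreeGroup ι => (g : FreeGroup ι ⧸ K)

omit [DecidableEq ι] in
theorem bd_apply (K : Subgroup (FreeGroup ι)) (e : ι) (p : FreeGroup ι →₀ ℤ) : bd K e p =
    mapDomain (fun g => ((g * of e : FreeGroup ι) : FreeGroup ι ⧸ K)) p -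
      mapDomain (fun g : FreeGroup ι => (g : FreeGroup ι ⧸ K)) p := rfl

omit [DecidableEq ι] in
theorem bd_smul (K : Subgroup (FreeGroup ι)) (e : ι) (g : FreeGroup ι) (p : FreeGroup ι →₀ ℤ) :
    bd K e (g • p) = g • bd K e p := by
  simp only [bd_apply, smul_sub, comapSMul_def, ← mapDomain_comp]
  congr 2
  funext h
  simp [mul_assoc]

theorem bd_sum (K : Subgroup (FreeGroup ι)) (A : Finset ι) (hA : ∀ y ∉ A, of y ∈ K)
    (g : FreeGroup ι) : ∑ e ∈ A, bd K e (fox e g) =
      single (g : FreeGroup ι ⧸ K) 1 - single ((1 : FreeGroup ι) : FreeGroup ι ⧸ K) 1 := by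
  refine Coc.ext (φ := MonoidHom.id _) (D := fun g => ∑ e ∈ A, bd K e (fox e g))
    (D' := fun g => single (g : FreeGroup ι ⧸ K) 1 - single ((1 : FreeGroup ι) : FreeGroup ι ⧸ K) 1)
    (fun g h => ?_) (fun g h => ?_) (fun y => ?_) g
  · simp only [fox_mul, map_add, bd_smul, Finset.sum_add_distrib, Finset.smul_sum,
      MonoidHom.id_apply]
  · simp [smul_sub, comapSMul_single]
  · simp only [fox_of, apply_ite (bd K _), map_zero, Finset.sum_ite_eq]
    split_ifs with c
    · simp [bd_apply]
    · rw [show (of y : FreeGroup ι ⧸ K) = ((1 : FreeGroup ι) : FreeGroup ι ⧸ K) from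
        QuotientGroup.eq.2 (by simpa using hA y c), sub_self]

theorem bd_fox (x : ι) (g : FreeGroup ι) : bd (Fr x) x (fox x g) =
    single (g : FreeGroup ι ⧸ Fr x) 1 - single ((1 : FreeGroup ι) : FreeGroup ι ⧸ Fr x) 1 := by
  simpa using bd_sum (Fr x) {x} (fun y hy => of_mem (by simpa using hy)) g

theorem mem_of_fox {x : ι} {g : FreeGroup ι} (h : fox x g = 0) : g ∈ Fr x := by
  have := bd_fox x g
  rw [h, map_zero, eq_comm, sub_eq_zero, single_left_inj one_ne_zero] at this
  simpa using QuotientGroup.eq.1 this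

theorem malnormal {x : ι} {p g : FreeGroup ι} (h1 : p ≠ 1) (hp : p ∈ Fr x)
    (h : g⁻¹ * p * g ∈ Fr x) : g ∈ Fr x := by
  have := fox_mul x g (g⁻¹ * p * g)
  rw [show g * (g⁻¹ * p * g) = p * g by group, fox_mul, fox_zero hp, fox_zero h] at this
  exact mem_of_fox (zero_of_smul h1 (by simpa using this))

theorem root_mem {x : ι} {p : FreeGroup ι} {k : ℕ} (hk : k ≠ 0) (h : p ^ k ∈ Fr x) : p ∈ Fr x := by
  by_cases c : p = 1
  · exact c ▸ one_mem _
  · exact malnormal (fun e => c ((pow_eq_one_iff_left hk).1 e)) h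
      (by rwa [mul_assoc, ← pow_succ, pow_succ', inv_mul_cancel_left])

/-- the exponent sum -/
def xs (y : ι) (g : FreeGroup ι) : ℤ :=
  (lift (fun e => Multiplicative.ofAdd (if e = y then (1 : ℤ) else 0)) g).toAdd

@[simp] theorem xs_mul (y : ι) (g h : FreeGroup ι) : xs y (g * h) = xs y g + xs y h := by simp [xs]

@[simp] theorem xs_inv (y : ι) (g : FreeGroup ι) : xs y g⁻¹ = -xs y g := by simp [xs]

@[simp] theorem xs_one (y : ι) : xs y 1 = 0 := by simp [xs]

@[simp] theorem xs_of (y e : ι) : xs y (of e) = if e = y then 1 else 0 := by simp [xs]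

@[simp] theorem xs_pow (y : ι) (g : FreeGroup ι) (n : ℕ) : xs y (g ^ n) = n * xs y g := by simp [xs]

@[simp] theorem xs_zpow (y : ι) (g : FreeGroup ι) (n : ℤ) : xs y (g ^ n) = n * xs y g := by
  simp [xs]

theorem xs_zero {x : ι} {g : FreeGroup ι} (h : g ∈ Fr x) : xs x g = 0 := by
  induction h using Subgroup.closure_induction with
  | mem g h => obtain ⟨y, h, rfl⟩ := h; rw [xs_of, if_neg h]
  | one => simp
  | mul a b _ _ ha hb => simp [ha, hb]
  | inv a _ ha => simp [ha]

theorem pow_of_ne_one (y : ι) {N : ℕ} (hN : N ≠ 0) : of y ^ N ≠ 1 := fun h => by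
  simpa [hN] using congrArg (xs y) h

variable [Fintype ι]

theorem comm_of {y : ι} {N : ℕ} (hN : N ≠ 0) {w : FreeGroup ι} (h : w * of y ^ N = of y ^ N * w) :
    ∃ i : ℤ, w = of y ^ i := by
  have := bd_sum (Subgroup.zpowers (of y)) (Finset.univ.erase y)
    (fun e he => by rw [show e = y by simpa using he]; exact Subgroup.mem_zpowers _) w
  rw [Finset.sum_eq_zero fun e he => ?_, eq_comm, sub_eq_zero, single_left_inj one_ne_zero] at this
  · obtain ⟨i, hi⟩ := QuotientGroup.eq.1 this.symm
    exact ⟨i, by simpa using hi.symm⟩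
  · have k := congrArg (fox e) h
    rw [fox_mul, fox_mul, fox_zero (pow_mem (of_mem (Finset.ne_of_mem_erase he).symm) N)] at k
    rw [zero_of_smul (pow_of_ne_one y hN) (p := fox e w) (by simpa using k.symm), map_zero]

theorem comm_two {y y' : ι} (hy : y ≠ y') {N N' : ℕ} (hN : N ≠ 0) (hN' : N' ≠ 0) {w : FreeGroup ι}
    (h : w * of y ^ N = of y ^ N * w) (h' : w * of y' ^ N' = of y' ^ N' * w) : w = 1 := by
  obtain ⟨i, hi⟩ := comm_of hN h
  obtain ⟨j, hj⟩ := comm_of hN' h'
  have := congrArg (xs y) (hi.symm.trans hj)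
  simp [hy.symm] at this
  simp [hi, this]

end Pool.Agent.Lib.MP_e9747f_lc
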