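import Mathlib

/-! Horn systems on a lattice of cells. -/

set_option autoImplicit false

namespace Pool.Agent.Lib.MP_e9747f_lc

/-- a shift vector -/
def sv {d : ℕ} : Option (Fin d) → Fin d → ℤ
  | none => 0
  | some r => Pi.single r 1

/-- a system of Horn rules for labels on the cells of a lattice, with an input -/
structure Sys (L : Type) (d : ℕ) where
  R : Set ((L × Option (Fin (d + 1))) × (L × Option (Fin (d + 1))) × (L × Option (Fin (d + 1))))
  base : Set L
  seg : L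
  top : L
  bot : L

/-- `H` is a model of the system for the input `m` -/
def Sys.Model {L : Type} {d : ℕ} (S : Sys L d) (m : ℕ) (H : L → (Fin (d + 1) → ℤ) → Prop) : Prop :=
  (∀ ρ ∈ S.R, ∀ c, H ρ.1.1 (c + sv ρ.1.2) → H ρ.2.1.1 (c + sv ρ.2.1.2) →
    H ρ.2.2.1 (c + sv ρ.2.2.2)) ∧ (∀ l ∈ S.base, H l 0) ∧
  (∀ j < m, H S.seg (Pi.single 0 (j : ℤ))) ∧ H S.top (Pi.single 0 (m : ℤ)) ∧ ∀ c, ¬ H S.bot c

end Pool.Agent.Lib.MP_e9747f_lc
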