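import Pool.Agent.Lib.MP_e9747f_lc.Form

/-! Translation of raw prenex formulas into bounded formulas, with their Goedel numbers. -/

set_option autoImplicit false
open FirstOrder FirstOrder.Language Encodable Function

namespace Pool.Agent.Lib.MP_e9747f_lc

variable {α : Type}

def Tm.toT {β : Type} (ρ : ℕ → ℕ → β) : Tm → grpLang.Term β
  | .var j i => .var (ρ j i)
  | .one => .func (l := 0) ⟨0, by simp⟩ ![]
  | .inv s => .func (l := 1) ⟨0, by simp⟩ ![s.toT ρ]
  | .mul s t => .func (l := 2) ⟨0, by simp⟩ ![s.toT ρ, t.toT ρ]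

def Fm.toF {d : ℕ} (ρ : ℕ → ℕ → Fin d) : Fm → grpLang.BoundedFormula α d
  | .eq s t => .equal (s.toT fun j i => .inr (ρ j i)) (t.toT fun j i => .inr (ρ j i))
  | .bot => .falsum
  | .imp φ ψ => .imp (φ.toF ρ) (ψ.toF ρ)

theorem qf_toF {d : ℕ} (ρ : ℕ → ℕ → Fin d) (φ : Fm) : (φ.toF (α := α) ρ).IsQF := by
  induction φ with
  | eq s t => exact .of_isAtomic (.equal _ _)
  | bot => exact .falsum
  | imp _ _ ih1 ih2 => exact ih1.imp ih2

/-- a block of quantifiers -/
def blk (b : Bool) {k : ℕ} : (N : ℕ) → grpLang.BoundedFormula α (k + N) → grpLang.BoundedFormula α k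
  | 0, φ => φ
  | N + 1, φ => blk b N (if b then φ.ex else φ.all)

theorem pfx_old {b : Bool} {k n : ℕ} (N : ℕ) (φ : grpLang.BoundedFormula α (k + N))
    (h : Pfx (n + 1) b φ) : Pfx (n + 1) b (blk b N φ) := by
  induction N with
  | zero => exact h
  | succ N ih => cases b; exacts [ih _ h.allOld, ih _ h.exOld]

theorem pfx_new {b : Bool} {k n : ℕ} (N : ℕ) (φ : grpLang.BoundedFormula α (k + (N + 1)))
    (h : Pfx n (!b) φ) : Pfx (n + 1) b (blk b (N + 1) φ) := by
  cases b; exacts [pfx_old N _ h.allNew, pfx_old N _ h.exNew]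

/-- the positions of the variables after a new block -/
def nρ {k : ℕ} (N n : ℕ) (ρ : ℕ → ℕ → Fin k) (j i : ℕ) : Fin (k + N) :=
  if h : j = n ∧ i < N then Fin.natAdd k ⟨i, h.2⟩ else (ρ j i).castAdd N

/-- the prenex formula -/
def PB (N : ℕ) (μ : Fm) : ℕ → Bool → ∀ {k : ℕ}, (ℕ → ℕ → Fin k) → grpLang.BoundedFormula α k
  | 0, _, _, ρ => μ.toF ρ
  | n + 1, b, _, ρ => blk b N (PB N μ n (!b) (nρ N (n + 1) ρ))

theorem pfx_PB (N : ℕ) (μ : Fm) (n : ℕ) (b : Bool) {k : ℕ} (ρ : ℕ → ℕ → Fin k) :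
    Pfx n b (PB (α := α) (N + 1) μ n b ρ) := by
  induction n generalizing b k with
  | zero => exact .qf (qf_toF ρ μ)
  | succ n ih => exact pfx_new N _ (ih _ _)

section Real

variable {G : Type} [Group G]

attribute [local instance] grpStr

theorem real_toT {β : Type} (ρ : ℕ → ℕ → β) (u : β → G) (s : Tm) :
    (s.toT ρ).realize u = s.ev fun j i => u (ρ j i) := by
  induction s with
  | var j i => rfl
  | one => rfl
  | inv s ih => exact congrArg (·⁻¹) ih
  | mul s t ih1 ih2 => exact congrArg₂ (· * ·) ih1 ih2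

theorem real_toF {d : ℕ} (ρ : ℕ → ℕ → Fin d) (u : α → G) (xs : Fin d → G) (φ : Fm) :
    (φ.toF ρ).Realize u xs ↔ φ.ev fun j i => xs (ρ j i) := by
  induction φ with
  | eq s t => simp only [Fm.toF, BoundedFormula.Realize, real_toT, Fm.ev, Sum.elim_inr]
  | bot => rfl
  | imp φ ψ ih1 ih2 => simp only [Fm.toF, BoundedFormula.Realize, ih1, ih2, Fm.ev]

theorem real_blk (b : Bool) {k : ℕ} (N : ℕ) (φ : grpLang.BoundedFormula α (k + N)) (u : α → G)
    (xs : Fin k → G) : (blk b N φ).Realize u xs ↔ if b then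
      ∃ w : Fin N → G, φ.Realize u (Fin.append xs w) else
      ∀ w : Fin N → G, φ.Realize u (Fin.append xs w) := by
  induction N with
  | zero =>
    have : ∀ w : Fin 0 → G, Fin.append xs w = xs := fun w => by
      funext i
      exact Fin.append_left xs w i
    simp [blk, this]
  | succ N ih =>
    rw [blk, ih]
    cases b
    · simp only [Bool.false_eq_true, if_false, BoundedFormula.realize_all, ← Fin.append_snoc]
      exact ⟨fun h w => by simpa using h (Fin.init w) (w (Fin.last N)), fun h w a => h _⟩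
    · simp only [if_true, BoundedFormula.realize_ex, ← Fin.append_snoc]
      exact ⟨fun ⟨w, a, h⟩ => ⟨_, h⟩, fun ⟨w, h⟩ => ⟨Fin.init w, w (Fin.last N), by simpa using h⟩⟩

theorem real_PB {N : ℕ} {μ : Fm} (h : Loc N fun V : ℕ → ℕ → G => μ.ev V) (u : α → G) (n : ℕ)
    (b : Bool) {k : ℕ} (ρ : ℕ → ℕ → Fin k) (xs : Fin k → G) :
    (PB N μ n b ρ).Realize u xs ↔ Q n b (fun V => μ.ev V) fun j i => xs (ρ j i) := by
  induction n generalizing b k with
  | zero => exact real_toF ρ u xs μ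
  | succ n ih =>
    have e : ∀ (b : Bool) (w : ℕ → G), Q n b (fun V => μ.ev V) (fun j i => Fin.append xs
        (fun i : Fin N => w i) (nρ N (n + 1) ρ j i)) ↔
        Q n b (fun V => μ.ev V) (update (fun j i => xs (ρ j i)) (n + 1) w) :=
      fun b w => Q_loc h n b _ _ fun j i hi => by
        by_cases c : j = n + 1
        · simp only [nρ, c, hi, and_self, dif_pos, Fin.append_right, update_self]
        · simp [nρ, c]
    have s : ∀ w : Fin N → G, ∃ w' : ℕ → G, w = fun i : Fin N => w' i := fun w =>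
      ⟨fun i => if h : i < N then w ⟨i, h⟩ else 1, funext fun i => by simp⟩
    rw [PB, real_blk]
    cases b
    · simp only [Bool.false_eq_true, if_false, ih, Q, ← e, Bool.not_false]
      refine ⟨fun h w => h _, fun h w => ?_⟩
      obtain ⟨w, rfl⟩ := s w
      exact h w
    · simp only [if_true, ih, Q, ← e, Bool.not_true]
      refine ⟨fun ⟨w, h⟩ => ?_, fun ⟨w, h⟩ => ⟨_, h⟩⟩
      obtain ⟨w, rfl⟩ := s w
      exact ⟨w, h⟩

end Real

variable [Encodable α]

theorem encode_list_map {β : Type} [Encodable β] (l : List β) :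
    encode l = encode (l.map encode) := by
  induction l with
  | nil => rfl
  | cons a l ih => simp [ih]

theorem code_toT {β : Type} [Encodable β] (ρ : ℕ → ℕ → β) (s : Tm) :
    (s.toT ρ).listEncode.map encode = s.code fun j i => [2 * encode (ρ j i)] := by
  induction s with
  | var j i => rfl
  | one => rfl
  | inv s ih =>
    simp only [Tm.toT, Term.listEncode, Tm.code, ← ih, List.finRange_succ, List.finRange_zero]
    simp
    rfl
  | mul s t ih1 ih2 =>
    simp only [Tm.toT, Term.listEncode, Tm.code, ← ih1, ← ih2, List.finRange_succ,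
      List.finRange_zero]
    simp
    rfl

/-- the list of codes of a formula -/
def cd {d : ℕ} (φ : grpLang.BoundedFormula α d) : List ℕ := φ.listEncode.map encode

theorem cd_imp {d : ℕ} (φ ψ : grpLang.BoundedFormula α d) :
    cd (.imp φ ψ) = 3 :: (cd φ ++ cd ψ) := by
  simp only [cd, BoundedFormula.listEncode, List.map_cons, List.map_append, List.cons_append]
  rfl

theorem cd_all {d : ℕ} (φ : grpLang.BoundedFormula α (d + 1)) : cd (.all φ) = 7 :: cd φ := rfl

theorem cd_toF {d : ℕ} (ρ : ℕ → ℕ → Fin d) (φ : Fm) :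
    cd (φ.toF (α := α) ρ) = φ.code d fun j i => [2 * (2 * (ρ j i).val + 1)] := by
  induction φ with
  | eq s t =>
    have k : ∀ s : Tm, encode (s.toT fun j i => (Sum.inr (ρ j i) : α ⊕ Fin d)) =
        encode (s.code fun j i => [2 * (2 * (ρ j i).val + 1)]) := fun s =>
      (encode_list_map _).trans (congrArg encode (code_toT _ s))
    simp only [Fm.code, ← k]
    rfl
  | bot => rfl
  | imp φ ψ ih1 ih2 => rw [Fm.toF, Fm.code, cd_imp, ih1, ih2]

theorem cd_blk (b : Bool) (k N : ℕ) : ∃ l l' : List ℕ, ∀ φ : grpLang.BoundedFormula α (k + N),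
    cd (blk b N φ) = l ++ cd φ ++ l' := by
  induction N with
  | zero => exact ⟨[], [], fun φ => by simp [blk]⟩
  | succ N ih =>
    obtain ⟨l, l', h⟩ := ih
    cases b
    · exact ⟨l ++ [7], l', fun φ => by simp [blk, h, cd_all]⟩
    · refine ⟨l ++ [3, 7, 3], cd (⊥ : grpLang.BoundedFormula α (k + N + 1)) ++
        cd (⊥ : grpLang.BoundedFormula α (k + N)) ++ l', fun φ => ?_⟩
      simp [blk, h, BoundedFormula.ex, BoundedFormula.not, cd_all, cd_imp]

theorem cd_PB (N n : ℕ) (b : Bool) {k : ℕ} (ρ : ℕ → ℕ → Fin k) : ∃ l l' d ρ', ∀ μ : Fm,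
    cd (PB (α := α) N μ n b ρ) = l ++ μ.code d ρ' ++ l' := by
  induction n generalizing b k with
  | zero => exact ⟨[], [], k, _, fun μ => by simp [PB, cd_toF]; rfl⟩
  | succ n ih =>
    obtain ⟨l, l', d, ρ', h⟩ := ih (!b) (nρ N (n + 1) ρ)
    obtain ⟨r, r', h'⟩ := cd_blk (α := α) b k N
    exact ⟨r ++ l, l' ++ r', d, ρ', fun μ => by simp [PB, h, h']⟩

/-- The existential closures of a primitive recursive family of `Π_n` formulas reduce to the
`Σ_(n+1)` truths. -/
theorem Df.reduce {G : Type} [Group G] {n : ℕ} {P : ℕ → (ℕ → G) → Prop} (h : Df n false P)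
    (u : α → G) : ∃ f : ℕ → ℕ, Computable f ∧ ∀ m, (∃ v, P m v) ↔ SigmaTrue (n + 1) G u (f m) := by
  obtain ⟨F, ⟨μ, h1, ⟨B, h2⟩, h3⟩, e⟩ := h
  obtain ⟨ρ, hρ⟩ : ∃ ρ : ℕ → ℕ → Fin (0 + (B + 1)), ρ = fun _ i =>
    Fin.natAdd 0 ⟨min i B, by omega⟩ := ⟨_, rfl⟩
  obtain ⟨l, l', d, ρ', k1⟩ := cd_PB (α := α) (B + 1) n false ρ
  obtain ⟨r, r', k2⟩ := cd_blk (α := α) true 0 (B + 1)
  have eF : ∀ m, (fun V : ℕ → ℕ → G => (μ m).ev V) = F m := fun m => funext fun V => propext (h3 m V)
  let := grpStr G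
  have k3 : ∀ m, (∃ v, P m v) ↔
      Formula.Realize (blk true (B + 1) (PB (B + 1) (μ m) n false ρ)) u := fun m => by
    have hL : Loc (B + 1) (F m) := fun V V' c => h2 m V V' fun j i hi => c j i (by omega)
    rw [Formula.Realize, real_blk, if_pos rfl]
    simp only [real_PB (eF m ▸ hL), eF, hρ, Fin.append_right]
    refine ⟨fun ⟨v, h⟩ => ⟨fun i => v i, (Q_loc hL n false _ (fun _ => v) fun j i hi => ?_).2
      ((e m _).2 h)⟩, fun ⟨w, h⟩ => ⟨_, (e m _).1 h⟩⟩
    simp [show i ≤ B by omega]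
  refine ⟨fun m => encode (BoundedFormula.listEncode
    (blk (α := α) (k := 0) true (B + 1) (PB (B + 1) (μ m) n false ρ))), ?_, fun m => (k3 m).trans
      ⟨fun h => ⟨_, rfl, pfx_new B _ (pfx_PB B _ _ _ _), h⟩, fun ⟨φ, c, _, h⟩ => ?_⟩⟩
  · refine (Primrec.encode.comp (Primrec.list_append.comp (Primrec.list_append.comp (.const r)
      (Primrec.list_append.comp (Primrec.list_append.comp (.const l) (h1 d ρ')) (.const l')))
        (.const r'))).to_comp.of_eq fun m => ?_
    rw [← k1, ← k2]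
    exact (encode_list_map _).symm
  · have c' := BoundedFormula.listEncode_sigma_injective (a₁ := ⟨0, φ⟩) (a₂ := ⟨0, _⟩)
      (encode_injective c)
    obtain rfl : φ = _ := by simpa using c'
    exact h

end Pool.Agent.Lib.MP_e9747f_lc
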