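import Pool.Agent.Lib.MP_e9747f_lc.Top
import Pool.Agent.Lib.MP_e9747f_lc.Trans
import Pool.Agent.Lib.MP_e9747f_lc.Model

/-! Solutions of Horn systems inside a group. -/

set_option autoImplicit false
set_option linter.unusedSectionVars false

namespace Pool.Agent.Lib.MP_e9747f_lc

variable {G L : Type} [Group G] {d : ℕ}

/-- the shift element -/
def tv (t : Fin (d + 1) → G) (s : Option (Fin (d + 1))) : G := s.elim 1 t

/-- a solution of the system in a group -/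
def Sys.Sol (S : Sys L d) (m : ℕ) (e : G) (t : Fin (d + 1) → G) (a : L → G) : Prop :=
  (∀ r s, Commute (t r) (t s)) ∧
  (∀ ρ ∈ S.R, ∀ y, LL e (a ρ.1.1) (tv t ρ.1.2 * y * (tv t ρ.1.2)⁻¹) →
    LL e (a ρ.2.1.1) (tv t ρ.2.1.2 * y * (tv t ρ.2.1.2)⁻¹) →
    LL e (a ρ.2.2.1) (tv t ρ.2.2.2 * y * (tv t ρ.2.2.2)⁻¹)) ∧
  (∀ l ∈ S.base, LL e (a l) e) ∧
  (∀ w, (∃ j < m, w = t 0 ^ j * e * (t 0 ^ j)⁻¹) → LL e (a S.seg) w) ∧
  (∀ w, w = t 0 ^ m * e * (t 0 ^ m)⁻¹ → LL e (a S.top) w) ∧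
  ∀ z, ¬ LL e (a S.bot) (z * e * z⁻¹)

theorem Df.sub3 {n : ℕ} {b : Bool} {P : ℕ → G → G → G → Prop}
    (h : Df n b fun m v => P m (v 0) (v 1) (v 2)) {f g k : (ℕ → G) → G} (hf : TD f) (hg : TD g)
    (hk : TD k) : Df n b fun m v => P m (f v) (g v) (k v) :=
  h.sub (fun i => if i = 0 then f else if i = 1 then g else k) fun i => by
    split_ifs <;> assumption

theorem df_AD : Df (G := G) 2 false fun _ v => AD (v 0) (v 2) := by
  refine .all (.out (.imp (.pad (.not (.commute (.var 3) (.var 0)))) (.ex (.ex (.pad ?_)))))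
  exact (Df.commute (.var 1) (.var 3)).and ((Df.commute (.var 0) (.var 3)).and
    ((Df.not (.eq ((TD.var 1).comm ((TD.var 0).comm (.var 2))) .one)).and
      (.commute ((TD.var 1).comm ((TD.var 0).comm (.var 2))) (.var 3))))

theorem df_LL {f g k : (ℕ → G) → G} (hf : TD f) (hg : TD g) (hk : TD k) :
    Df 3 false fun _ v => LL (f v) (g v) (k v) := by
  refine Df.sub3 (P := fun _ => LL) (.all (.out (.imp df_AD (.out (.all (.pad ?_)))))) hf hg hk
  exact .commute ((TD.var 4).comm ((TD.var 1).pow 12))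
    (((TD.var 0).mul (.var 2)).mul (TD.var 0).inv)

theorem Df.when {n : ℕ} {b : Bool} {P : ℕ → (ℕ → G) → Prop} (h : Df n b P) (c : Prop) :
    Df n b fun m v => c → P m v := by
  by_cases hc : c
  · exact h.congr (by simp [hc])
  · exact (Df.tt n b).congr (by simp [hc])

theorem df_Sol [Finite L] (S : Sys L d) (ι : L → ℕ) : Df (G := G) 4 false fun m v =>
    S.Sol m (v 0) (fun r => v (2 * r + 1)) fun l => v (2 * ι l + 2) := by
  have tt : ∀ s : Option (Fin (d + 1)), TD fun v : ℕ → G =>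
      tv (fun r => v (2 * r + 1 + 1)) s * v 0 * (tv (fun r => v (2 * r + 1 + 1)) s)⁻¹ := fun s => by
    have : TD fun v : ℕ → G => tv (fun r => v (2 * r + 1 + 1)) s := by
      cases s
      exacts [.one, .var _]
    exact (this.mul (.var 0)).mul this.inv
  refine .and (.fin fun r => .fin fun s => (Df.commute (.var _) (.var _)).pad.pad.pad.pad)
    (.and (.fin fun ρ => .when (.all ?_) _) (.and (.fin fun l =>
      .when (df_LL (.var _) (.var _) (.var _)).pad _) (.and (.all ?_) (.and (.all ?_) (.all ?_)))))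
  · exact .imp (df_LL (.var _) (.var _) (tt _)).out (.imp (df_LL (.var _) (.var _) (tt _)).out
      (df_LL (.var _) (.var _) (tt _)).pad)
  · exact .imp (Df.sub3 (P := fun m a b c => ∃ j < m, a = b ^ j * c * (b ^ j)⁻¹) .seg (.var 0)
      (.var 2) (.var 1)).pad.pad.pad.pad (df_LL (.var _) (.var _) (.var _)).pad
  · exact .imp (Df.sub3 (P := fun m a b c => a = b ^ m * c * (b ^ m)⁻¹) .top (.var 0)
      (.var 2) (.var 1)).pad.pad.pad.pad (df_LL (.var _) (.var _) (.var _)).pad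
  · exact .not (df_LL (.var _) (.var _) (((TD.var 0).mul (.var 1)).mul (TD.var 0).inv)).out

theorem model_of_sol {S : Sys L d} {m : ℕ} {e : G} {t : Fin (d + 1) → G} {a : L → G}
    (h : S.Sol m e t a) : ∃ H, S.Model m H := by
  obtain ⟨h0, h1, h2, h3, h4, h5⟩ := h
  obtain ⟨τ, k1, k2⟩ : ∃ τ : (Fin (d + 1) → ℤ) → G, (∀ c c', τ (c + c') = τ c * τ c') ∧
      ∀ r n, τ (Pi.single r n) = t r ^ n := by
    refine ⟨fun c => MonoidHom.noncommPiCoprod (fun r => zpowersHom G (t r))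
      (fun r s _ x y => (h0 r s).zpow_zpow _ _) fun r => Multiplicative.ofAdd (c r),
      fun c c' => by rw [← map_mul]; rfl, fun r n => ?_⟩
    have : (fun s => Multiplicative.ofAdd ((Pi.single r n : Fin (d + 1) → ℤ) s)) =
        Pi.mulSingle r (Multiplicative.ofAdd n) := by
      funext s
      by_cases c : s = r <;> simp [c]
    simp only [this, MonoidHom.noncommPiCoprod_mulSingle]
    rfl
  have k0 : τ 0 = 1 := by simpa using k2 0 0
  have k3 : ∀ c s, τ (c + sv s) * e * (τ (c + sv s))⁻¹ =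
      tv t s * (τ c * e * (τ c)⁻¹) * (tv t s)⁻¹ := fun c s => by
    cases s
    · simp [sv, tv]
    · simp [add_comm c, k1, k2, sv, tv, mul_assoc]
  refine ⟨fun l c => LL e (a l) (τ c * e * (τ c)⁻¹), fun ρ hρ c => ?_, fun l hl => ?_,
    fun j hj => h3 _ ⟨j, hj, by simp [k2]⟩, h4 _ (by simp [k2]), fun c => h5 _⟩
  · simp only [k3]
    exact h1 ρ hρ _
  · simpa [k0] using h2 l hl

theorem digits_zero {w : ℤ} (n : ℕ) (c : Fin n → ℤ) (h : ∀ r, |c r| < w)
    (e : ∑ r, c r * w ^ r.val = 0) : c = 0 := by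
  induction n with
  | zero => exact Subsingleton.elim _ _
  | succ n ih =>
    have e' : c 0 + w * ∑ r : Fin n, c r.succ * w ^ r.val = 0 := by
      rw [← e, Fin.sum_univ_succ, Finset.mul_sum]
      simp [pow_succ', mul_left_comm]
    have h0 : c 0 = 0 := Int.eq_zero_of_abs_lt_dvd ⟨_, (eq_neg_of_add_eq_zero_left e').trans
      (mul_neg _ _).symm⟩ (h 0)
    rw [h0, zero_add, mul_eq_zero] at e'
    have := ih (fun r => c r.succ) (fun r => h _)
      (e'.resolve_left ((abs_nonneg _).trans_lt (h 0)).ne')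
    funext r
    exact Fin.cases h0 (fun r => congrFun this r) r

variable {X : Type} [TopologicalSpace X] [T2Space X] [MulAction G X]
  [ContinuousConstSMul G X] [FaithfulSMul G X]

theorem exists_lab {t e : G} {K : ℕ}
    (h : ∀ i j : ℤ, |i - j| ≤ K → ∀ x : X, e • t ^ i • x ≠ t ^ i • x → e • t ^ j • x ≠ t ^ j • x →
      i = j) (A : Finset ℤ) (hA : ∀ i ∈ A, ∀ j ∈ A, |i - j| ≤ K) :
    ∃ a : G, ∀ x : X, a • x ≠ x ↔ ∃ i ∈ A, e • t ^ (-i) • x ≠ t ^ (-i) • x := by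
  induction A using Finset.induction_on with
  | empty => exact ⟨1, by simp⟩
  | insert i A hi ih =>
    obtain ⟨a, ha⟩ := ih fun i hi j hj => hA i (by simp [hi]) j (by simp [hj])
    have k : ∀ x : X, (t ^ i * e * t ^ (-i)) • x ≠ x ↔ e • t ^ (-i) • x ≠ t ^ (-i) • x := fun x => by
      simp [mul_smul, smul_eq_iff_eq_inv_smul (t ^ i)]
    have dis : ∀ x : X, a • x ≠ x → (t ^ i * e * t ^ (-i)) • x = x := fun x hx => by_contra fun c => by
      obtain ⟨j, hj, c'⟩ := (ha x).1 hx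
      have := h (-j) (-i) (by rw [neg_sub_neg]; exact hA i (by simp) j (by simp [hj])) x c' ((k x).1 c)
      exact hi (neg_injective this ▸ hj)
    refine ⟨t ^ i * e * t ^ (-i) * a, fun x => ?_⟩
    rw [Finset.exists_mem_insert, ← ha, ← k, mul_smul]
    by_cases c : a • x = x
    · simp only [c, ne_eq, not_true, or_false]
    · rw [dis _ fun c' => c (MulAction.injective a c')]
      simp [c]

theorem sol_of_model {O : Set X} (hO : IsOpen O) (hne : O.Nonempty) (hL : LM G O) {S : Sys L d}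
    {m : ℕ} {H : L → (Fin (d + 1) → ℤ) → Prop} (hH : S.Model m H) {M : ℕ}
    (hM : ∀ l c, H l c → ∀ r, |c r| ≤ M) : ∃ (e : G) (t : _) (a : _), S.Sol m e t a := by
  classical
  obtain ⟨w, hw⟩ : ∃ w : ℤ, w = 2 * M + 3 := ⟨_, rfl⟩
  obtain ⟨φ, hφ⟩ : ∃ φ : (Fin (d + 1) → ℤ) → ℤ, φ = fun c => ∑ r, c r * w ^ r.val := ⟨_, rfl⟩
  have add : ∀ c c', φ (c + c') = φ c + φ c' := fun c c' => by
    simp [hφ, add_mul, Finset.sum_add_distrib]
  have sub : ∀ c c', φ (c - c') = φ c - φ c' := fun c c' => by simp [hφ, sub_mul]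
  have sgl : ∀ r n, φ (Pi.single r n) = n * w ^ r.val := fun r n => by
    simp [hφ, Pi.single_apply]
  obtain ⟨K, hK⟩ : ∃ K : ℕ, ∀ c : Fin (d + 1) → ℤ, (∀ r, |c r| < w) → |φ c| ≤ K :=
    ⟨(∑ r : Fin (d + 1), w * |w ^ r.val|).toNat, fun c hc => by
      rw [hφ]
      refine (Finset.abs_sum_le_sum_abs _ _).trans (le_trans (Finset.sum_le_sum fun r _ => ?_)
        (Int.self_le_toNat _))
      rw [abs_mul]
      exact mul_le_mul_of_nonneg_right (hc r).le (abs_nonneg _)⟩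
  have bd : ∀ l l' c c' (s s' : Option (Fin (d + 1))), H l c → H l' c' → ∀ r,
      |(c - sv s - (c' - sv s')) r| < w := fun l l' c c' s s' h h' r => by
    have k : ∀ s : Option (Fin (d + 1)), 0 ≤ sv s r ∧ sv s r ≤ 1 := fun s => by
      cases s
      · simp [sv]
      · simp only [sv, Pi.single_apply]
        split_ifs <;> simp
    have := abs_le.1 (hM l c h r)
    have := abs_le.1 (hM l' c' h' r)
    have := k s
    have := k s'
    simp only [Pi.sub_apply, abs_lt]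
    omega
  obtain ⟨t, -, x, hx, ht⟩ := long hL hO hne subset_rfl K
  obtain ⟨V, v1, v2, v3, v4⟩ := displace ((List.range K).map fun i => t ^ (i + 1))
    (by simpa using fun i hi => ht (i + 1) i.succ_pos hi) hO hx
  obtain ⟨e, he, x0, hx0⟩ := hL.ex v1 ⟨x, v2⟩ v3
  have hP : LM G (Pe X e) := lm_Pe hL fun y hy => he y fun c => hy (v3 c)
  have tow : ∀ i j : ℤ, |i - j| ≤ K → ∀ x : X, e • t ^ i • x ≠ t ^ i • x →
      e • t ^ j • x ≠ t ^ j • x → i = j := by
    have k : ∀ i j : ℤ, i < j → j - i ≤ K → ∀ x : X, t ^ i • x ∈ V → t ^ j • x ∉ V :=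
      fun i j a b x c => by
        have := v4 _ (List.mem_map.2 ⟨(j - i - 1).toNat, List.mem_range.2 (by omega), rfl⟩) _ c
        rwa [← mul_smul, ← zpow_natCast, ← zpow_add,
          show (((j - i - 1).toNat + 1 : ℕ) : ℤ) + i = j by omega] at this
    intro i j a x b c
    rw [abs_le] at a
    rcases lt_trichotomy i j with h | h | h
    exacts [(k i j h (by omega) x (he.mem b) (he.mem c)).elim, h,
      (k j i h (by omega) x (he.mem c) (he.mem b)).elim]
  have lab : ∀ l, ∃ a : G, ∀ x : X, a • x ≠ x ↔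
      ∃ c, H l c ∧ e • t ^ (-φ c) • x ≠ t ^ (-φ c) • x := fun l => by
    obtain ⟨a, ha⟩ := exists_lab tow ((Finset.Icc (-K : ℤ) K).filter fun i => ∃ c, H l c ∧ φ c = i)
      (by
        simp only [Finset.mem_filter]
        rintro _ ⟨-, c, h, rfl⟩ _ ⟨-, c', h', rfl⟩
        simpa [sv, sub] using hK _ (bd l l c c' none none h h'))
    refine ⟨a, fun x => (ha x).trans ⟨fun ⟨_, h, k⟩ => ?_, fun ⟨c, h, k⟩ => ⟨_, ?_, k⟩⟩⟩
    · obtain ⟨-, c, h', rfl⟩ := Finset.mem_filter.1 h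
      exact ⟨c, h', k⟩
    · refine Finset.mem_filter.2 ⟨Finset.mem_Icc.2 (abs_le.1 (hK c fun r => ?_)), c, h, rfl⟩
      have := hM l c h r
      omega
  choose a ha using lab
  have sp : ∀ l, Sp (a l) (Pe X e) := fun l x hx => by_contra fun c => by
    obtain ⟨c, -, k⟩ := (ha l x).1 c
    exact hx ⟨t ^ φ c, by simpa [mul_smul, smul_eq_iff_eq_inv_smul (t ^ φ c)] using k⟩
  have fact : ∀ l c, H l c → LL e (a l) (t ^ φ c * e * (t ^ φ c)⁻¹) := fun l c h =>
    (ll_iff hP (sp l)).2 fun N _ ⟨p, hp⟩ k => ⟨p, hp, (ha l p).2 ⟨c, h, by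
      simpa [mul_smul, smul_eq_iff_eq_inv_smul (t ^ φ c)] using (k p hp).2⟩⟩
  have etv : ∀ s : Option (Fin (d + 1)), tv (fun r => t ^ w ^ r.val) s = t ^ φ (sv s) := fun s => by
    cases s
    · simp [tv, sv, hφ]
    · simp [tv, sv, sgl]
  have pull : ∀ l (u y : G), LL e (a l) (u * y * u⁻¹) ↔ ∀ N : Set X, IsOpen N → N.Nonempty →
      (∀ p ∈ N, p ∈ Pe X e ∧ y • p ≠ p) → ∃ p ∈ N, a l • u • p ≠ u • p := fun l u y => by
    rw [ll_iff hP (sp l)]
    constructor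
    · rintro h N h1 ⟨p, hp⟩ h3
      obtain ⟨q, hq, k⟩ := h ((u⁻¹ • ·) ⁻¹' N) (h1.preimage (continuous_const_smul _))
        ⟨u • p, by simpa using hp⟩ fun q hq => ⟨by simpa using smul_Pe (h3 _ hq).1 u, by
          simpa [mul_smul, smul_eq_iff_eq_inv_smul u] using (h3 _ hq).2⟩
      exact ⟨_, hq, by simpa using k⟩
    · rintro h N h1 ⟨p, hp⟩ h3
      obtain ⟨q, hq, k⟩ := h ((u • ·) ⁻¹' N) (h1.preimage (continuous_const_smul _))
        ⟨u⁻¹ • p, by simpa using hp⟩ fun q hq => ⟨by simpa using smul_Pe (h3 _ hq).1 u⁻¹, by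
          simpa [mul_smul] using (h3 _ hq).2⟩
      exact ⟨_, hq, k⟩
  obtain ⟨m1, m2, m3, m4, m5⟩ := hH
  refine ⟨e, fun r => t ^ w ^ r.val, a, fun r s => (Commute.refl t).zpow_zpow _ _,
    fun ρ hρ y => ?_, fun l hl => by simpa [hφ] using fact l 0 (m2 l hl), ?_, ?_, fun z h => ?_⟩
  · simp only [etv, pull]
    intro h1 h2 N n1 n2 n3
    obtain ⟨q, hq, k1, k2⟩ : ∃ q ∈ N, a ρ.1.1 • t ^ φ (sv ρ.1.2) • q ≠ t ^ φ (sv ρ.1.2) • q ∧
        a ρ.2.1.1 • t ^ φ (sv ρ.2.1.2) • q ≠ t ^ φ (sv ρ.2.1.2) • q := by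
      obtain ⟨p, hp, k⟩ := h1 N n1 n2 n3
      obtain ⟨q, hq, k'⟩ := h2 (N ∩ (t ^ φ (sv ρ.1.2) • ·) ⁻¹' {x | a ρ.1.1 • x ≠ x})
        (n1.inter ((open_mv _).preimage (continuous_const_smul _))) ⟨p, hp, k⟩ fun q hq => n3 q hq.1
      exact ⟨q, hq.1, hq.2, k'⟩
    obtain ⟨c1, a1, b1⟩ := (ha _ _).1 k1
    obtain ⟨c2, a2, b2⟩ := (ha _ _).1 k2
    rw [← mul_smul (t ^ _), ← zpow_add] at b1 b2
    have hb := bd _ _ c2 c1 ρ.2.1.2 ρ.1.2 a2 a1
    have e1 := tow _ _ (by convert hK _ hb using 2; simp only [sub]; ring) q b1 b2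
    have e2 := sub_eq_zero.1 (digits_zero _ _ hb (by
      change (fun c : Fin (d + 1) → ℤ => ∑ r : Fin (d + 1), c r * w ^ r.val) _ = 0
      rw [← hφ]
      simp only [sub]
      linarith))
    refine ⟨q, hq, (ha _ _).2 ⟨_, m1 ρ hρ (c1 - sv ρ.1.2) (by simpa using a1)
      (by simpa [← e2] using a2), ?_⟩⟩
    rw [← mul_smul (t ^ _), ← zpow_add]
    convert b1 using 3 <;> simp only [add, sub] <;> ring_nf
  · rintro _ ⟨j, hj, rfl⟩
    simpa [sgl] using fact _ _ (m3 j hj)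
  · rintro _ rfl
    simpa [sgl] using fact _ _ m4
  · obtain ⟨p, -, k⟩ := (pull _ z e).1 h {x | e • x ≠ x} (open_mv e) ⟨x0, hx0⟩
      fun p hp => ⟨⟨1, by simpa using hp⟩, hp⟩
    obtain ⟨c, k, -⟩ := (ha _ _).1 k
    exact m5 c k

end Pool.Agent.Lib.MP_e9747f_lc
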