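import Pool.Agent.Lib.MP_e9747f_lc.Dprm

/-! Sets defined by systems of equations in a group, and an interpretation of arithmetic. -/

set_option autoImplicit false

namespace Pool.Agent.Lib.MP_e9747f_lc

variable {G : Type} [Group G] {V V' : Type}

/-- word maps with constants -/
inductive Wd {V : Type} : ((V → G) → G) → Prop
  | const (g : G) : Wd fun _ => g
  | var (i : V) : Wd fun v => v i
  | inv {f} : Wd f → Wd fun v => (f v)⁻¹
  | mul {f g} : Wd f → Wd g → Wd fun v => f v * g v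

theorem Wd.sub {f : (V → G) → G} (h : Wd f) (σ : (V' → G) → V → G)
    (hσ : ∀ i, Wd fun v => σ v i) : Wd fun v => f (σ v) := by
  induction h with
  | const g => exact .const g
  | var i => exact hσ i
  | inv _ ih => exact ih.inv
  | mul _ _ a b => exact a.mul b

theorem Wd.up {f : (V → G) → G} (h : Wd f) : Wd fun v : Option V → G => f fun i => v (some i) :=
  h.sub _ fun _ => .var _

/-- defined by a system of equations -/
def ED (R : (V → G) → Prop) : Prop :=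
  ∃ (β : Type) (_ : Finite β) (L : List ((V ⊕ β → G) → G)), (∀ f ∈ L, Wd f) ∧
    ∀ v, R v ↔ ∃ t : β → G, ∀ f ∈ L, f (Sum.elim v t) = 1

namespace ED

variable {R R' : (V → G) → Prop}

theorem congr (h : ED R) (e : ∀ v, R v ↔ R' v) : ED R' := by
  rwa [show R' = R from funext fun v => propext (e v).symm]

theorem eq {f g : (V → G) → G} (hf : Wd f) (hg : Wd g) : ED fun v => f v = g v :=
  ⟨Empty, inferInstance, [fun v => f (fun i => v (.inl i)) * (g fun i => v (.inl i))⁻¹],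
    by simpa using (hf.sub _ fun _ => .var _).mul (hg.sub _ fun _ => .var _).inv,
    fun v => by simp [mul_inv_eq_one]⟩

theorem commute {f g : (V → G) → G} (hf : Wd f) (hg : Wd g) : ED fun v => Commute (f v) (g v) :=
  eq (hf.mul hg) (hg.mul hf)

theorem and (h : ED R) (h' : ED R') : ED fun v => R v ∧ R' v := by
  obtain ⟨β, _, L, h1, h2⟩ := h
  obtain ⟨β', _, L', h1', h2'⟩ := h'
  have e : ∀ (v : V → G) (t : β ⊕ β' → G), Sum.elim v t ∘ Sum.map id .inl =
    Sum.elim v (t ∘ .inl) := fun v t => by ext (i | i) <;> rfl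
  have e' : ∀ (v : V → G) (t : β ⊕ β' → G), Sum.elim v t ∘ Sum.map id .inr =
    Sum.elim v (t ∘ .inr) := fun v t => by ext (i | i) <;> rfl
  refine ⟨β ⊕ β', inferInstance, L.map (fun f v => f (v ∘ Sum.map id .inl)) ++
    L'.map fun f v => f (v ∘ Sum.map id .inr), ?_, fun v => ?_⟩
  · simp only [List.forall_mem_append, List.forall_mem_map]
    exact ⟨fun f hf => (h1 f hf).sub _ fun _ => .var _, fun f hf => (h1' f hf).sub _ fun _ => .var _⟩
  · simp only [List.forall_mem_append, List.forall_mem_map, h2, h2', e, e']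
    exact ⟨fun ⟨⟨t, a⟩, t', b⟩ => ⟨Sum.elim t t', a, b⟩, fun ⟨t, a, b⟩ => ⟨⟨_, a⟩, _, b⟩⟩

theorem sub (h : ED R) (σ : (V' → G) → V → G) (hσ : ∀ i, Wd fun v => σ v i) :
    ED fun v => R (σ v) := by
  obtain ⟨β, _, L, h1, h2⟩ := h
  refine ⟨β, inferInstance, L.map fun f v => f (Sum.elim (σ (v ∘ .inl)) (v ∘ .inr)), ?_,
    fun v => by simp [h2]⟩
  simp only [List.forall_mem_map]
  refine fun f hf => (h1 f hf).sub _ ?_
  rintro (i | i)
  exacts [(hσ i).sub _ fun _ => .var _, .var _]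

theorem exs {γ : Type} [Finite γ] {R : (V ⊕ γ → G) → Prop} (h : ED R) :
    ED fun v => ∃ t, R (Sum.elim v t) := by
  obtain ⟨β, _, L, h1, h2⟩ := h
  have e : ∀ (v : V → G) (t : γ ⊕ β → G), Sum.elim v t ∘ Equiv.sumAssoc V γ β =
    Sum.elim (Sum.elim v (t ∘ .inl)) (t ∘ .inr) := fun v t => by ext ((i | i) | i) <;> rfl
  refine ⟨γ ⊕ β, inferInstance, L.map fun f v => f (v ∘ Equiv.sumAssoc V γ β), ?_, fun v => ?_⟩
  · simp only [List.forall_mem_map]
    exact fun f hf => (h1 f hf).sub _ fun _ => .var _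
  · simp only [List.forall_mem_map, h2, e]
    exact ⟨fun ⟨t, t', a⟩ => ⟨Sum.elim t t', a⟩, fun ⟨t, a⟩ => ⟨_, _, a⟩⟩

theorem ex {R : G → (V → G) → Prop} (h : ED fun v : Option V → G => R (v none) fun i => v (some i)) :
    ED fun v => ∃ g, R g v :=
  (exs (γ := Unit) (h.sub (fun v i => v (i.elim (.inr ()) .inl)) fun _ => .var _)).congr fun _ =>
    ⟨fun ⟨_, h⟩ => ⟨_, h⟩, fun ⟨g, h⟩ => ⟨fun _ => g, h⟩⟩

theorem fin {ι : Type} [Finite ι] {R : ι → (V → G) → Prop} (h : ∀ i, ED (R i)) :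
    ED fun v => ∀ i, R i v := by
  have := Fintype.ofFinite ι
  suffices k : ∀ l : List ι, ED fun v => ∀ i ∈ l, R i v from
    (k Finset.univ.toList).congr (by simp)
  intro l
  induction l with
  | nil => exact (eq (.const 1) (.const 1)).congr (by simp)
  | cons i l ih => exact ((h i).and ih).congr (by simp)

end ED

/-- a ternary relation defined by a system of equations -/
def E3 (P : G → G → G → Prop) : Prop :=
  ∀ {V : Type} {f g h : (V → G) → G}, Wd f → Wd g → Wd h → ED fun v => P (f v) (g v) (h v)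

theorem dvd_of_pow {N : ℕ} (hN : N ≠ 0) {i k : ℤ} (h : i ^ N * N = k * N ^ N) : (N : ℤ) ∣ i := by
  have e : ((i : ℚ) / N) ^ N = Rat.divInt k N := by
    have : (i : ℚ) ^ N * N = k * N ^ N := by exact_mod_cast h
    rw [Rat.divInt_eq_div, div_pow, div_eq_div_iff (by positivity) (by positivity)]
    simpa using this
  have d := Rat.den_dvd k N
  rw [← e, Rat.den_pow, Int.natCast_dvd_natCast] at d
  have d1 : ((i : ℚ) / N).den = 1 := by
    by_contra c
    have := Nat.pow_le_pow_left (show 2 ≤ ((i : ℚ) / N).den from by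
      have := ((i : ℚ) / N).den_pos
      omega) N
    have := Nat.le_of_dvd (by omega) d
    have := Nat.lt_two_pow_self (n := N)
    omega
  exact (Rat.den_div_intCast_eq_one_iff i N (by positivity)).1 (by simpa using d1)

section

variable {O : Type} [Group O] {ψ : G →* O} {s : G}

/-- From a product relation with fractional values to one with integral values. -/
theorem integral {σ : O} {N : ℕ} (hN : N ≠ 0) (hs : ψ s = σ ^ N) {P : G → G → G → Prop} (h : E3 P)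
    (h1 : ∀ m n : ℤ, P (s ^ m) (s ^ n) (s ^ (m * n)))
    (h2 : ∀ A B C, P A B C → (∃ k : ℤ, ψ C = σ ^ k) ∧
      ∀ i j k : ℤ, ψ A = σ ^ i → ψ B = σ ^ j → ψ C = σ ^ k → i * j = N * k) :
    ∃ Z : G → Prop, (∀ {V : Type} {f : (V → G) → G}, Wd f → ED fun v => Z (f v)) ∧
      (∀ m : ℤ, Z (s ^ m)) ∧ ∀ A, Z A → ∃ m : ℤ, ψ A = ψ s ^ m := by
  have k : ∀ j : ℕ, ∃ Q : G → G → Prop,
      (∀ {V : Type} {f g : (V → G) → G}, Wd f → Wd g → ED fun v => Q (f v) (g v)) ∧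
      (∀ m : ℤ, Q (s ^ m) (s ^ m ^ j)) ∧ ∀ A B, Q A B → ∀ i : ℤ, ψ A = σ ^ i →
        ∃ k : ℤ, ψ B = σ ^ k ∧ i ^ j * N = k * N ^ j := fun j => by
    induction j with
    | zero => exact ⟨fun _ B => B = s, fun _ hg => .eq hg (.const s), by simp,
        fun A B e i _ => ⟨N, by simp [e, hs], by simp⟩⟩
    | succ j ih =>
      obtain ⟨Q, a1, a2, a3⟩ := ih
      refine ⟨fun A B => ∃ C, Q A C ∧ P A C B, fun hf hg => .ex ((a1 hf.up (.var _)).and
        (h hf.up (.var _) hg.up)), fun m => ⟨_, a2 m, pow_succ' m j ▸ h1 m _⟩, ?_⟩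
      rintro A B ⟨C, b1, b2⟩ i hi
      obtain ⟨k, c1, c2⟩ := a3 A C b1 i hi
      obtain ⟨⟨l, c3⟩, c4⟩ := h2 A C B b2
      exact ⟨l, c3, by linear_combination i * c2 + N ^ j * c4 i k l hi c1 c3⟩
  obtain ⟨Q, a1, a2, a3⟩ := k N
  refine ⟨fun A => P s A A ∧ ∃ B, Q A B, fun hf => (h (.const s) hf hf).and
    (.ex (a1 hf.up (.var _))), fun m => ⟨by simpa using h1 1 m, _, a2 m⟩, ?_⟩
  rintro A ⟨b1, B, b2⟩
  obtain ⟨i, hi⟩ := (h2 _ _ _ b1).1
  obtain ⟨k, -, c⟩ := a3 A B b2 i hi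
  obtain ⟨m, rfl⟩ := dvd_of_pow hN c
  exact ⟨m, by rw [hi, hs, zpow_mul, zpow_natCast]⟩

theorem poly_ed {M : G → G → G → Prop} (h : E3 M) (h1 : ∀ m n : ℤ, M (s ^ m) (s ^ n) (s ^ (m * n)))
    (h2 : ∀ A B C, M A B C → ∀ i j : ℤ, ψ A = ψ s ^ i → ψ B = ψ s ^ j → ψ C = ψ s ^ (i * j))
    {γ : Type} (p : Poly γ) : ∃ R : G → (γ → G) → Prop,
      (ED fun v : Option γ → G => R (v none) fun i => v (some i)) ∧
      (∀ n : γ → ℕ, R (s ^ p n) fun i => s ^ n i) ∧
      ∀ k v, R k v → ∀ n : γ → ℕ, (∀ i, ψ (v i) = ψ s ^ n i) → ψ k = ψ s ^ p n := by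
  have up : ∀ {R : G → (γ → G) → Prop},
      (ED fun v : Option γ → G => R (v none) fun i => v (some i)) → ∀ o,
      ED fun v : Option (Option (Option γ)) → G => R (v o) fun i => v (some (some (some i))) :=
    fun h o => h.sub (fun v i => v (i.elim o fun i => some (some (some i)))) fun _ => .var _
  refine Poly.induction (C := fun p => ∃ R : G → (γ → G) → Prop,
      (ED fun v : Option γ → G => R (v none) fun i => v (some i)) ∧
      (∀ n : γ → ℕ, R (s ^ p n) fun i => s ^ n i) ∧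
      ∀ k v, R k v → ∀ n : γ → ℕ, (∀ i, ψ (v i) = ψ s ^ n i) → ψ k = ψ s ^ p n)
    (fun i => ⟨fun k v => k = v i, .eq (.var _) (.var _), by simp, fun k v e n hn => by simp [e, hn]⟩)
    (fun c => ⟨fun k _ => k = s ^ c, .eq (.var _) (.const _), by simp, fun k v e n _ => by simp [e]⟩)
    ?_ ?_ p
  · rintro f g ⟨R, a1, a2, a3⟩ ⟨R', b1, b2, b3⟩
    refine ⟨fun k v => ∃ A B, R A v ∧ R' B v ∧ k = A * B⁻¹, .ex (.ex ((up a1 _).and ((up b1 _).and
      (.eq (.var _) (.mul (.var _) (.inv (.var _))))))),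
      fun n => ⟨_, _, a2 n, b2 n, by simp [zpow_sub]⟩, ?_⟩
    rintro k v ⟨A, B, c1, c2, rfl⟩ n hn
    simp [a3 A v c1 n hn, b3 B v c2 n hn, zpow_sub]
  · rintro f g ⟨R, a1, a2, a3⟩ ⟨R', b1, b2, b3⟩
    refine ⟨fun k v => ∃ A B, R A v ∧ R' B v ∧ M A B k, .ex (.ex ((up a1 _).and ((up b1 _).and
      (h (.var _) (.var _) (.var _))))), fun n => ⟨_, _, a2 n, b2 n, h1 _ _⟩, ?_⟩
    rintro k v ⟨A, B, c1, c2, c3⟩ n hn
    exact h2 A B k c3 _ _ (a3 A v c1 n hn) (b3 B v c2 n hn)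

/-- A product relation on the powers of an element gives an undecidable definable set. -/
theorem interp {σ : O} (hσ : ∀ i j : ℤ, σ ^ i = σ ^ j → i = j) {N : ℕ} (hN : N ≠ 0)
    (hs : ψ s = σ ^ N) {P : G → G → G → Prop} (h : E3 P)
    (h1 : ∀ m n : ℤ, P (s ^ m) (s ^ n) (s ^ (m * n)))
    (h2 : ∀ A B C, P A B C → (∃ k : ℤ, ψ C = σ ^ k) ∧
      ∀ i j k : ℤ, ψ A = σ ^ i → ψ B = σ ^ j → ψ C = σ ^ k → i * j = N * k) :
    ∃ R : G → Prop, (ED fun v : Unit → G => R (v ())) ∧ ¬ ComputablePred fun m : ℕ => R (s ^ m) := by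
  classical
  obtain ⟨Z, z1, z2, z3⟩ := integral hN hs h h1 h2
  have e : ∀ i : ℤ, ψ s ^ i = σ ^ (N * i) := fun i => by rw [hs, zpow_mul, zpow_natCast]
  have m : ∀ A B C, P A B C → ∀ i j : ℤ, ψ A = ψ s ^ i → ψ B = ψ s ^ j → ψ C = ψ s ^ (i * j) := by
    intro A B C c i j hi hj
    obtain ⟨⟨k, hk⟩, c⟩ := h2 A B C c
    rw [hk, e, mul_left_cancel₀ (a := (N : ℤ)) (by positivity)
      ((c _ _ k (hi.trans (e i)) (hj.trans (e j)) hk).symm.trans (c := N * (N * (i * j))) (by ring))]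
  obtain ⟨Sq, q1, q2, q3⟩ : ∃ Sq : G → Prop,
      (∀ {V : Type} {f : (V → G) → G}, Wd f → ED fun v => Sq (f v)) ∧
      (∀ m : ℕ, Sq (s ^ m ^ 2)) ∧ ∀ A, Sq A → ∃ m : ℕ, ψ A = ψ s ^ m := by
    refine ⟨fun A => ∃ B, Z B ∧ P B B A, fun hf => .ex ((z1 (.var _)).and
      (h (.var _) (.var _) hf.up)), fun m => ⟨_, z2 m, ?_⟩, ?_⟩
    · have := h1 m m
      rwa [← Nat.cast_mul, ← sq, zpow_natCast s (m ^ 2)] at this
    · rintro A ⟨B, b1, b2⟩
      obtain ⟨i, hi⟩ := z3 B b1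
      exact ⟨i.natAbs * i.natAbs, by
        rw [m _ _ _ b2 i i hi hi, ← zpow_natCast, Int.natAbs_mul_self]⟩
  obtain ⟨Nn, n1, n2, n3⟩ : ∃ Nn : G → Prop,
      (∀ {V : Type} {f : (V → G) → G}, Wd f → ED fun v => Nn (f v)) ∧
      (∀ m : ℕ, Nn (s ^ m)) ∧ ∀ A, Nn A → ∃ m : ℕ, ψ A = ψ s ^ m := by
    refine ⟨fun A => ∃ t : Fin 4 → G, (∀ i, Sq (t i)) ∧ A = t 0 * t 1 * t 2 * t 3,
      fun {V f} hf => .exs (R := fun v : V ⊕ Fin 4 → G => (∀ i, Sq (v (.inr i))) ∧
        f (v ∘ .inl) = v (.inr 0) * v (.inr 1) * v (.inr 2) * v (.inr 3))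
        ((ED.fin fun i => q1 (.var _)).and (.eq (hf.sub _ fun _ => .var _)
          (.mul (.mul (.mul (.var _) (.var _)) (.var _)) (.var _)))), fun m => ?_, ?_⟩
    · obtain ⟨a, b, c, d, rfl⟩ := Nat.sum_four_squares m
      exact ⟨fun i => s ^ ![a, b, c, d] i ^ 2, fun i => q2 _, by simp [pow_add]⟩
    · rintro A ⟨t, a, rfl⟩
      choose n hn using fun i => q3 _ (a i)
      exact ⟨n 0 + n 1 + n 2 + n 3, by simp [hn, pow_add]⟩
  obtain ⟨K, k1, β, p, k2⟩ := exists_dioph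
  obtain ⟨l, hl⟩ := poly_supp p
  obtain ⟨r, hr⟩ : ∃ r : β → Option {b // Sum.inr b ∈ l}, ∀ b h, r b = some ⟨b, h⟩ :=
    ⟨fun b => if h : _ then some ⟨b, h⟩ else none, fun b h => dif_pos h⟩
  have : Finite {b // Sum.inr b ∈ l} :=
    ((List.finite_toSet l).preimage Sum.inr_injective.injOn).to_subtype
  obtain ⟨R, r1, r2, r3⟩ := poly_ed h h1 m (p.map (Sum.map id r))
  have e2 : ∀ (m : ℕ) (t : Option {b // Sum.inr b ∈ l} → ℕ), p.map (Sum.map id r)
      (Sum.elim (fun _ => m) t) = p (Sum.elim (fun _ => m) (t ∘ r)) := fun m t => by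
    rw [Poly.map_apply]
    congr 1
    ext (i | i) <;> rfl
  refine ⟨fun g => ∃ t, (∀ i, Nn (t i)) ∧ R 1 (Sum.elim (fun _ => g) t),
    ED.congr (.exs (R := fun v => (∀ i, Nn (v (.inr i))) ∧ R 1 v) ((ED.fin fun i => n1 (.var _)).and
      (r1.sub (fun v i => i.elim 1 v) ?_))) fun v => .rfl, fun c => k1 (c.of_eq fun m => ?_)⟩
  · rintro (_ | i)
    exacts [.const 1, .var i]
  · refine Iff.trans ?_ (k2 fun _ => m).symm
    constructor
    · rintro ⟨t, a, b⟩
      choose n hn using fun i => n3 _ (a i)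
      have := r3 _ _ b (Sum.elim (fun _ => m) n) (by rintro (i | i) <;> simp [hn])
      rw [e2, map_one, e, ← zpow_zero σ] at this
      exact ⟨_, (mul_eq_zero.1 (hσ _ _ this).symm).resolve_left (by positivity)⟩
    · rintro ⟨t, a⟩
      have := r2 (Sum.elim (fun _ => m) fun o => o.elim 0 fun b => t b.1)
      rw [e2, Int.modEq_zero_iff.1 (hl 0 _ (Sum.elim (fun _ => m) t) ?_), a, zpow_zero] at this
      · refine ⟨fun o => s ^ o.elim 0 fun b => t b.1, fun i => n2 _, ?_⟩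
        convert this using 1
        ext (i | i) <;> rfl
      · rintro (i | i) hi
        · rfl
        · simp [hr i hi]

end

end Pool.Agent.Lib.MP_e9747f_lc
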