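import Pool.Agent.Lib.MP_e9747f_lc.Crit

/-! Groups of increasing homeomorphisms with abelian germ groups, and groups with commuting
conjugate subgroups, satisfy the criterion. -/

set_option autoImplicit false
set_option linter.unusedSectionVars false
open Filter Topology Set

namespace Pool.Agent.Lib.MP_e9747f_lc

variable {G X : Type} [Group G]

theorem crit_of_conj (h : ∀ k : ℕ, ∃ H : Subgroup G, (∃ f ∈ H, ∃ g ∈ H, ¬ Commute f g) ∧
    (∀ z : G, z ∈ Subgroup.normalizer H ∨ ∀ f ∈ H, ∀ g ∈ H, Commute f (z * g * z⁻¹)) ∧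
    ∃ s : G, ∀ i, 0 < i → i ≤ k → s ^ i ∉ Subgroup.normalizer H) : Crit G := fun k => by
  obtain ⟨H, ⟨f, hf, g, hg, c⟩, h1, s, h2⟩ := h k
  refine ⟨f, g, 1, s, c, Commute.one_right _, fun z _ hz i i0 hi => ?_⟩
  have k1 : z * g * z⁻¹ ∈ H := (Subgroup.mem_normalizer_iff.1
    ((h1 z).resolve_right fun e => hz (e f hf g hg)) g).1 hg
  refine (((h1 (s ^ i)).resolve_left fun e => ?_) _ k1 f hf).symm
  refine h2 i.natAbs (by omega) (by rw [abs_le] at hi; omega) ?_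
  rcases Int.natAbs_eq i with c | c
  · rwa [c, zpow_natCast] at e
  · rw [c, zpow_neg, zpow_natCast] at e
    exact inv_mem_iff.1 e

variable [CompleteLinearOrder X] [TopologicalSpace X] [OrderTopology X] [MulAction G X]
  [FaithfulSMul G X]

section

variable (mo : ∀ g : G, Monotone fun x : X => g • x)
include mo

/-- the order automorphism given by a group element -/
def oi (g : G) : X ≃o X :=
  (MulAction.toPerm g).toOrderIso (mo g) (mo g⁻¹)

theorem slt (g : G) {x y : X} : g • x < g • y ↔ x < y := (oi mo g).lt_iff_lt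

theorem ccs : ContinuousConstSMul G X := ⟨fun g => (oi mo g).continuous⟩

theorem push (H : Subgroup G) {u v : X} (h : ∀ p, u ≤ p → p ≤ v → ∃ g ∈ H, g • p ≠ p) :
    ∃ g ∈ H, v < g • u := by
  by_contra! c
  obtain ⟨g, hg, e⟩ := h (⨆ g : H, g.1 • u) (le_iSup_of_le 1 (by simp)) (iSup_le fun g => c _ g.2)
  refine e (((oi mo g).map_iSup _).trans ?_)
  exact (Equiv.mulLeft (⟨g, hg⟩ : H)).iSup_congr fun k => mul_smul _ _ _

theorem push_all (n : ℕ) : ∀ l : List (X × X), l.length = n →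
    (∀ I ∈ l, ∀ p, I.1 ≤ p → p ≤ I.2 → ∃ g : G, g • p ≠ p) →
    ∃ t : G, ∀ I ∈ l, I.2 < t • I.1 ∨ t • I.2 < I.1 := by
  induction n with
  | zero => exact fun l h _ => ⟨1, by simp [List.length_eq_zero_iff.1 h]⟩
  | succ n ih =>
    rintro (_ | ⟨J, l⟩) h1 h2
    · simp
    obtain ⟨h, -, hh⟩ := push mo ⊤ (u := J.1) (v := J.2) (by simpa using h2 J (by simp))
    obtain ⟨t, ht⟩ := ih (l.map fun I => (min I.1 (h • I.1), max I.2 (h • I.2))) (by simpa using h1)
      (List.forall_mem_map.2 fun I hI p a b => by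
        by_contra! c
        have k := mt (fun e : I.1 ≤ p ∧ p ≤ I.2 => h2 I (by simp [hI]) p e.1 e.2) (by simpa using c)
        rcases not_and_or.1 k with k | k
        · exact a.not_gt (lt_min (not_le.1 k) (c h ▸ (slt mo h).2 (not_le.1 k)))
        · exact b.not_gt (max_lt (not_le.1 k) (c h ▸ (slt mo h).2 (not_le.1 k))))
    obtain ⟨t, h3, ht⟩ : ∃ t : G, h • J.1 ≤ t • h • J.1 ∧ ∀ I ∈ l,
        max I.2 (h • I.2) < t • min I.1 (h • I.1) ∨ t • max I.2 (h • I.2) < min I.1 (h • I.1) := by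
      rw [List.forall_mem_map] at ht
      rcases le_total (h • J.1) (t • h • J.1) with c | c
      · exact ⟨t, c, ht⟩
      · refine ⟨t⁻¹, by simpa using mo t⁻¹ c, fun I hI => (ht I hI).symm.imp (fun e => ?_) fun e => ?_⟩
        · simpa using (slt mo t⁻¹).2 e
        · simpa using (slt mo t⁻¹).2 e
    refine ⟨t * h, List.forall_mem_cons.2 ⟨.inl (hh.trans_le (by rwa [mul_smul])), fun I hI =>
      (ht I hI).imp (fun e => ?_) fun e => ?_⟩⟩ <;> rw [mul_smul]
    · exact ((le_max_left _ _).trans_lt e).trans_le (mo t (min_le_right _ _))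
    · exact ((mo t (le_max_right _ _)).trans_lt e).trans_le (min_le_left _ _)

end

/-- trivial near the points fixed by `H` -/
def Tn (X : Type) [TopologicalSpace X] [MulAction G X] (H : Subgroup G) : Subgroup G where
  carrier := {f | ∀ p : X, (∀ g ∈ H, g • p = p) → ∀ᶠ x in 𝓝 p, f • x = x}
  mul_mem' a b p hp := by
    filter_upwards [a p hp, b p hp] with x h1 h2
    rw [mul_smul, h2, h1]
  one_mem' p _ := by simp
  inv_mem' a p hp := (a p hp).mono fun x h => inv_smul_eq_iff.2 h.symm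

variable (mo : ∀ g : G, Monotone fun x : X => g • x)
include mo

theorem cover (H : Subgroup G) {f g : G} (hf : f ∈ Tn X H) (hg : g ∈ Tn X H) :
    ∃ l : Finset (X × X), (∀ I ∈ l, ∀ p, I.1 ≤ p → p ≤ I.2 → ∃ h ∈ H, h • p ≠ p) ∧
      ∀ x : X, f • x ≠ x ∨ g • x ≠ x → ∃ I ∈ l, I.1 ≤ x ∧ x ≤ I.2 := by
  classical
  have := ccs mo
  have k : ∀ x : X, ∃ s : Finset (X × X),
      (∀ I ∈ s, ∀ p, I.1 ≤ p → p ≤ I.2 → ∃ h ∈ H, h • p ≠ p) ∧
      ∀ᶠ y in 𝓝 x, f • y ≠ y ∨ g • y ≠ y → ∃ I ∈ s, I.1 ≤ y ∧ y ≤ I.2 := fun x => by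
    by_cases c : ∀ h ∈ H, h • x = x
    · refine ⟨∅, by simp, ?_⟩
      filter_upwards [hf x c, hg x c] with y h1 h2
      simp [h1, h2]
    · push Not at c
      obtain ⟨h, h1, h2⟩ := c
      obtain ⟨a, b, -, h3, h4⟩ := exists_Icc_mem_subset_of_mem_nhds ((open_mv h).mem_nhds h2)
      exact ⟨{(a, b)}, by simpa using fun p a b => ⟨h, h1, h4 ⟨a, b⟩⟩,
        mem_of_superset h3 fun y hy _ => by simpa using hy⟩
  choose s h1 h2 using k
  obtain ⟨t, -, ht⟩ := isCompact_univ.elim_nhds_subcover _ fun x _ => h2 x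
  refine ⟨t.biUnion s, fun I hI => ?_, fun x hx => ?_⟩
  · obtain ⟨y, -, e⟩ := Finset.mem_biUnion.1 hI
    exact h1 y I e
  · obtain ⟨y, hy, e⟩ := mem_iUnion₂.1 (ht (mem_univ x))
    obtain ⟨I, a, b⟩ := e hx
    exact ⟨I, Finset.mem_biUnion.2 ⟨y, hy, a⟩, b⟩

/-- in the same orbital of `t` -/
def Rr (t : G) (x y : X) : Prop := ∀ p : X, t • p = p → p < x ∧ p < y ∨ x < p ∧ y < p

omit mo in
theorem Rr.symm {t : G} {x y : X} (h : Rr t x y) : Rr t y x := fun p hp => by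
  have := h p hp
  tauto

omit mo in
theorem Rr.trans {t : G} {x y z : X} (h : Rr t x y) (h' : Rr t y z) : Rr t x z := fun p hp => by
  rcases h p hp with a | a <;> rcases h' p hp with b | b
  exacts [.inl ⟨a.1, b.2⟩, absurd a.2 b.1.not_gt, absurd a.2 b.1.not_gt, .inr ⟨a.1, b.2⟩]

theorem Rr.smul {t z : G} {x y : X} (h : Rr t x y) (hz : Commute z t) : Rr t (z • x) (z • y) :=
  fun p hp => by
    have := h (z⁻¹ • p) (by rw [← mul_smul, ← hz.inv_left.eq, mul_smul, hp])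
    simpa only [← slt mo z (x := z⁻¹ • p), ← slt mo z (y := z⁻¹ • p), smul_inv_smul] using this

theorem Rr.fix {t h : G} {x y : X} (r : Rr t x y) (hh : ∀ p : X, t • p = p → h • p = p) :
    Rr t x (h • x) := fun p hp =>
  (r p hp).imp (fun a => ⟨a.1, hh p hp ▸ (slt mo h).2 a.1⟩) fun a => ⟨a.1, hh p hp ▸ (slt mo h).2 a.1⟩

omit mo in
theorem fix_iff {t : G} {p : X} : (∀ g ∈ Subgroup.zpowers t, g • p = p) ↔ t • p = p :=
  ⟨fun h => h t (Subgroup.mem_zpowers t), fun h _ ⟨n, e⟩ =>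
    e ▸ (MulAction.stabilizer G p).zpow_mem h n⟩

theorem bound {t f g : G} (hf : f ∈ Tn X (.zpowers t)) (hg : g ∈ Tn X (.zpowers t)) :
    ∃ N : ℕ, ∀ x y : X, f • x ≠ x ∨ g • x ≠ x → f • y ≠ y ∨ g • y ≠ y → Rr t x y →
      ∃ n : ℤ, |n| ≤ N ∧ y < t ^ n • x := by
  obtain ⟨l, h1, h2⟩ := cover mo _ hf hg
  have k : ∀ I J : X × X, ∃ n : ℤ, (∀ p, I.1 ≤ p → p ≤ J.2 → t • p ≠ p) → J.2 < t ^ n • I.1 :=
    fun I J => by
      by_cases c : ∀ p, I.1 ≤ p → p ≤ J.2 → t • p ≠ p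
      · obtain ⟨_, ⟨n, rfl⟩, e⟩ := push mo (.zpowers t) fun p a b =>
          ⟨t, Subgroup.mem_zpowers t, c p a b⟩
        exact ⟨n, fun _ => e⟩
      · exact ⟨0, fun e => absurd e c⟩
  choose n hn using k
  refine ⟨(l ×ˢ l).sup fun I => (n I.1 I.2).natAbs, fun x y hx hy r => ?_⟩
  obtain ⟨I, a1, a2, a3⟩ := h2 x hx
  obtain ⟨J, b1, b2, b3⟩ := h2 y hy
  refine ⟨n I J, ?_, (b3.trans_lt (hn I J fun p c1 c2 e => ?_)).trans_le (mo _ a2)⟩
  · rw [Int.abs_eq_natAbs, Nat.cast_le]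
    exact Finset.le_sup (f := fun I : (X × X) × X × X => (n I.1 I.2).natAbs) (b := (I, J))
      (Finset.mem_product.2 ⟨a1, b1⟩)
  · rcases r p e with c | c
    · obtain ⟨h, d1, d2⟩ := h1 I a1 p c1 (c.1.le.trans a3)
      exact d2 (fix_iff.2 e h d1)
    · obtain ⟨h, d1, d2⟩ := h1 J b1 p (b2.trans c.2.le) c2
      exact d2 (fix_iff.2 e h d1)

theorem conj_Tn {t g z : G} (hg : g ∈ Tn X (.zpowers t)) (hz : Commute z t) :
    z * g * z⁻¹ ∈ Tn X (.zpowers t) := fun p hp => by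
  have := ccs mo
  have h := hg (z⁻¹ • p) (fix_iff.2 (by rw [← mul_smul, ← hz.inv_left.eq, mul_smul, fix_iff.1 hp]))
  filter_upwards [(continuous_const_smul z⁻¹).continuousAt.eventually h] with x hx
  simp [mul_smul, hx]

variable (ge : ∀ (p : X) (f g : G), f • p = p → g • p = p → ∀ᶠ x in 𝓝 p, f • g • x = g • f • x)
include ge

omit mo in
theorem cm_near {p : X} {f g : G} (hf : f • p = p) (hg : g • p = p) :
    ∀ᶠ x in 𝓝 p, cm f g • x = x :=
  (ge p f⁻¹ g⁻¹ (inv_smul_eq_iff.2 hf.symm) (inv_smul_eq_iff.2 hg.symm)).mono fun x h => by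
    simp [cm, mul_smul, h]

theorem not_central {f g : G} (h : ¬ Commute f g) :
    ¬ Commute (cm f g) f ∨ ¬ Commute (cm f g) g := by
  by_contra! c
  have k : ∀ u, Commute (cm f g) u → u • sInf {x : X | cm f g • x ≠ x} =
      sInf {x : X | cm f g • x ≠ x} := fun u hu => by
    refine ((oi mo u).map_sInf_eq_sInf_symm_preimage _).trans (congrArg _ (Set.ext fun x => ?_))
    change cm f g • u⁻¹ • x ≠ u⁻¹ • x ↔ _
    rw [← mul_smul, hu.inv_right.eq, mul_smul]
    exact (MulAction.injective u⁻¹).ne_iff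
  have := ccs mo
  have ne : {x : X | cm f g • x ≠ x}.Nonempty := ex_mv fun e => h (by
    rwa [cm, mul_inv_eq_one, mul_inv_eq_iff_eq_mul] at e)
  obtain ⟨x, h1, h2⟩ := mem_closure_iff_nhds.1 (sInf_mem_closure ne) _
    (cm_near ge (k f c.1) (k g c.2))
  exact h2 h1

omit ge in
theorem crit_step (hs : ∀ f g : G, ¬ Commute f g → ¬ Commute (cm f g) f ∨ ¬ Commute (cm f g) g)
    (t : G) (l : Finset X) : ∀ f g : G, f ∈ Tn X (.zpowers t) →
    g ∈ Tn X (.zpowers t) → ¬ Commute f g → (∀ x : X, f • x ≠ x → ∃ y ∈ l, Rr t x y) → Crit G := by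
  classical
  have := ccs mo
  induction l using Finset.strongInduction with | H l ih =>
  intro f g hf hg hfg hl
  obtain ⟨N, hN⟩ := bound mo hf hg
  by_cases c : ∀ z, Commute z t → ¬ Commute f (z * g * z⁻¹) → ∀ i : ℤ, i ≠ 0 →
      Commute ((t ^ (2 * N + 1 : ℤ)) ^ i * f * ((t ^ (2 * N + 1 : ℤ)) ^ i)⁻¹) (z * g * z⁻¹)
  · exact fun k => ⟨f, g, t, _, hfg, (Commute.refl t).zpow_left _, fun z a b i d _ => c z a b i d⟩
  push Not at c
  obtain ⟨z, hz, c1, i, i0, c2⟩ := c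
  rw [← zpow_mul] at c2
  obtain ⟨M, hM⟩ : ∃ M : ℤ, M = (2 * N + 1) * i := ⟨_, rfl⟩
  have hM' : 2 * N < M ∨ M < -(2 * N) := by
    rcases lt_or_gt_of_ne i0 with h | h
    · right; nlinarith
    · left; nlinarith
  rw [← hM] at c2
  obtain ⟨x, x1, x2⟩ : ∃ x : X, f • x ≠ x ∧ g • z⁻¹ • t ^ M • x ≠ z⁻¹ • t ^ M • x := by
    by_contra! e
    refine c2 (comm_of (X := X) fun p => ?_)
    by_cases k : f • (t ^ M)⁻¹ • p = (t ^ M)⁻¹ • p
    · exact .inl (by simp [mul_smul, k])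
    · exact .inr (by simpa [mul_smul, smul_eq_iff_eq_inv_smul z] using e _ k)
  obtain ⟨y0, y1, y2⟩ := hl x x1
  have tn : ∀ h ∈ Tn X (.zpowers t), ∀ p : X, t • p = p → h • p = p := fun h hh p hp =>
    (hh p (fix_iff.2 hp)).self_of_nhds
  have g1 := conj_Tn mo hg hz
  have dis : ∀ p : X, Rr t p x → f • p = p ∨ (z * g * z⁻¹) • p = p := fun p r => by
    by_contra! e
    have e2 : g • z⁻¹ • p ≠ z⁻¹ • p := fun k => e.2 (by simp [mul_smul, k])
    have r2 : Rr t (z⁻¹ • p) (z⁻¹ • t ^ M • x) := (r.trans (y2.fix mo fun q hq =>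
      fix_iff.2 hq _ ⟨M, rfl⟩)).smul mo hz.inv_left
    have cz : ∀ (n : ℤ) (q : X), t ^ n • z⁻¹ • q = z⁻¹ • t ^ n • q := fun n q => by
      rw [← mul_smul, ← (hz.inv_left.zpow_right n).eq, mul_smul]
    obtain ⟨n1, a1, b1⟩ := hN _ _ (.inr e2) (.inr x2) r2
    obtain ⟨n2, a2, b2⟩ := hN _ _ (.inl x1) (.inl e.1) r.symm
    obtain ⟨n3, a3, b3⟩ := hN _ _ (.inr x2) (.inr e2) r2.symm
    obtain ⟨n4, a4, b4⟩ := hN _ _ (.inl e.1) (.inl x1) r
    rw [cz, slt mo] at b1 b3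
    have d1 : t ^ M • x < t ^ (n1 + n2) • x := by
      rw [zpow_add, mul_smul]
      exact b1.trans ((slt mo _).2 b2)
    have d2 : t ^ (0 : ℤ) • x < t ^ (n4 + n3 + M) • x := by
      rw [zpow_add, zpow_add, mul_smul, mul_smul, zpow_zero, one_smul]
      exact b4.trans ((slt mo _).2 b3)
    rw [abs_le] at a1 a2 a3 a4
    rcases lt_trichotomy x (t • x) with k | k | k
    · have m : StrictMono fun n : ℤ => t ^ n • x := strictMono_int_of_lt_succ fun n => by
        rw [zpow_add_one, mul_smul]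
        exact (slt mo _).2 k
      have := m.lt_iff_lt.1 d1
      have := m.lt_iff_lt.1 d2
      omega
    · exact x1 (tn f hf x k.symm)
    · have m : StrictAnti fun n : ℤ => t ^ n • x := strictAnti_int_of_succ_lt fun n => by
        rw [zpow_add_one, mul_smul]
        exact (slt mo _).2 k
      have := m.lt_iff_gt.1 d1
      have := m.lt_iff_gt.1 d2
      omega
  have cT : cm f (z * g * z⁻¹) ∈ Tn X (.zpowers t) :=
    mul_mem (mul_mem (mul_mem hf g1) (inv_mem hf)) (inv_mem g1)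
  have rep : ∀ p : X, cm f (z * g * z⁻¹) • p ≠ p → ∃ y ∈ l.erase y0, Rr t p y := fun p hp => by
    generalize z * g * z⁻¹ = u at *
    obtain ⟨y, k1, k2⟩ : ∃ y ∈ l, Rr t p y := by
      by_cases k : f • p = p
      · obtain ⟨y, k1, k2⟩ := hl (u⁻¹ • p) fun e => hp (by
          simp [cm, mul_smul, inv_smul_eq_iff.2 e.symm, k])
        exact ⟨y, k1, by simpa using (k2.fix mo (tn u g1)).symm.trans k2⟩
      · exact hl p k
    refine ⟨y, Finset.mem_erase.2 ⟨fun e => hp ?_, k1⟩, k2⟩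
    have r : Rr t p x := k2.trans (e ▸ y2.symm)
    have iv : ∀ h ∈ Tn X (.zpowers t), ∀ q, Rr t q x → Rr t (h • q) x := fun h hh q r =>
      (r.fix mo (tn h hh)).symm.trans r
    have r' := iv _ (inv_mem hf) _ (iv _ (inv_mem g1) _ r)
    simp only [cm, mul_smul]
    rw [comm_at (dis _ r') (dis _ (iv _ hf _ r')) (dis _ (iv _ g1 _ r'))]
    simp
  rcases hs _ _ c1 with k | k
  exacts [ih _ (Finset.erase_ssubset y1) _ _ cT hf k rep, ih _ (Finset.erase_ssubset y1) _ _ cT g1 k rep]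

omit ge in
theorem crit_of_pair (hs : ∀ f g : G, ¬ Commute f g → ¬ Commute (cm f g) f ∨ ¬ Commute (cm f g) g)
    {f g : G} (hf : f ∈ Tn X ⊤) (hg : g ∈ Tn X ⊤) (c : ¬ Commute f g) : Crit G := by
  classical
  obtain ⟨l, h1, h2⟩ := cover mo ⊤ hf hg
  obtain ⟨t, ht⟩ := push_all mo _ l.toList rfl (by simpa using h1)
  have nf : ∀ I ∈ l, ∀ p : X, t • p = p → p < I.1 ∨ I.2 < p := fun I hI p hp => by
    by_contra! e
    rcases ht I (by simpa using hI) with a | a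
    · exact (a.trans_le (hp ▸ mo t e.1)).not_ge e.2
    · exact ((hp ▸ mo t e.2 : p ≤ t • I.2).trans_lt a).not_ge e.1
  have tn : ∀ u : G, (∀ x : X, u • x ≠ x → ∃ I ∈ l, I.1 ≤ x ∧ x ≤ I.2) → u ∈ Tn X (.zpowers t) :=
    fun u hu p hp => by
      have : ∀ I ∈ l, ∀ᶠ x in 𝓝 p, x < I.1 ∨ I.2 < x := fun I hI =>
        (nf I hI p (fix_iff.1 hp)).elim (fun a => (eventually_lt_nhds a).mono fun _ => .inl)
          fun a => (eventually_gt_nhds a).mono fun _ => .inr
      filter_upwards [(eventually_all_finset l).2 this] with x hx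
      by_contra e
      obtain ⟨I, a, b, c⟩ := hu x e
      exact (hx I a).elim b.not_gt c.not_gt
  refine crit_step mo hs t (l.image Prod.fst) f g (tn f fun x e => h2 x (.inl e))
    (tn g fun x e => h2 x (.inr e)) c fun x e => ?_
  obtain ⟨I, a, b, c⟩ := h2 x (.inl e)
  exact ⟨_, Finset.mem_image_of_mem _ a, fun p hp => (nf I a p hp).imp
    (fun k => ⟨k.trans_le b, k⟩) fun k => ⟨c.trans_lt k, (b.trans c).trans_lt k⟩⟩

theorem crit_of_germs (h : derivedSeries G 2 ≠ ⊥) : Crit G := by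
  obtain ⟨f, hf, g, hg, c⟩ : ∃ f ∈ commutator G, ∃ g ∈ commutator G, ¬ Commute f g := by
    by_contra! c
    exact h (Subgroup.commutator_eq_bot_iff_le_centralizer.2 fun f hf g hg => (c f hf g hg).symm)
  have k : commutator G ≤ Tn X ⊤ := Subgroup.commutator_le.2 fun a _ b _ p hp =>
    cm_near ge (hp a trivial) (hp b trivial)
  exact crit_of_pair mo (fun _ _ => not_central mo ge) (k hf) (k hg) c

end Pool.Agent.Lib.MP_e9747f_lc
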