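import Pool.Agent.Lib.MP_e9747f_lc.Model
import Pool.Agent.Lib.MP_fa1639_al.While

/-! A Horn system simulating a counter machine: having a bounded model and having no model are
recursively inseparable. -/

set_option autoImplicit false

namespace Pool.Agent.Lib.MP_e9747f_lc

namespace Mach

open MP_fa1639_al Prog Function Nat.Partrec

/-- states -/
abbrev St (P : Prog) := {k // k ∈ [] :: subs P []}

/-- labels -/
abbrev Lb (P : Prog) (d : ℕ) := Bool ⊕ (Fin (d + 1) × Bool) ⊕ St P

instance (P : Prog) : Finite (St P) := (List.finite_toSet ([] :: subs P [])).to_subtype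

variable {P : Prog} {d : ℕ}

/-- the rules -/
inductive Rl : Lb P d × Option (Fin (d + 1)) → Lb P d × Option (Fin (d + 1)) →
    Lb P d × Option (Fin (d + 1)) → Prop
  | r1 (r) : Rl (.inl true, some r) (.inr (.inl (r, false)), some r) (.inl true, none)
  | r2 (r) : Rl (.inl true, none) (.inl true, some r) (.inr (.inl (r, false)), some r)
  | r3 (r s b) : s ≠ r → Rl (.inl true, some r) (.inr (.inl (s, b)), none)
      (.inr (.inl (s, b)), some r)
  | m1 (k) : Rl (.inr (.inr k), none) (.inr (.inr k), none) (.inl true, none)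
  | m0 (k k' : St P) (r : Fin (d + 1)) (b o o') : r.val = reg k.1 → k'.1 = nx k.1 b →
      sv o' = sv o + Pi.single r ((dl 0 k.1 b : ℤ) - 1) →
      Rl (.inr (.inr k), o) (.inr (.inl (r, b)), o) (.inr (.inr k'), o')
  | bot (k : St P) (r : Fin (d + 1)) : k.1 = [] → r.val = 3 →
      Rl (.inr (.inr k), none) (.inr (.inl (r, false)), none) (.inl false, none)

/-- the system -/
def sys (P : Prog) (d : ℕ) : Sys (Lb P d) d where
  R := {ρ | Rl ρ.1 ρ.2.1 ρ.2.2}
  base := {l | l = .inl true ∨ ∃ s, l = .inr (.inl (s, true))}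
  seg := .inl true
  top := .inr (.inr ⟨[P], List.mem_cons_of_mem _ (mem_subs _ _)⟩)
  bot := .inl false

/-- the cell of a content of the registers -/
def cell (d : ℕ) (p : ℕ → ℕ) : Fin (d + 1) → ℤ := fun r => p r

/-- the run -/
def conf (P : Prog) (m T : ℕ) : List Prog × (ℕ → ℕ) := (sstep 0)^[T] ([P], update 0 0 m)

theorem conf_succ (m T : ℕ) : conf P m (T + 1) = sstep 0 (conf P m T) := iterate_succ_apply' _ _ _

theorem dl_cases (k : List Prog) (b : Bool) :
    dl 0 k b = 1 ∨ dl 0 k b = 2 ∨ (dl 0 k b = 0 ∧ b = false) := by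
  rcases k with _ | ⟨_ | _ | _ | _ | _, k⟩ <;> cases b <;> simp [dl]

theorem nx_mem (k : St P) (b : Bool) : nx k.1 b ∈ [] :: subs P [] := by
  rcases List.mem_cons.1 k.2 with h | h
  · simp [h, nx]
  · exact List.mem_cons.2 (nx_subs P [] b _ h).symm

theorem reg_le (k : St P) : reg k.1 ≤ mx P := by
  rcases List.mem_cons.1 k.2 with h | h
  · simp [h, reg]
  · exact reg_subs P [] _ h

theorem conf_mem (m T : ℕ) : (conf P m T).1 ∈ [] :: subs P [] := by
  induction T with
  | zero => exact List.mem_cons_of_mem _ (mem_subs _ _)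
  | succ T ih => rw [conf_succ]; exact nx_mem ⟨_, ih⟩ _

theorem cell_step (s : List Prog × (ℕ → ℕ)) {r : Fin (d + 1)} (h : r.val = reg s.1) :
    cell d (sstep 0 s).2 =
      cell d s.2 + Pi.single r ((dl 0 s.1 (decide (s.2 (reg s.1) = 0)) : ℤ) - 1) := by
  funext i
  by_cases e : i = r
  · subst e
    have := dl_cases s.1 (decide (s.2 (reg s.1) = 0))
    simp only [cell, sstep, h, update_self, Pi.add_apply, Pi.single_eq_same,
      decide_eq_false_iff_not] at this ⊢
    omega
  · have : i.val ≠ reg s.1 := fun e' => e (Fin.ext (e'.trans h.symm))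
    simp [cell, sstep, this, e]

theorem cell_zero (m : ℕ) : cell d (conf P m 0).2 = Pi.single 0 (m : ℤ) := by
  funext i
  by_cases e : i = 0
  · simp [cell, conf, e]
  · have : i.val ≠ 0 := fun e' => e (Fin.ext e')
    simp [cell, conf, this, e]

theorem conf_le (m T r : ℕ) : (conf P m T).2 r ≤ m + T := by
  induction T with
  | zero => by_cases e : r = 0 <;> simp [conf, e]
  | succ T ih =>
    rw [conf_succ]
    have := dl_cases (conf P m T).1 (decide ((conf P m T).2 (reg (conf P m T).1) = 0))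
    by_cases e : r = reg (conf P m T).1
    · subst e
      simp only [sstep, update_self]
      omega
    · simp only [sstep, update_of_ne e]
      omega

theorem conf_halt {m T T' : ℕ} (h : (conf P m T).1 = []) (h' : T ≤ T') :
    conf P m T' = conf P m T := by
  rw [conf, show T' = (T' - T) + T by omega, iterate_add_apply]
  exact halted_iter h _

theorem bounded {m : ℕ} {p : ℕ → ℕ} (h : Exec 0 P (update 0 0 m) p) (h3 : p 3 = 0) :
    ∃ (H : Lb P d → (Fin (d + 1) → ℤ) → Prop) (M : ℕ), (sys P d).Model m H ∧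
      ∀ l c, H l c → ∀ r, |c r| ≤ M := by
  obtain ⟨T0, hT : conf P m T0 = _⟩ := exec_steps h []
  have h0 : (conf P m T0).1 = [] := by rw [hT]
  let B : (Fin (d + 1) → ℤ) → Prop := fun c => ∀ r, 0 ≤ c r ∧ c r ≤ (m + T0 : ℕ)
  have hB : ∀ T, B (cell d (conf P m T).2) := fun T r => ⟨Int.natCast_nonneg _, by
    rcases le_total T T0 with e | e
    · have := conf_le (P := P) m T r
      simp only [cell]
      omega
    · rw [conf_halt h0 e]
      exact Int.ofNat_le.2 (conf_le m T0 r)⟩
  let H : Lb P d → (Fin (d + 1) → ℤ) → Prop := fun l c => match l with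
    | .inl b => b = true ∧ B c
    | .inr (.inl s) => B c ∧ s.2 = decide (c s.1 = 0)
    | .inr (.inr k) => ∃ T, (conf P m T).1 = k.1 ∧ cell d (conf P m T).2 = c
  refine ⟨H, m + T0, ⟨?_, ?_, fun j hj => ⟨rfl, fun r => ?_⟩, ⟨0, rfl, cell_zero m⟩,
    fun c h => Bool.noConfusion h.1⟩, fun l c h r => ?_⟩
  · rintro ⟨a1, a2, a3⟩ (hρ : Rl a1 a2 a3) c h1 h2
    cases hρ with
    | r1 r =>
      refine ⟨rfl, fun i => ?_⟩
      have e1 := h1.2 i
      have e2 := h2.2
      by_cases e : i = r
      · subst e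
        simp [sv] at e1 e2 ⊢
        omega
      · simpa [sv, e] using e1
    | r2 r =>
      refine ⟨h2.2, ?_⟩
      have e1 := h1.2 r
      simp [sv] at e1 ⊢
      omega
    | r3 r s b e => exact ⟨h1.2, by simpa [sv, e] using h2.2⟩
    | m1 k =>
      obtain ⟨T, -, e⟩ := h1
      exact ⟨rfl, e ▸ hB T⟩
    | m0 k k' r b o o' e1 e2 e3 =>
      obtain ⟨T, e4, e5⟩ := h1
      have e6 : b = decide ((conf P m T).2 (reg (conf P m T).1) = 0) := by
        have := h2.2
        simp only at this e5
        rw [this, ← e5, e4, ← e1]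
        simp [cell]
      refine ⟨T + 1, ?_, ?_⟩
      · rw [conf_succ, e2, e6, ← e4]
        rfl
      · rw [conf_succ, cell_step _ (e1.trans (by rw [e4])), e5, ← e6, e4, e3, add_assoc]
    | bot k r e1 e2 =>
      obtain ⟨T, e4, e5⟩ := h1
      have e6 := h2.2
      have e7 : conf P m T = ([], p) := by
        rw [← hT, ← conf_halt (e4.trans e1) (le_max_left T T0), conf_halt h0 (le_max_right T T0)]
      simp only at e5 e6
      rw [← e5, e7] at e6
      simp [cell, e2, h3] at e6
  · have : B 0 := fun r => ⟨le_rfl, Int.natCast_nonneg _⟩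
    rintro _ (rfl | ⟨s, rfl⟩)
    exacts [⟨rfl, this⟩, ⟨this, by simp⟩]
  · by_cases e : r = 0
    · subst e
      simp
      omega
    · simp [e]
      omega
  · have : B c := by
      rcases l with b | s | k
      · exact h.2
      · exact h.1
      · obtain ⟨T, -, e⟩ := h
        exact e ▸ hB T
    rw [abs_of_nonneg (this r).1]
    exact (this r).2

section
variable {m : ℕ} {H : Lb P d → (Fin (d + 1) → ℤ) → Prop} (hH : (sys P d).Model m H)
include hH

theorem rule {a1 a2 a3 : Lb P d × Option (Fin (d + 1))} (h : Rl a1 a2 a3) (c : Fin (d + 1) → ℤ)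
    (h1 : H a1.1 (c + sv a1.2)) (h2 : H a2.1 (c + sv a2.2)) : H a3.1 (c + sv a3.2) :=
  hH.1 (a1, a2, a3) h c h1 h2

theorem up {q : Fin (d + 1) → ℤ} {r : Fin (d + 1)} (h0 : 0 ≤ q r) (h1 : H (.inl true) q)
    (h2 : H (.inl true) (q + Pi.single r 1)) (s : Fin (d + 1))
    (h3 : H (.inr (.inl (s, decide (q s = 0)))) q) :
    H (.inr (.inl (s, decide ((q + Pi.single r 1 : Fin (d + 1) → ℤ) s = 0))))
      (q + Pi.single r 1) := by
  by_cases e : s = r
  · subst e
    rw [decide_eq_false (by simp; omega)]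
    exact rule hH (.r2 s) q (by simpa [sv] using h1) h2
  · have := rule hH (.r3 r s (decide (q s = 0)) e) q h2 (by simpa [sv] using h3)
    simpa [sv, e] using this

theorem pat {p : Fin (d + 1) → ℤ} (hp : ∀ q, 0 ≤ q → q ≤ p → H (.inl true) q) (n : ℕ) :
    ∀ q : Fin (d + 1) → ℤ, ∑ i, q i = n → 0 ≤ q → q ≤ p → ∀ s, H (.inr (.inl (s, decide (q s = 0)))) q := by
  induction n with
  | zero =>
    intro q e h0 _ s
    obtain rfl : q = 0 := funext fun i =>
      (Finset.sum_eq_zero_iff_of_nonneg fun i _ => h0 i).1 e i (Finset.mem_univ _)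
    simpa using hH.2.1 _ (Or.inr ⟨s, rfl⟩)
  | succ n ih =>
    intro q e h0 h1 s
    obtain ⟨r, hr⟩ : ∃ r, 0 < q r := by
      by_contra hn
      push Not at hn
      have := Finset.sum_nonpos (s := Finset.univ) fun i _ => hn i
      omega
    obtain ⟨q, rfl⟩ : ∃ q', q = q' + Pi.single r 1 := ⟨q - Pi.single r 1, by simp⟩
    have a0 : 0 ≤ q := fun i => by
      have := h0 i
      by_cases e : i = r
      · subst e
        simp at hr ⊢
        omega
      · simpa [e] using this
    have a1 : q ≤ p := le_trans (le_add_of_nonneg_right (by simp [Pi.single_nonneg])) h1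
    refine up hH (a0 r) (hp q a0 a1) (hp _ h0 h1) s (ih q ?_ a0 a1 s)
    simp [Finset.sum_add_distrib] at e
    omega

theorem pat' {p : Fin (d + 1) → ℤ} (hp : ∀ q, 0 ≤ q → q ≤ p → H (.inl true) q)
    {q : Fin (d + 1) → ℤ} (h0 : 0 ≤ q) (h1 : q ≤ p) (s : Fin (d + 1)) :
    H (.inr (.inl (s, decide (q s = 0)))) q :=
  pat hH hp (∑ i, q i).toNat q (Int.toNat_of_nonneg (Finset.sum_nonneg fun i _ => h0 i)).symm h0 h1 s

theorem box {p : Fin (d + 1) → ℤ} (hp : ∀ q, 0 ≤ q → q ≤ p → H (.inl true) q) {r : Fin (d + 1)}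
    (h : H (.inl true) (p + Pi.single r 1)) (n : ℕ) :
    ∀ q : Fin (d + 1) → ℤ, ∑ i, (p i - q i) = n → 0 ≤ q → q ≤ p → H (.inl true) (q + Pi.single r 1) := by
  induction n with
  | zero =>
    intro q e _ h1
    obtain rfl : p = q := funext fun i => sub_eq_zero.1
      ((Finset.sum_eq_zero_iff_of_nonneg fun i _ => sub_nonneg.2 (h1 i)).1 e i (Finset.mem_univ _))
    exact h
  | succ n ih =>
    intro q e h0 h1
    obtain ⟨s, hs⟩ : ∃ s, q s < p s := by
      by_contra hn
      push Not at hn
      have := Finset.sum_nonpos (s := Finset.univ) fun i _ => sub_nonpos.2 (hn i)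
      omega
    have a0 : 0 ≤ q + Pi.single s 1 := add_nonneg h0 (by simp [Pi.single_nonneg])
    have a1 : q + Pi.single s 1 ≤ p := fun i => by
      by_cases e : i = s
      · subst e
        simpa using hs
      · simpa [e] using h1 i
    have a2 := ih _ (by
      simp [Finset.sum_add_distrib] at e ⊢
      omega) a0 a1
    have a3 := up hH (a0 r) (hp _ a0 a1) a2 s (pat' hH hp a0 a1 s)
    rw [decide_eq_false (by
      have := h0 s
      by_cases e : s = r
      · subst e
        simp at this ⊢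
        omega
      · simp [e] at this ⊢
        omega), add_right_comm] at a3
    rw [add_right_comm] at a2
    simpa [sv] using rule hH (.r1 s) _ a2 a3

theorem inv (hd : mx P ≤ d) (T : ℕ) :
    H (.inr (.inr ⟨_, conf_mem m T⟩)) (cell d (conf P m T).2) ∧
      ∀ q, 0 ≤ q → q ≤ cell d (conf P m T).2 → H (.inl true) q := by
  have m1 : ∀ k c, H (.inr (.inr k)) c → H (.inl true) c := fun k c h => by
    simpa [sv] using rule hH (.m1 k) c (by simpa [sv] using h) (by simpa [sv] using h)
  induction T with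
  | zero =>
    rw [cell_zero]
    refine ⟨hH.2.2.2.1, fun q h0 h1 => ?_⟩
    obtain ⟨j, hj⟩ := Int.eq_ofNat_of_zero_le (h0 0)
    obtain rfl : q = Pi.single 0 (j : ℤ) := funext fun i => by
      by_cases e : i = 0
      · simp [e, hj]
      · simpa [e] using le_antisymm (h1 i) (by simpa [e] using h0 i)
    have : j ≤ m := by simpa using h1 0
    rcases this.eq_or_lt with rfl | h
    exacts [m1 _ _ hH.2.2.2.1, hH.2.2.1 j h]
  | succ T ih =>
    obtain ⟨i1, i2⟩ := ih
    let k : St P := ⟨_, conf_mem m T⟩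
    let r : Fin (d + 1) := ⟨reg k.1, Nat.lt_succ_of_le ((reg_le k).trans hd)⟩
    have c0 : 0 ≤ cell d (conf P m T).2 := fun i => Int.natCast_nonneg _
    have e1 := cell_step (conf P m T) (r := r) rfl
    have e2 := pat' hH i2 c0 le_rfl r
    rw [show decide (cell d (conf P m T).2 r = 0) =
      decide ((conf P m T).2 (reg (conf P m T).1) = 0) by simp [cell, r, k]] at e2
    rw [← conf_succ] at e1
    generalize hb : decide ((conf P m T).2 (reg (conf P m T).1) = 0) = b at e1 e2
    have e3 : (conf P m (T + 1)).1 = nx k.1 b := by rw [conf_succ, ← hb]; rfl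
    have key : ∀ o o', sv o' = sv o + Pi.single r ((dl 0 k.1 b : ℤ) - 1) →
        H (.inr (.inr ⟨_, conf_mem m (T + 1)⟩)) (cell d (conf P m (T + 1)).2) := fun o o' e => by
      have := rule hH (.m0 k ⟨_, conf_mem m (T + 1)⟩ r b o o' rfl e3 e)
        (cell d (conf P m T).2 - sv o) (by simpa using i1) (by simpa using e2)
      rw [e1]
      simpa only [e, ← add_assoc, sub_add_cancel] using this
    rcases dl_cases k.1 b with h | h | h
    · refine ⟨key none none (by simp [h]), ?_⟩
      simpa [e1, show dl 0 (conf P m T).1 b = 1 from h] using i2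
    · have a1 := key none (some r) (by simp [h, sv])
      refine ⟨a1, fun q h0 h1 => ?_⟩
      have a2 := m1 _ _ a1
      rw [e1, show dl 0 (conf P m T).1 b = 2 from h] at a2 h1
      norm_num at a2 h1
      by_cases e : q r ≤ cell d (conf P m T).2 r
      · refine i2 q h0 fun i => ?_
        by_cases e' : i = r
        · rwa [e']
        · simpa [e'] using h1 i
      · obtain ⟨q, rfl⟩ : ∃ q', q = q' + Pi.single r 1 := ⟨q - Pi.single r 1, by simp⟩
        have b1 : q ≤ cell d (conf P m T).2 := le_of_add_le_add_right h1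
        refine box hH i2 a2 _ q
          (Int.toNat_of_nonneg (Finset.sum_nonneg fun i _ => sub_nonneg.2 (b1 i))).symm
          (fun i => ?_) b1
        by_cases e' : i = r
        · have := c0 r
          simp [e'] at e this ⊢
          omega
        · simpa [e'] using h0 i
    · refine ⟨key (some r) none (by simp [h.1, sv, ← Pi.single_add]), fun q h0 h1 => ?_⟩
      refine i2 q h0 (h1.trans ?_)
      rw [e1, show dl 0 (conf P m T).1 b = 0 from h.1]
      simp [Pi.single_nonpos]

theorem no_model (hd : mx P ≤ d) (h3 : 3 ≤ d) {p : ℕ → ℕ} (h : Exec 0 P (update 0 0 m) p) :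
    p 3 = 0 := by
  by_contra hp
  obtain ⟨T, hT : conf P m T = _⟩ := exec_steps h []
  obtain ⟨i1, i2⟩ := inv hH hd T
  let r : Fin (d + 1) := ⟨3, by omega⟩
  have e2 := pat' hH i2 (q := cell d (conf P m T).2) (fun i => Int.natCast_nonneg _) le_rfl r
  rw [decide_eq_false (by simpa [cell, hT, r] using hp)] at e2
  exact hH.2.2.2.2 _ (rule hH (.bot ⟨_, conf_mem m T⟩ r (congrArg Prod.fst hT) rfl) (cell d (conf P m T).2)
    (by simpa [sv] using i1) (by simpa [sv] using e2))

end

theorem exists_prog : ∃ P : Prog, ∀ m r, r ∈ (Denumerable.ofNat Code m).eval m →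
    ∃ p, Exec 0 P (update 0 0 m) p ∧ p 3 = r := by
  let f : ℕ → ℕ → ℕ := fun m k => Encodable.encode (Code.evaln k (Denumerable.ofNat Code m) m)
  have hf : Primrec₂ f := Primrec.encode.comp (Code.primrec_evaln.comp
    ((Primrec.snd.pair ((Primrec.ofNat Code).comp Primrec.fst)).pair Primrec.fst))
  have g1 : Primrec₂ fun m k => 1 - f m k := Primrec.nat_sub.comp (Primrec.const 1) hf
  have g3 : Primrec₂ fun m k => f m k - 1 := Primrec.nat_sub.comp hf (Primrec.const 1)
  obtain ⟨P1, h1⟩ := wc_of_prim (Nat.Primrec'.prim_iff₂.mpr g1) ![0, 2] 1 4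
    (fun i => by fin_cases i <;> simp) (by omega) (fun i => by fin_cases i <;> simp)
  obtain ⟨P3, h3⟩ := wc_of_prim (Nat.Primrec'.prim_iff₂.mpr g3) ![0, 2] 3 4
    (fun i => by fin_cases i <;> simp) (by omega) (fun i => by fin_cases i <;> simp)
  refine ⟨seq (inc 1) (loop 1 (seq P1 (seq P3 (inc 2)))), fun m r hr => ?_⟩
  have hex : ∃ k, f m k ≠ 0 := by
    obtain ⟨k, hk⟩ := Code.evaln_complete.1 hr
    exact ⟨k, by simp [f, Option.mem_def.1 hk]⟩
  have hr' : f m (Nat.find hex) - 1 = r := by
    have := Nat.find_spec hex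
    cases e : Code.evaln (Nat.find hex) (Denumerable.ofNat Code m) m with
    | none => simp [f, e] at this
    | some r' => simpa [f, e] using Part.mem_unique (Code.evaln_sound e) hr
  obtain ⟨p, a1, a2⟩ := loop_inv (a := 0) (r := 1) (A := seq P1 (seq P3 (inc 2)))
    (fun j q => q 0 = m ∧ q 2 + j = Nat.find hex + 1 ∧ (q 1 = 0 ↔ j = 0) ∧ (j = 0 → q 3 = r))
    (by
      rintro j q ⟨b1, b2, b3, -⟩
      obtain ⟨q1, c1, c2, c3⟩ := h1 0 q
      obtain ⟨q2, d1, d2, d3⟩ := h3 0 q1
      have e1 : q2 1 = 1 - f m (q 2) := by simpa [d3 1, b1] using c2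
      have e3 : q2 3 = f m (q 2) - 1 := by simpa [c3 0, c3 2, b1] using d2
      refine ⟨by simpa using b3, _, Exec.seq c1 (Exec.seq d1 (Exec.inc _ _)), ?_, ?_, ?_, ?_⟩
      · simp [d3 0, c3 0, b1]
      · simp [d3 2, c3 2]
        omega
      · rw [update_of_ne (by omega), e1]
        refine ⟨fun h => ?_, fun h => ?_⟩
        · have := Nat.find_min' hex (m := q 2) (by omega)
          omega
        · have := Nat.find_spec hex
          rw [show q 2 = Nat.find hex by omega]
          omega
      · intro h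
        rw [update_of_ne (by omega), e3, show q 2 = Nat.find hex by omega, hr'])
    (fun p h => h.2.2.1.mpr rfl) (Nat.find hex + 1) (update (update 0 0 m) 1 1)
    ⟨by simp, by simp, by simp, by simp⟩
  exact ⟨p, Exec.seq (Exec.inc _ _) a1, a2.2.2.2 rfl⟩

end Mach

open Mach in
theorem exists_sys : ∃ (L : Type) (_ : Finite L) (d : ℕ) (S : Sys L d), ∀ A : ℕ → Prop,
    (∀ m, (∃ (H : L → (Fin (d + 1) → ℤ) → Prop) (M : ℕ), S.Model m H ∧
      ∀ l c, H l c → ∀ r, |c r| ≤ M) → A m) → (∀ m, A m → ∃ H, S.Model m H) → ¬ ComputablePred A := by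
  obtain ⟨P, hP⟩ := exists_prog
  refine ⟨Lb P (max P.mx 3), inferInstance, max P.mx 3, sys P _, fun A h1 h2 ⟨_, hA⟩ => ?_⟩
  have hc : Computable fun n => cond (decide (A n)) 1 0 :=
    Computable.cond hA (Computable.const 1) (Computable.const 0)
  obtain ⟨c, hc⟩ := Nat.Partrec.Code.exists_code.1 (Partrec.nat_iff.1 hc.partrec)
  obtain ⟨p, e1, e2⟩ := hP (Encodable.encode c) (cond (decide (A (Encodable.encode c))) 1 0)
    (by simp [hc])
  by_cases h : A (Encodable.encode c)
  · obtain ⟨H, hH⟩ := h2 _ h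
    have := no_model hH (le_max_left _ _) (le_max_right _ _) e1
    simp [h, this] at e2
  · exact h (h1 _ (bounded e1 (by simpa [h] using e2)))

end Pool.Agent.Lib.MP_e9747f_lc
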