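import Pool.Agent.Lib.MP_e9747f_lc.Horn
import Pool.Agent.Lib.MP_e9747f_lc.Mach

/-! Groups which are locally moving on an open set have an undecidable fifth level. -/

set_option autoImplicit false

namespace Pool.Agent.Lib.MP_e9747f_lc

theorem not_computable {G X α : Type} [Group G] [TopologicalSpace X] [T2Space X] [MulAction G X]
    [ContinuousConstSMul G X] [FaithfulSMul G X] {O : Set X} (hO : IsOpen O) (hne : O.Nonempty)
    (hL : LM G O) [Encodable α] (u : α → G) (n : ℕ) :
    ¬ ComputablePred (SigmaTrue (n + 4 + 1) G u) := fun h => by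
  obtain ⟨L, _, d, S, hS⟩ := exists_sys
  obtain ⟨ι, hι⟩ := exists_injective_nat L
  have k : ∀ n, Df (G := G) (n + 4) false fun m v =>
      S.Sol m (v 0) (fun r => v (2 * r + 1)) fun l => v (2 * ι l + 2) := fun n => by
    induction n with
    | zero => exact df_Sol S ι
    | succ n ih => exact Nat.add_right_comm n 4 1 ▸ ih.pad
  obtain ⟨f, hf, e⟩ := (k n).reduce u
  refine hS (fun m => SigmaTrue (n + 4 + 1) G u (f m)) (fun m ⟨H, M, h1, h2⟩ => (e m).1 ?_)
    (fun m h => ?_) (ComputablePred.computable_of_manyOneReducible ⟨f, hf, fun _ => .rfl⟩ h)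
  · obtain ⟨x, t, a, h⟩ := sol_of_model hO hne hL h1 h2
    refine ⟨fun n => if n = 0 then x else if n % 2 = 1 then
      Function.extend Fin.val t 1 (n / 2) else Function.extend ι a 1 (n / 2 - 1), ?_⟩
    convert h using 2 with r l <;> beta_reduce
    · rfl
    · rw [if_neg (by omega), if_pos (by omega), show (2 * r.val + 1) / 2 = r.val by omega,
        Fin.val_injective.extend_apply]
    · rw [if_neg (by omega), if_neg (by omega), show (2 * ι l + 2) / 2 - 1 = ι l by omega,
        hι.extend_apply]
  · obtain ⟨v, h⟩ := (e m).2 h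
    exact model_of_sol h

end Pool.Agent.Lib.MP_e9747f_lc
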