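import Pool.Agent.Lib.MP_e9747f_lc.Twist

/-! Multiplication of integers inside the outer automorphism group of a free group. -/

set_option autoImplicit false

namespace Pool.Agent.Lib.MP_e9747f_lc

open FreeGroup (of lift)
open Function

variable {ι : Type} [DecidableEq ι] {x a b c : ι}

/-- the transvections at `x` -/
def tv (x : ι) : Fr x × Fr x →* MulAut (FreeGroup ι) :=
  MonoidHom.mk' (fun p => MonoidHom.toMulEquiv (tw x p.1⁻¹ p.2) (tw x p.1 p.2⁻¹)
    (MonoidHom.ext fun g => by simp [tw_tw _ _ (inv_mem p.1.2) p.2.2, tw_one])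
    (MonoidHom.ext fun g => by simp [tw_tw _ _ p.1.2 (inv_mem p.2.2), tw_one]))
    fun p q => MulEquiv.ext fun g => by simp [tw_tw _ _ (inv_mem q.1.2) q.2.2]

@[simp] theorem tv_apply (p : Fr x × Fr x) (g : FreeGroup ι) : tv x p g = tw x p.1⁻¹ p.2 g := rfl

omit [DecidableEq ι] in
theorem aut_ext {φ ψ : MulAut (FreeGroup ι)} (h : ∀ y, φ (of y) = ψ (of y)) : φ = ψ :=
  MulEquiv.toMonoidHom_injective (FreeGroup.ext_hom _ _ h)

/-- the inner automorphisms -/
def Inn (F : Type) [Group F] : Subgroup (MulAut F) := (MulAut.conj : F →* MulAut F).range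

instance (F : Type) [Group F] : (Inn F).Normal :=
  ⟨by rintro _ ⟨w, rfl⟩ φ; exact ⟨φ w, MulEquiv.ext fun g => by simp⟩⟩

/-- the projection to the outer automorphism group -/
abbrev out {F : Type} [Group F] : MulAut F →* MulAut F ⧸ Inn F := QuotientGroup.mk' _

theorem out_eq {F : Type} [Group F] {φ ψ : MulAut F} :
    out φ = out ψ ↔ ∃ w, ∀ g, φ g = w * ψ g * w⁻¹ := by
  rw [← mul_inv_eq_one, ← map_inv, ← map_mul, QuotientGroup.mk'_apply, QuotientGroup.eq_one_iff]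
  refine exists_congr fun w => ?_
  rw [eq_comm, mul_inv_eq_iff_eq_mul, MulEquiv.ext_iff]
  rfl

theorem tw_pres {v : FreeGroup ι} (hv : v ∈ Fr x) {g : FreeGroup ι} (hg : g ∈ Fr x) :
    tw a 1 v g ∈ Fr x := by
  induction hg using Subgroup.closure_induction with
  | mem g h =>
    obtain ⟨y, h, rfl⟩ := h
    by_cases e : y = a
    · simpa [e] using mul_mem (of_mem (e ▸ h)) hv
    · simpa [tw_of e] using of_mem h
  | one => simp
  | mul a b _ _ ha hb => simpa using mul_mem ha hb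
  | inv a _ ha => simpa using ha

/-- the transvection `a ↦ a b` -/
def sv (h : b ≠ a) : MulAut (FreeGroup ι) := tv a (1, ⟨of b, of_mem h⟩)

theorem sv_zpow (h : b ≠ a) (i : ℤ) (g : FreeGroup ι) : (sv h ^ i) g = tw a 1 (of b ^ i) g := by
  rw [sv, ← map_zpow]
  simp

theorem sv_comm (h : b ≠ a) (h' : b ≠ c) (e : a ≠ c) : Commute (sv h) (sv h') := aut_ext fun y => by
  by_cases c1 : y = a
  · simp [sv, c1, tw_of e, tw_of h']
  · by_cases c2 : y = c
    · simp [sv, c2, tw_of e.symm, tw_of h]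
    · simp [sv, tw_of c1, tw_of c2]

theorem sv_inj (h : b ≠ a) {i j : ℤ} (e : out (sv h) ^ i = out (sv h) ^ j) : i = j := by
  rw [← map_zpow, ← map_zpow] at e
  obtain ⟨w, e⟩ := out_eq.1 e
  have := congrArg (xs b) (e (of a))
  simp [sv_zpow] at this
  omega

theorem tv_conj {φ : MulAut (FreeGroup ι)} (h : φ (of x) = of x) (h' : ∀ g ∈ Fr x, φ g ∈ Fr x)
    (v : Fr x) : φ * tv x (1, v) = tv x (1, ⟨φ v, h' _ v.2⟩) * φ := aut_ext fun y => by
  by_cases e : y = x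
  · simp [e, h]
  · simp [tw_of e, tw_fix _ _ (h' _ (of_mem e))]

theorem zpow_split (hxa : a ≠ x) (hxb : b ≠ x) (hxc : c ≠ x) (h : b ≠ a) (h' : b ≠ c) (e : a ≠ c)
    (v : Fr x) (X W y : ℤ) : ∃ k : Fr x, (tv x (1, v) * (sv h ^ X * sv h' ^ W)) ^ y =
      tv x (1, k) * (sv h ^ (X * y) * sv h' ^ (W * y)) := by
  have k : ∀ (y : ℤ) (v : Fr x), ∃ k : Fr x, (sv h ^ X * sv h' ^ W) ^ y * tv x (1, v) =
      tv x (1, k) * (sv h ^ X * sv h' ^ W) ^ y := fun y v => by
    rw [((sv_comm h h' e).zpow_zpow X W).mul_zpow, ← zpow_mul, ← zpow_mul]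
    exact ⟨_, tv_conj (by simp [sv_zpow, tw_of hxa.symm, tw_of hxc.symm]) (fun g hg => by
      simpa [sv_zpow] using tw_pres (zpow_mem (of_mem hxb) _) (tw_pres (zpow_mem (of_mem hxb) _) hg)) v⟩
  rw [zpow_mul, zpow_mul, ← ((sv_comm h h' e).zpow_zpow X W).mul_zpow]
  have m : ∀ p q : Fr x, tv x (1, p * q) = tv x (1, p) * tv x (1, q) := fun p q => by
    rw [← map_mul, Prod.mk_mul_mk, mul_one]
  induction y using Int.induction_on with
  | zero => exact ⟨1, by rw [Prod.mk_one_one, map_one, zpow_zero, zpow_zero, mul_one]⟩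
  | succ y ih =>
    obtain ⟨p, hp⟩ := ih
    obtain ⟨q, hq⟩ := k y v
    exact ⟨p * q, by rw [zpow_add_one, hp, m, zpow_add_one, mul_assoc, ← mul_assoc _ (tv x _), hq,
      mul_assoc, mul_assoc]⟩
  | pred y ih =>
    obtain ⟨p, hp⟩ := ih
    obtain ⟨q, hq⟩ := k (-y - 1) v⁻¹
    refine ⟨p * q, ?_⟩
    rw [zpow_sub_one, hp, m, mul_assoc, mul_assoc, ← hq, zpow_sub_one, mul_inv_rev, ← map_inv,
      mul_assoc]
    simp

variable [Fintype ι] {N : ℕ}

theorem out_inj {φ ψ : MulAut (FreeGroup ι)} (h : out φ = out ψ) (e : a ≠ b)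
    (ha : φ (of a) = ψ (of a)) (hb : φ (of b) = ψ (of b)) : φ = ψ := by
  obtain ⟨w, h⟩ := out_eq.1 h
  have k : ∀ y, φ (of y) = ψ (of y) → ψ.symm w * of y ^ 1 = of y ^ 1 * ψ.symm w := fun y hy =>
    ψ.injective (by simpa [hy, eq_mul_inv_iff_mul_eq, eq_comm] using h (of y))
  have := comm_two e one_ne_zero one_ne_zero (k a ha) (k b hb)
  rw [EmbeddingLike.map_eq_one_iff] at this
  exact MulEquiv.ext fun g => by simpa [this] using h g

theorem sound_K (ha : a ≠ x) (hb : b ≠ x) (e : a ≠ b) (hN : N ≠ 0)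
    {o : MulAut (FreeGroup ι) ⧸ Inn _}
    (h : ∀ y (hy : y ≠ x), Commute o (out (tv x (⟨of y, of_mem hy⟩⁻¹, 1) ^ N))) :
    ∃ v : Fr x, o = out (tv x (1, v)) := by
  obtain ⟨φ, rfl⟩ := QuotientGroup.mk'_surjective _ o
  obtain ⟨g, v, hv, k⟩ := normal_form ha hb e hN φ fun y hy => by
    obtain ⟨w, hw⟩ := out_eq.1 ((map_mul out _ _).trans ((h y hy).eq.trans (map_mul out _ _).symm))
    refine ⟨w, fun k => ?_⟩
    have := hw k
    rw [← map_pow] at this
    simpa using this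
  exact ⟨⟨v, hv⟩, out_eq.2 ⟨g, by simpa using k⟩⟩

theorem sound_S (h : b ≠ a) (hc : c ≠ a) (e : b ≠ c) (hN : N ≠ 0)
    {o : MulAut (FreeGroup ι) ⧸ Inn _}
    (h1 : ∀ y (hy : y ≠ a), Commute o (out (tv a (⟨of y, of_mem hy⟩⁻¹, 1) ^ N)))
    (h2 : Commute o (out (sv h ^ N))) : ∃ i : ℤ, o = out (sv h) ^ i := by
  obtain ⟨v, rfl⟩ := sound_K h hc e hN h1
  have s := sv_zpow h N
  simp only [zpow_natCast] at s
  have := out_inj ((map_mul out _ _).trans (h2.eq.trans (map_mul out _ _).symm)) e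
    (by simp [s, tw_of h]) (by simp [s, tw_of hc])
  have := DFunLike.congr_fun this (of a)
  simp only [MulAut.mul_apply, s, tv_apply, tw_x, map_mul, map_pow, tw_of h, tw_fix _ _ v.2,
    OneMemClass.coe_one, inv_one, one_mul, mul_assoc, mul_right_inj] at this
  obtain ⟨i, hi⟩ := comm_of hN this
  refine ⟨i, (congrArg out (MulEquiv.ext fun g => ?_)).trans (map_zpow _ _ _)⟩
  simp [sv_zpow, hi]

omit [DecidableEq ι] [Fintype ι] in
theorem Coc.zpow {χ : FreeGroup ι →* ℤˣ} {D : FreeGroup ι → ℤ} (h : Coc χ D) {g : FreeGroup ι}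
    (hg : χ g = 1) (m : ℤ) : D (g ^ m) = m * D g := by
  induction m using Int.induction_on with
  | zero => simpa using h.one
  | succ m ih => rw [zpow_add_one, h, ih, map_zpow, hg]; simp [add_mul]
  | pred m ih => rw [zpow_sub_one, h, ih, map_zpow, h.inv, hg]; simp [add_mul, sub_eq_add_neg]

omit [Fintype ι] in
theorem twist_sum (h : b ≠ a) (h' : b ≠ c) (e : a ≠ c) (ε : ℤˣ) :
    ∃ (χ : FreeGroup ι →* ℤˣ) (D : FreeGroup ι → ℤ), Coc χ D ∧ D (of a * of c) = 0 ∧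
      ∀ (X W m : ℤ) (k : FreeGroup ι), tw b (of b)⁻¹ 1 k = (of a * of c) ^ m →
        χ k = 1 ∧ D (tw a 1 (of b ^ X) (tw c 1 (of b ^ W) k)) = D k + m * (ε * X + W) := by
  obtain ⟨χ, hχ⟩ : ∃ χ : FreeGroup ι →* ℤˣ, ∀ y, χ (of y) = if y = a ∨ y = c then ε else 1 :=
    ⟨lift _, fun y => FreeGroup.lift_apply_of⟩
  obtain ⟨D, hD, hy⟩ := Coc.exists χ fun y => if y = b then (1 : ℤ) else 0
  have hb : χ (of b) = 1 := by simp [hχ, h, h']
  have hac : χ (of a * of c) = 1 := by simp [hχ]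
  have k1 : ∀ y u v k, χ u = 1 ∧ χ v = 1 → χ (tw y u v k) = χ k := fun y u v k huv =>
    DFunLike.congr_fun (f := χ.comp (tw y u v)) (FreeGroup.ext_hom _ _ fun z => by
      by_cases c : z = y
      · simp [c, huv]
      · simp [tw_of c]) k
  refine ⟨χ, D, hD, by simp [hD _ _, hy, h.symm, h'.symm], fun X W m k hk => ⟨?_, ?_⟩⟩
  · rw [← k1 b (of b)⁻¹ 1 k (by simp [hb]), hk, map_zpow, hac, one_zpow]
  · have hE : Coc χ fun k => D (tw a 1 (of b ^ X) (tw c 1 (of b ^ W) k)) - D k := fun g g' => by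
      simp only [map_mul, hD _ _, smul_sub, k1 a 1 (of b ^ X) _ (by simp [hb]),
        k1 c 1 (of b ^ W) _ (by simp [hb])]
      ring
    have hE' : Coc χ fun k => D (tw a 1 (of b ^ X) (tw c 1 (of b ^ W) (tw b (of b)⁻¹ 1 k))) -
        D (tw b (of b)⁻¹ 1 k) := fun g g' => by
      simpa only [map_mul, k1 b (of b)⁻¹ 1 _ (by simp [hb])] using
        hE (tw b (of b)⁻¹ 1 g) (tw b (of b)⁻¹ 1 g')
    have := hE.ext hE' (fun y => by
      by_cases c : y = b
      · simp [c, tw_of h, tw_of h']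
      · simp [tw_of c]) k
    rw [hk, hE.zpow hac, sub_eq_iff_eq_add'] at this
    rw [this]
    simp [hD _ _, tw_of e, tw_of e.symm, tw_of h, hD.zpow hb, hy, h.symm, h'.symm, hχ, h, h',
      Units.smul_def, ← mul_assoc]

theorem sound_M (hxa : a ≠ x) (hxb : b ≠ x) (hxc : c ≠ x) (h : b ≠ a) (h' : b ≠ c) (e : a ≠ c)
    (hN : N ≠ 0) {X Y W Z : ℤ} {k : Fr x}
    (H : Commute (out (tv x (1, ⟨of a * of c, mul_mem (of_mem hxa) (of_mem hxc)⟩) ^ N) *
      (out (sv h) ^ X * out (sv h') ^ W)) (out (tv x (1, k)) * (out (sv h) ^ Z * out (sv h') ^ Y))) :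
    X * Y = W * Z := by
  have s : ∀ g, (tv x (1, ⟨of a * of c, mul_mem (of_mem hxa) (of_mem hxc)⟩) ^ N) g =
      tw x 1 ((of a * of c) ^ N) g := fun g => by
    rw [← map_pow]
    simp
  have hb := of_mem hxb
  have hac := pow_mem (mul_mem (of_mem hxa) (of_mem hxc)) N
  simp only [← map_zpow, ← map_mul, Commute, SemiconjBy] at H
  have := out_inj H h (by simp [s, sv_zpow, tw_of h, tw_of h', tw_of hxb])
    (by simp [s, sv_zpow, tw_of h, tw_of h', tw_of hxb, tw_of hxa, tw_of e, mul_assoc, ← zpow_add,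
      add_comm])
  have := DFunLike.congr_fun this (of x)
  have p : ∀ (X W : ℤ) (v : FreeGroup ι), ∀ g ∈ Fr x,
      tw x 1 v (tw a 1 (of b ^ X) (tw c 1 (of b ^ W) g)) = tw a 1 (of b ^ X) (tw c 1 (of b ^ W) g) :=
    fun X W v g hg => tw_fix _ _ (tw_pres (zpow_mem hb _) (tw_pres (zpow_mem hb _) hg))
  simp only [MulAut.mul_apply, s, sv_zpow, tv_apply, tw_of hxa.symm, tw_of hxc.symm, tw_x,
    OneMemClass.coe_one, inv_one, one_mul, map_mul _ (of x), p _ _ _ _ k.2, p _ _ _ _ hac,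
    mul_assoc, mul_right_inj] at this
  have r : ∀ (y : ι) (X : ℤ) g, tw b (of b)⁻¹ 1 (tw y 1 (of b ^ X) g) = tw b (of b)⁻¹ 1 g :=
    fun y X g => DFunLike.congr_fun (f := (tw b (of b)⁻¹ 1).comp (tw y 1 (of b ^ X)))
      (FreeGroup.ext_hom _ _ fun z => by
        by_cases c : z = y
        · simp [c]
        · simp [tw_of c]) g
  have r2 : tw b (of b)⁻¹ 1 ((of a * of c) ^ N) = (of a * of c) ^ (N : ℤ) := by
    simp [tw_of h.symm, tw_of h'.symm]
  have t := congrArg (fun g => tw a 1 (of c)⁻¹ (tw b (of b)⁻¹ 1 g)) this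
  simp only [map_mul _ (_ ^ N), map_mul _ (k : FreeGroup ι), r, r2] at t
  obtain ⟨m, hm⟩ := comm_of (y := a) (w := tw a 1 (of c)⁻¹ (tw b (of b)⁻¹ 1 k)) hN
    (by simpa [tw_of e.symm] using t.symm)
  have hk : tw b (of b)⁻¹ 1 k = (of a * of c) ^ m :=
    tw_inj (one_mem _) (inv_mem (of_mem e.symm)) (by simpa [tw_of e.symm] using hm)
  have q : ∀ ε : ℤˣ, m * (ε * X + W) = N * (ε * Z + Y) := fun ε => by
    obtain ⟨χ, D, h1, h2, h3⟩ := twist_sum h h' e ε
    have := congrArg D this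
    have h4 := (h3 0 0 1 (of a * of c) (by simp [tw_of h.symm, tw_of h'.symm])).1
    rw [h1, h1, (h3 X W m k hk).1, (h3 X W m k hk).2, (h3 Z Y N _ r2).1, (h3 Z Y N _ r2).2,
      ← zpow_natCast, h1.zpow h4, h2] at this
    simpa using this
  have q1 := q 1
  have q2 := q (-1)
  simp only [Units.val_one, Units.val_neg] at q1 q2
  refine mul_left_cancel₀ (a := (2 * N : ℤ)) (by positivity) ?_
  linear_combination (W - X) * q1 - (W + X) * q2

end Pool.Agent.Lib.MP_e9747f_lc
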