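import Pool.Agent.Lib.MP_e9747f_lc.Intv

set_option autoImplicit false
open Pool.Agent.Lib.MP_e9747f_lc

/-- A non metabelian group of increasing bijections of a complete linear order whose groups of germs
are abelian has an undecidable `Σ_n`-theory for every `n ≥ 2`; in particular it is not
`Σ_n`-decidable. -/
theorem Pool.Agent.Lib.MP_e9747f_lc.oldGerms (G X : Type) [Group G]
    [CompleteLinearOrder X] [TopologicalSpace X] [OrderTopology X] [MulAction G X]
    [FaithfulSMul G X] (mo : ∀ g : G, Monotone fun x : X => g • x)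
    (ge : ∀ (p : X) (f g : G), f • p = p → g • p = p → ∀ᶠ x in nhds p, f • g • x = g • f • x)
    (h : derivedSeries G 2 ≠ ⊥) (n : ℕ) (hn : 2 ≤ n) :
    ¬ ComputablePred (SigmaTrue n G (Empty.elim : Empty → G)) ∧ ¬ SigmaDecidable n G := by
  have k : Crit G := crit_of_germs mo ge h
  obtain ⟨n, rfl⟩ : ∃ k, n = k + 1 + 1 := ⟨n - 2, by omega⟩
  exact ⟨not_computable_crit k _ n, fun ⟨c, _, _, e⟩ => not_computable_crit k _ n e⟩
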