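import Pool.Agent.Lib.MP_e9747f_lc.Mult
import Pool.Agent.Lib.MP_e9747f_lc.Interp

/-! An undecidable set defined by equations in groups of automorphisms of free groups. -/

set_option autoImplicit false

namespace Pool.Agent.Lib.MP_e9747f_lc

open FreeGroup (of lift)
open Function

theorem common_pow {A : Type} [Group A] (Γ : Subgroup A) {κ : Type} [Fintype κ] (f : κ → A)
    (h : ∀ i, ∃ N ≠ 0, f i ^ N ∈ Γ) :
    ∃ N : ℕ, N ≠ 0 ∧ ∃ P : A → Γ, ∀ i, (P (f i)).1 = f i ^ N := by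
  classical
  choose N h0 h1 using h
  refine ⟨∏ i, N i, Finset.prod_ne_zero_iff.2 fun i _ => h0 i,
    fun φ => if h : φ ^ ∏ i, N i ∈ Γ then ⟨_, h⟩ else 1, fun i => ?_⟩
  obtain ⟨k, hk⟩ := Finset.dvd_prod_of_mem N (Finset.mem_univ i)
  simp only [dif_pos (show f i ^ ∏ i, N i ∈ Γ from by rw [hk, pow_mul]; exact pow_mem (h1 i) k)]

theorem out_interp {ι : Type} [DecidableEq ι] [Fintype ι] {x a b c : ι} (hxa : a ≠ x) (hxb : b ≠ x)
    (hxc : c ≠ x) (h : b ≠ a) (h' : b ≠ c) (e : a ≠ c) (Γ : Subgroup (MulAut (FreeGroup ι)))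
    (hΓ : ∀ (x : ι) (φ : MulAut (FreeGroup ι)), (∀ y ≠ x, φ (of y) = of y) → ∃ N ≠ 0, φ ^ N ∈ Γ)
    {G : Type} [Group G] (π : Γ →* G) (hπ : Surjective π)
    (hk : ∀ φ : Γ, π φ = 1 → (φ : MulAut (FreeGroup ι)) ∈ Inn (FreeGroup ι)) :
    ∃ (s : G) (R : G → Prop), (ED fun v : Unit → G => R (v ())) ∧
      ¬ ComputablePred fun m : ℕ => R (s ^ m) := by
  obtain ⟨ψ, hψ⟩ : ∃ ψ : G →* MulAut (FreeGroup ι) ⧸ Inn _, ∀ φ : Γ, ψ (π φ) = out φ.1 :=
    ⟨π.liftOfSurjective hπ ⟨out.comp Γ.subtype, fun φ hφ =>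
      (QuotientGroup.eq_one_iff _).2 (hk φ hφ)⟩, fun φ => π.liftOfRightInverse_comp_apply _ _ _ φ⟩
  obtain ⟨N, hN, P, hP⟩ := common_pow Γ (κ := Option ((Σ x : ι, {y // y ≠ x}) ⊕ {a // b ≠ a}))
    (fun i => i.elim (tv x (1, ⟨of a * of c, mul_mem (of_mem hxa) (of_mem hxc)⟩))
      (Sum.elim (fun p => tv p.1 (⟨of p.2.1, of_mem p.2.2⟩⁻¹, 1)) fun p => sv p.2)) (by
        rintro (_ | i | i) <;> exact hΓ _ _ fun y hy => tw_of hy _ _)
  have hP1 : ∀ x y (hy : y ≠ x), (P (tv x (⟨of y, of_mem hy⟩⁻¹, 1))).1 =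
    tv x (⟨of y, of_mem hy⟩⁻¹, 1) ^ N := fun x y hy => hP (some (.inl ⟨x, y, hy⟩))
  have hP2 : ∀ {a} (h : b ≠ a), (P (sv h)).1 = sv h ^ N := fun h => hP (some (.inr ⟨_, h⟩))
  have hP3 : (P (tv x (1, ⟨of a * of c, mul_mem (of_mem hxa) (of_mem hxc)⟩))).1 =
    tv x (1, ⟨of a * of c, mul_mem (of_mem hxa) (of_mem hxc)⟩) ^ N := hP none
  obtain ⟨C, c1, c2, c3⟩ : ∃ C : ι → G → Prop,
      (∀ x {V : Type} {f : (V → G) → G}, Wd f → ED fun v => C x (f v)) ∧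
      (∀ x (φ : Γ) v, φ.1 = tv x (1, v) → C x (π φ)) ∧ ∀ x g, C x g → ∀ y (hy : y ≠ x),
        Commute (ψ g) (out (tv x (⟨of y, of_mem hy⟩⁻¹, 1) ^ N)) := by
    refine ⟨fun x g => ∀ y : {y // y ≠ x}, Commute g (π (P (tv x (⟨of y.1, of_mem y.2⟩⁻¹, 1)))),
      fun x _ _ hf => .fin fun y => .commute hf (.const _), fun x φ v hφ y => ?_,
      fun x g H y hy => by simpa only [hψ, hP1 x y hy] using (H ⟨y, hy⟩).map ψ⟩
    refine Commute.map (Subtype.ext ?_) π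
    rw [Subgroup.coe_mul, Subgroup.coe_mul, hP1 x _ y.2, hφ]
    exact (Commute.map (Prod.ext (by simp) (by simp)) (tv x)).pow_right N
  obtain ⟨S, s1, s2, s3⟩ : ∃ S : ∀ {a : ι}, b ≠ a → G → Prop,
      (∀ {a} (h : b ≠ a) {V : Type} {f : (V → G) → G}, Wd f → ED fun v => S h (f v)) ∧
      (∀ {a} (h : b ≠ a) (m : ℤ), S h (π (P (sv h)) ^ m)) ∧
      ∀ {a} (h : b ≠ a) g, x ≠ a → S h g → ∃ i : ℤ, ψ g = out (sv h) ^ i := by
    refine ⟨fun {a} h g => C a g ∧ Commute g (π (P (sv h))), fun h _ _ hf =>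
      (c1 _ hf).and (.commute hf (.const _)), fun {a} h m => ⟨?_, (Commute.refl _).zpow_left m⟩,
      fun h g hx H => sound_S h hx hxb hN (c3 _ g H.1) (by simpa only [hψ, hP2] using H.2.map ψ)⟩
    rw [← map_zpow]
    exact c2 a _ ((⟨of b, of_mem h⟩ ^ N) ^ m) (by
      rw [Subgroup.coe_zpow, hP2, sv, ← map_pow, ← map_zpow]
      simp)
  obtain ⟨M, m1, m2, m3⟩ : ∃ M : G → G → G → Prop, E3 M ∧
      (∀ m n : ℤ, M (π (P (sv h)) ^ m) (π (P (sv h')) ^ n) (π (P (sv h)) ^ (m * n))) ∧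
      ∀ A B D, M A B D → ∀ i j k : ℤ, ψ A = out (sv h) ^ i → ψ B = out (sv h') ^ j →
        ψ D = out (sv h) ^ k → i * j = N * k := by
    refine ⟨fun A B D => ∃ k, C x k ∧ Commute (π (P (tv x (1, ⟨of a * of c,
      mul_mem (of_mem hxa) (of_mem hxc)⟩))) * (A * π (P (sv h')))) (k * (D * B)),
      fun hf hg hh => .ex ((c1 x (.var _)).and (.commute ((Wd.const _).mul (hf.up.mul (.const _)))
        ((Wd.var _).mul (hh.up.mul hg.up)))), fun m n => ?_, ?_⟩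
    · obtain ⟨k, hk⟩ := zpow_split hxa hxb hxc h h' e
        (⟨of a * of c, mul_mem (of_mem hxa) (of_mem hxc)⟩ ^ N) (N * m) N n
      refine ⟨π ((P (tv x (1, ⟨of a * of c, mul_mem (of_mem hxa) (of_mem hxc)⟩)) *
        (P (sv h) ^ m * P (sv h'))) ^ n * (P (sv h) ^ (m * n) * P (sv h') ^ n)⁻¹), c2 x _ k ?_, ?_⟩
      · simp only [Subgroup.coe_mul, Subgroup.coe_inv, Subgroup.coe_zpow, hP2, hP3]
        rw [mul_inv_eq_iff_eq_mul, ← map_pow, Prod.pow_mk, one_pow]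
        simpa only [zpow_mul, zpow_natCast] using hk
      · simp only [map_mul, map_zpow, map_inv, inv_mul_cancel_right]
        exact (Commute.refl _).zpow_right n
    · rintro A B D ⟨k, H1, H2⟩ i j l hi hj hl
      obtain ⟨v, hv⟩ := sound_K hxa hxb h.symm hN (c3 x k H1)
      have := H2.map ψ
      simp only [map_mul, hψ, hP2, hP3, hi, hj, hl, hv, map_pow out (sv h')] at this
      exact sound_M hxa hxb hxc h h' e hN (by simpa only [zpow_natCast] using this)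
  refine ⟨π (P (sv h)), interp (ψ := ψ) (fun i j => sv_inj h) hN (by rw [hψ, hP2, map_pow])
    (P := fun A B D => S h D ∧ ∃ Y, S h' Y ∧ M (π (P (sv h))) Y B ∧ M A Y D)
    (fun hf hg hh => (s1 h hh).and (.ex ((s1 h' (.var _)).and
      ((m1 (.const _) (.var _) hg.up).and (m1 hf.up (.var _) hh.up)))))
    (fun m n => ⟨s2 h _, _, s2 h' n, by simpa using m2 1 n, m2 m n⟩) ?_⟩
  rintro A B D ⟨H1, Y, H2, H3, H4⟩
  refine ⟨s3 h D hxa.symm H1, fun i j k hi hj hk => ?_⟩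
  obtain ⟨y, hy⟩ := s3 h' Y hxc.symm H2
  have := m3 _ _ _ H3 N y j (by rw [hψ, hP2, map_pow, zpow_natCast]) hy hj
  rw [← mul_left_cancel₀ (by positivity) this]
  exact m3 _ _ _ H4 i y k hi hy hk

end Pool.Agent.Lib.MP_e9747f_lc
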