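import Pool.Agent.Lib.MP_e9747f_lc.Form

/-! Supports in locally moving groups are first-order definable (after Rubin). -/

set_option autoImplicit false
set_option linter.unusedSectionVars false

namespace Pool.Agent.Lib.MP_e9747f_lc

section Defs

variable {G : Type} [Group G]

/-- algebraic disjointness -/
def AD (g f : G) : Prop := ∀ h, ¬ Commute f h → ∃ f1 f2, Commute f1 g ∧ Commute f2 g ∧
  cm f1 (cm f2 h) ≠ 1 ∧ Commute (cm f1 (cm f2 h)) g

/-- `x` centralises the normal closure of `e` -/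
def TT (e x : G) : Prop := ∀ z, Commute x (z * e * z⁻¹)

/-- the support of `y` lies in the closure of the support of `a` -/
def LL (e a y : G) : Prop := ∀ g, AD g a → TT e (cm y (g ^ 12))

theorem TT.cmm {e x : G} (h : TT e x) (a : G) : TT (cm a e) x := fun z => by
  simpa [cm, mul_assoc] using (h (z * a)).mul_right (h z).inv_right

theorem TT.conj {e x : G} (h : TT e x) (a : G) : TT (a * e * a⁻¹) x := fun z => by
  simpa [mul_assoc] using h (z * a)

end Defs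

variable {G X : Type} [Group G] [TopologicalSpace X] [T2Space X] [MulAction G X]
  [ContinuousConstSMul G X] [FaithfulSMul G X]

/-- supported in `U` -/
def Sp (g : G) (U : Set X) : Prop := ∀ x ∉ U, g • x = x

/-- locally moving on `P` -/
def LM (G : Type) [Group G] [MulAction G X] (P : Set X) : Prop :=
  ∀ U : Set X, IsOpen U → U.Nonempty → U ⊆ P → ∃ g : G, g ≠ 1 ∧ ∀ x ∉ U, g • x = x

theorem open_mv (g : G) : IsOpen {x : X | g • x ≠ x} :=
  isOpen_ne_fun (continuous_const_smul g) continuous_id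

theorem ex_mv {g : G} (h : g ≠ 1) : ∃ x : X, g • x ≠ x := by
  by_contra! c
  exact h (eq_of_smul_eq_smul (α := X) fun x => by simp [c])

theorem Sp.mem {g : G} {U : Set X} (h : Sp g U) {x : X} (hx : g • x ≠ x) : x ∈ U :=
  by_contra fun c => hx (h x c)

theorem Sp.mem' {g : G} {U : Set X} (h : Sp g U) {x : X} (hx : g • x ≠ x) : g • x ∈ U :=
  h.mem fun c => hx (MulAction.injective g c)

theorem Sp.mul {g h : G} {U : Set X} (a : Sp g U) (b : Sp h U) : Sp (g * h) U := fun x hx => by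
  rw [mul_smul, b x hx, a x hx]

theorem Sp.inv {g : G} {U : Set X} (a : Sp g U) : Sp g⁻¹ U := fun x hx => by
  rw [inv_smul_eq_iff, a x hx]

theorem Sp.pow {g : G} {U : Set X} (a : Sp g U) (n : ℕ) : Sp (g ^ n) U := by
  induction n with
  | zero => intro x _; simp
  | succ n ih => rw [pow_succ]; exact ih.mul a

theorem LM.ex {P U : Set X} (hP : LM G P) (h1 : IsOpen U) (h2 : U.Nonempty) (h3 : U ⊆ P) :
    ∃ g : G, Sp g U ∧ ∃ x : X, g • x ≠ x :=
  let ⟨g, a, b⟩ := hP U h1 h2 h3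
  ⟨g, b, ex_mv a⟩

theorem displace (l : List G) {x : X} (h : ∀ g ∈ l, g • x ≠ x) {U : Set X} (hU : IsOpen U)
    (hx : x ∈ U) : ∃ V, IsOpen V ∧ x ∈ V ∧ V ⊆ U ∧ ∀ g ∈ l, ∀ y ∈ V, g • y ∉ V := by
  induction l with
  | nil => exact ⟨U, hU, hx, subset_rfl, by simp⟩
  | cons g l ih =>
    obtain ⟨V, h1, h2, h3, h4⟩ := ih fun g hg => h g (List.mem_cons_of_mem _ hg)
    obtain ⟨A, B, a1, a2, a3, a4, a5⟩ := t2_separation (h g List.mem_cons_self)
    refine ⟨V ∩ B ∩ (g • ·) ⁻¹' A, (h1.inter a2).inter (a1.preimage (continuous_const_smul g)),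
      ⟨⟨h2, a4⟩, a3⟩, fun y hy => h3 hy.1.1, fun k hk y hy c => ?_⟩
    rcases List.mem_cons.1 hk with rfl | hk
    · exact Set.disjoint_left.1 a5 hy.2 c.1.2
    · exact h4 k hk y hy.1.1 c.1.1

theorem comm_at {g h : G} {x : X} (h0 : g • x = x ∨ h • x = x)
    (h1 : g • g • x = g • x ∨ h • g • x = g • x) (h2 : g • h • x = h • x ∨ h • h • x = h • x) :
    g • h • x = h • g • x := by
  by_cases a : g • x = x
  · rcases h2 with b | b
    · rw [a, b]
    · rw [MulAction.injective h b, a, MulAction.injective h b]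
  · rw [h0.resolve_left a, h1.resolve_left fun c => a (MulAction.injective g c)]

theorem comm_of {g h : G} (H : ∀ x : X, g • x = x ∨ h • x = x) : Commute g h :=
  eq_of_smul_eq_smul (α := X) fun x => by
    rw [mul_smul, mul_smul, comm_at (H _) (H _) (H _)]

theorem nc {y w : G} {V : Set X} (hV : ∀ p ∈ V, y • p ∉ V) (hw : Sp w V) {z : X} (hz : w • z ≠ z) :
    y • w • z ≠ w • y • z := fun c => by
  rw [hw _ (hV z (hw.mem hz))] at c
  exact hz (MulAction.injective y c)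

theorem nc' {y w : G} {V : Set X} (hV : ∀ p ∈ V, y • p ∉ V) (hw : Sp w V) (hz : ∃ z : X, w • z ≠ z) :
    ¬ Commute y w := fun c =>
  let ⟨z, hz⟩ := hz
  nc hV hw hz (by rw [← mul_smul, c.eq, mul_smul])

theorem long {P U : Set X} (hP : LM G P) (h1 : IsOpen U) (h2 : U.Nonempty) (h3 : U ⊆ P) (k : ℕ) :
    ∃ g : G, Sp g U ∧ ∃ x ∈ U, ∀ i, 0 < i → i ≤ k → g ^ i • x ≠ x := by
  induction k with
  | zero => exact ⟨1, fun _ _ => one_smul _ _, h2.some, h2.some_mem, fun i _ _ => by omega⟩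
  | succ k ih =>
    obtain ⟨t, ht, p, hp, h⟩ := ih
    obtain ⟨W, w1, w2, w3, w4⟩ := displace ((List.range k).map fun i => t ^ (i + 1))
      (by simpa using fun i hi => h (i + 1) i.succ_pos hi) h1 hp
    have w5 : ∀ i, 0 < i → i ≤ k → ∀ y ∈ W, t ^ i • y ∉ W := fun i a b =>
      w4 _ (List.mem_map.2 ⟨i - 1, List.mem_range.2 (by omega), by rw [Nat.sub_add_cancel a]⟩)
    by_cases c : ∃ q ∈ W, t ^ (k + 1) • q ≠ q
    · obtain ⟨q, hq, c⟩ := c
      refine ⟨t, ht, q, w3 hq, fun i a b e => ?_⟩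
      rcases b.eq_or_lt with rfl | b
      exacts [c e, w5 i a (by omega) q hq (e.symm ▸ hq)]
    push Not at c
    obtain ⟨g, hg, q, hq⟩ := hP.ex w1 ⟨p, w2⟩ (w3.trans h3)
    have e : ∀ i, i ≤ k → (t * g) ^ (i + 1) • q = t ^ (i + 1) • g • q := fun i hi => by
      induction i with
      | zero => simp [mul_smul]
      | succ i ih =>
        rw [pow_succ', mul_smul, ih (by omega), mul_smul,
          hg _ (w5 _ i.succ_pos hi _ (hg.mem' hq)), ← mul_smul, ← pow_succ']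
    refine ⟨t * g, ht.mul fun x hx => hg x fun c => hx (w3 c), q, w3 (hg.mem hq), fun i a b => ?_⟩
    obtain ⟨i, rfl⟩ := Nat.exists_eq_succ_of_ne_zero a.ne'
    rw [e i (by omega)]
    rcases b.eq_or_lt with b | b
    · rw [show i + 1 = k + 1 from b, c _ (hg.mem' hq)]
      exact hq
    · exact fun e => w5 _ a (by omega) _ (hg.mem' hq) (e.symm ▸ hg.mem hq)

theorem dbl {P V : Set X} (hP : LM G P) (h1 : IsOpen V) (h2 : V.Nonempty) (h3 : V ⊆ P) {h : G}
    (hV : ∀ y ∈ V, h • y ∉ V) : ∃ f1 f2 : G, Sp f1 V ∧ Sp f2 V ∧ cm f1 (cm f2 h) ≠ 1 ∧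
      Sp (cm f1 (cm f2 h)) V := by
  obtain ⟨f2, a2, q, hq⟩ := hP.ex h1 h2 h3
  obtain ⟨W, w1, w2, w3, w4⟩ := displace [f2] (by simpa using hq) h1 (a2.mem hq)
  obtain ⟨f1, a1, hz⟩ := hP.ex w1 ⟨q, w2⟩ (w3.trans h3)
  have a1' : Sp f1 V := fun x hx => a1 x fun c => hx (w3 c)
  have c : Commute f1 (h * f2⁻¹ * h⁻¹) := comm_of (X := X) fun x => by
    by_cases hx : x ∈ V
    · right
      rw [mul_smul, mul_smul, a2.inv _ fun c => hV _ c (by simpa using hx), smul_inv_smul]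
    · exact .inl (a1' x hx)
  have e : cm f1 (cm f2 h) = cm f1 f2 := by
    calc _ = f1 * f2 * ((h * f2⁻¹ * h⁻¹) * f1⁻¹ * (h * f2⁻¹ * h⁻¹)⁻¹) * f2⁻¹ := by
          simp [cm, mul_assoc]
      _ = _ := by rw [← c.inv_left.eq, mul_inv_cancel_right, cm]
  refine ⟨f1, f2, a1', a2, fun c => ?_, e ▸ ((a1'.mul a2).mul a1'.inv).mul a2.inv⟩
  rw [e, cm, mul_inv_eq_one, mul_inv_eq_iff_eq_mul] at c
  exact nc' (w4 f2 (by simp)) a1 hz c.symm

theorem ad_of_dis {P : Set X} (hP : LM G P) {f g : G} (hf : Sp f P)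
    (H : ∀ x : X, g • x = x ∨ f • x = x) : AD g f := fun h c => by
  obtain ⟨p, h1, h2⟩ : ∃ p : X, f • p ≠ p ∧ h • p ≠ p := by
    by_contra! k
    exact c (comm_of fun x => or_iff_not_imp_left.2 (k x))
  obtain ⟨V, v1, v2, v3, v4⟩ := displace [h] (by simpa using h2) (open_mv f) h1
  obtain ⟨f1, f2, a1, a2, a3, a4⟩ := dbl hP v1 ⟨p, v2⟩ (fun x hx => hf.mem (v3 hx)) (v4 h (by simp))
  have k : ∀ u : G, Sp u V → Commute u g := fun u hu => comm_of fun x =>
    or_iff_not_imp_left.2 fun c => (H x).resolve_right (v3 (hu.mem c))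
  exact ⟨f1, f2, k _ a1, k _ a2, a3, k _ a4⟩

theorem dis_of_ad {P : Set X} (hP : LM G P) {f g : G} (hf : Sp f P) (H : AD g f) (p : X) :
    g ^ 12 • p = p ∨ f • p = p := by
  by_contra! c
  have c1 : ∀ i < 4, g ^ (i + 1) • p ≠ p := fun i hi e => c.1 (by
    obtain ⟨j, hj⟩ : i + 1 ∣ 12 := by interval_cases i <;> decide
    rw [hj, pow_mul]
    exact (MulAction.stabilizer G p).pow_mem e j)
  obtain ⟨V, v1, v2, v3, v4⟩ := displace (f :: (List.range 4).map fun i => g ^ (i + 1))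
    (List.forall_mem_cons.2 ⟨c.2, by simpa using c1⟩) (open_mv f) c.2
  obtain ⟨h, hh, hz⟩ := hP.ex v1 ⟨p, v2⟩ fun x hx => hf.mem (v3 hx)
  obtain ⟨f1, f2, a1, a2, a3, a4⟩ := H h (nc' (v4 f (by simp)) hh hz)
  obtain ⟨q, hq⟩ := ex_mv (X := X) a3
  have u : ∀ y, y ∉ V → f2⁻¹ • y ∉ V → cm f2 h • y = y := fun y b1 b2 => by
    simp only [cm, mul_smul]
    rw [hh.inv y b1, hh _ b2, smul_inv_smul]
  have k : ∀ i : Fin 5, ∃ j : Fin 4, (![1, f1, f2, f1 * f2] j)⁻¹ • g ^ i.val • q ∈ V := fun i => by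
    by_contra! k
    refine hq (MulAction.injective (g ^ i.val) ?_)
    have k0 := k 0
    have k1 := k 1
    have k2 := k 2
    have k3 := k 3
    simp only [Matrix.cons_val_zero, Matrix.cons_val_one, Matrix.cons_val, inv_one, one_smul,
      mul_inv_rev, mul_smul] at k0 k1 k2 k3
    beta_reduce
    rw [← mul_smul, ← (a4.pow_right i).eq, mul_smul, cm, mul_smul, mul_smul, mul_smul,
      inv_smul_eq_iff.2 (u _ k0 k2).symm, u _ k1 k3, smul_inv_smul]
  choose j hj using k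
  have cj : ∀ j : Fin 4, Commute (![1, f1, f2, f1 * f2] j) g := fun j => by
    fin_cases j
    exacts [Commute.one_left g, a1, a2, a1.mul_left a2]
  have fin : ∀ a b : Fin 5, a < b → j a ≠ j b := fun a b hab e => by
    refine v4 (g ^ (b.val - a.val - 1 + 1)) (List.mem_cons_of_mem _ (List.mem_map.2
      ⟨_, List.mem_range.2 (by omega), rfl⟩)) _ (hj a) ?_
    rw [← mul_smul, ← ((cj (j a)).inv_left.pow_right _).eq, mul_smul, ← mul_smul (g ^ _), ← pow_add,
      show b.val - a.val - 1 + 1 + a.val = b.val by omega, e]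
    exact hj b
  obtain ⟨a, b, hab, e⟩ := Fintype.exists_ne_map_eq_of_card_lt j (by simp)
  rcases lt_or_gt_of_ne hab with h | h
  exacts [fin a b h e, fin b a h e.symm]

/-- the points moved by a conjugate of `e` -/
def Pe (X : Type) [MulAction G X] (e : G) : Set X := {p | ∃ z : G, (z * e * z⁻¹) • p ≠ p}

theorem open_Pe (e : G) : IsOpen (Pe X e) := by
  rw [Pe, Set.ofPred_exists]
  exact isOpen_iUnion fun z => open_mv _

theorem smul_Pe {e : G} {p : X} (h : p ∈ Pe X e) (g : G) : g • p ∈ Pe X e :=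
  let ⟨z, h⟩ := h
  ⟨g * z, fun c => h (MulAction.injective g (by simpa [mul_smul] using c))⟩

theorem lm_Pe {O : Set X} (h : LM G O) {e : G} (he : Sp e O) : LM G (Pe X e) := by
  rintro U h1 ⟨p, hp⟩ h3
  obtain ⟨z, hz⟩ := h3 hp
  have hz' : e • z⁻¹ • p ≠ z⁻¹ • p := fun c => hz (by simp [mul_smul, c])
  obtain ⟨g, a, b⟩ := h ((z • ·) ⁻¹' U ∩ {x | e • x ≠ x})
    ((h1.preimage (continuous_const_smul z)).inter (open_mv e)) ⟨z⁻¹ • p, by simpa using hp, hz'⟩
    fun x hx => he.mem hx.2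
  refine ⟨z * g * z⁻¹, by simpa using a, fun x hx => ?_⟩
  rw [mul_smul, mul_smul, b _ fun c => hx (by simpa using c.1), smul_inv_smul]

theorem tt_iff {e x : G} (hP : LM G (Pe X e)) : TT e x ↔ ∀ p ∈ Pe X e, x • p = p := by
  refine ⟨fun h p hp => by_contra fun c => ?_, fun h z => comm_of fun p =>
    or_iff_not_imp_right.2 fun c => h p ⟨z, c⟩⟩
  obtain ⟨z, hz⟩ := id hp
  obtain ⟨V, v1, v2, v3, v4⟩ := displace [x, z * e * z⁻¹] (by simpa using ⟨c, hz⟩) (open_Pe e) hp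
  obtain ⟨f1, f2, -, -, a3, a4⟩ := dbl hP v1 ⟨p, v2⟩ v3 (v4 (z * e * z⁻¹) (by simp))
  exact nc' (v4 x (by simp)) a4 (ex_mv a3) (by simpa using ((h.conj z).cmm f2).cmm f1 1)

theorem ll_iff {e a y : G} (hP : LM G (Pe X e)) (ha : Sp a (Pe X e)) : LL e a y ↔
    ∀ N : Set X, IsOpen N → N.Nonempty → (∀ p ∈ N, p ∈ Pe X e ∧ y • p ≠ p) → ∃ p ∈ N, a • p ≠ p := by
  constructor
  · rintro h N h1 ⟨p, hp⟩ h3
    by_contra! c
    obtain ⟨V, v1, v2, v3, v4⟩ := displace [y] (by simpa using (h3 p hp).2) h1 hp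
    obtain ⟨g, hg, z, hz, k⟩ := long hP v1 ⟨p, v2⟩ (fun x hx => (h3 x (v3 hx)).1) 12
    have := (tt_iff hP).1 (h g (ad_of_dis hP ha fun x => or_iff_not_imp_left.2 fun b =>
      c x (v3 (hg.mem b)))) _ (smul_Pe (smul_Pe (h3 z (v3 hz)).1 y) (g ^ 12))
    refine nc (v4 y (by simp)) (hg.pow 12) (k 12 (by omega) le_rfl) ?_
    simpa [cm, mul_smul] using this
  · intro h g hg
    have k : ∀ p ∈ Pe X e, y • p = p ∨ g ^ 12 • p = p := fun p hp => by
      by_contra! c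
      obtain ⟨q, h1, h2⟩ := h (Pe X e ∩ {x | y • x ≠ x} ∩ {x | g ^ 12 • x ≠ x})
        (((open_Pe e).inter (open_mv y)).inter (open_mv _)) ⟨p, ⟨hp, c.1⟩, c.2⟩ fun _ hx => hx.1
      exact (dis_of_ad hP ha hg q).elim h1.2 h2
    refine (tt_iff hP).2 fun p hp => ?_
    have hq := smul_Pe (smul_Pe hp (g ^ 12)⁻¹) y⁻¹
    simp only [cm, mul_smul]
    rw [comm_at (k _ hq) (k _ (smul_Pe hq _)) (k _ (smul_Pe hq _))]
    simp

end Pool.Agent.Lib.MP_e9747f_lc
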