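import Pool.Agent.Lib.MP_e9747f_lc.Trans
import Pool.Agent.Lib.MP_e9747f_lc.Interp

/-! From an undecidable set defined by equations to the Diophantine problem and to the
`Σ_n`-diagrams. -/

set_option autoImplicit false
open FirstOrder FirstOrder.Language Encodable Function

namespace Pool.Agent.Lib.MP_e9747f_lc

section Form

variable {α : Type}

def Fm.toP {d : ℕ} (ρ : ℕ → ℕ → α ⊕ Fin d) : Fm → grpLang.BoundedFormula α d
  | .eq s t => .equal (s.toT ρ) (t.toT ρ)
  | .bot => .falsum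
  | .imp φ ψ => .imp (φ.toP ρ) (ψ.toP ρ)

theorem qf_toP {d : ℕ} (ρ : ℕ → ℕ → α ⊕ Fin d) (φ : Fm) : (φ.toP ρ).IsQF := by
  induction φ with
  | eq s t => exact .of_isAtomic (.equal _ _)
  | bot => exact .falsum
  | imp _ _ ih1 ih2 => exact ih1.imp ih2

/-- the positions of the variables after a new block -/
def pρ {k : ℕ} (N n : ℕ) (ρ : ℕ → ℕ → α ⊕ Fin k) (j i : ℕ) : α ⊕ Fin (k + N) :=
  if h : j = n ∧ i < N then .inr (Fin.natAdd k ⟨i, h.2⟩) else (ρ j i).map id (Fin.castAdd N)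

/-- the prenex formula with parameters -/
def PP (N : ℕ) (μ : Fm) : ℕ → Bool → ∀ {k : ℕ}, (ℕ → ℕ → α ⊕ Fin k) → grpLang.BoundedFormula α k
  | 0, _, _, ρ => μ.toP ρ
  | n + 1, b, _, ρ => blk b N (PP N μ n (!b) (pρ N (n + 1) ρ))

theorem pfx_PP (N : ℕ) (μ : Fm) (n : ℕ) (b : Bool) {k : ℕ} (ρ : ℕ → ℕ → α ⊕ Fin k) :
    Pfx n b (PP (N + 1) μ n b ρ) := by
  induction n generalizing b k with
  | zero => exact .qf (qf_toP ρ μ)
  | succ n ih => exact pfx_new N _ (ih _ _)

section Real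

variable {G : Type} [Group G]

attribute [local instance] grpStr

theorem real_toP {d : ℕ} (ρ : ℕ → ℕ → α ⊕ Fin d) (u : α → G) (xs : Fin d → G) (φ : Fm) :
    (φ.toP ρ).Realize u xs ↔ φ.ev fun j i => Sum.elim u xs (ρ j i) := by
  induction φ with
  | eq s t => simp only [Fm.toP, BoundedFormula.Realize, real_toT, Fm.ev]
  | bot => rfl
  | imp φ ψ ih1 ih2 => simp only [Fm.toP, BoundedFormula.Realize, ih1, ih2, Fm.ev]

theorem real_PP {N : ℕ} {μ : Fm} (h : Loc N fun V : ℕ → ℕ → G => μ.ev V) (u : α → G) (n : ℕ)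
    (b : Bool) {k : ℕ} (ρ : ℕ → ℕ → α ⊕ Fin k) (xs : Fin k → G) :
    (PP N μ n b ρ).Realize u xs ↔ Q n b (fun V => μ.ev V) fun j i => Sum.elim u xs (ρ j i) := by
  induction n generalizing b k with
  | zero => exact real_toP ρ u xs μ
  | succ n ih =>
    have e : ∀ (b : Bool) (w : ℕ → G), Q n b (fun V => μ.ev V) (fun j i => Sum.elim u (Fin.append xs
        (fun i : Fin N => w i)) (pρ N (n + 1) ρ j i)) ↔
        Q n b (fun V => μ.ev V) (update (fun j i => Sum.elim u xs (ρ j i)) (n + 1) w) :=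
      fun b w => Q_loc h n b _ _ fun j i hi => by
        by_cases c : j = n + 1
        · simp only [pρ, c, hi, and_self, dif_pos, Sum.elim_inr, Fin.append_right, update_self]
        · cases r : ρ j i <;> simp [pρ, c, r]
    have s : ∀ w : Fin N → G, ∃ w' : ℕ → G, w = fun i : Fin N => w' i := fun w =>
      ⟨fun i => if h : i < N then w ⟨i, h⟩ else 1, funext fun i => by simp⟩
    rw [PP, real_blk]
    cases b
    · simp only [Bool.false_eq_true, if_false, ih, Q, ← e, Bool.not_false]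
      refine ⟨fun h w => h _, fun h w => ?_⟩
      obtain ⟨w, rfl⟩ := s w
      exact h w
    · simp only [if_true, ih, Q, ← e, Bool.not_true]
      refine ⟨fun ⟨w, h⟩ => ?_, fun ⟨w, h⟩ => ⟨_, h⟩⟩
      obtain ⟨w, rfl⟩ := s w
      exact ⟨w, h⟩

end Real

variable [Encodable α]

theorem cd_toP {d : ℕ} (ρ : ℕ → ℕ → α ⊕ Fin d) (φ : Fm) :
    cd (φ.toP ρ) = φ.code d fun j i => [2 * encode (ρ j i)] := by
  induction φ with
  | eq s t =>
    have k : ∀ s : Tm, encode (s.toT ρ) = encode (s.code fun j i => [2 * encode (ρ j i)]) :=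
      fun s => (encode_list_map _).trans (congrArg encode (code_toT _ s))
    simp only [Fm.code, ← k]
    rfl
  | bot => rfl
  | imp φ ψ ih1 ih2 => rw [Fm.toP, Fm.code, cd_imp, ih1, ih2]

theorem cd_PP (N n : ℕ) (b : Bool) {k : ℕ} (ρ : ℕ → ℕ → α ⊕ Fin k) : ∃ l l' d ρ', ∀ μ : Fm,
    cd (PP N μ n b ρ) = l ++ μ.code d ρ' ++ l' := by
  induction n generalizing b k with
  | zero => exact ⟨[], [], k, _, fun μ => by simp [PP, cd_toP]; rfl⟩
  | succ n ih =>
    obtain ⟨l, l', d, ρ', h⟩ := ih (!b) (pρ N (n + 1) ρ)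
    obtain ⟨r, r', h'⟩ := cd_blk (α := α) b k N
    exact ⟨r ++ l, l' ++ r', d, ρ', fun μ => by simp [PP, h, h']⟩

end Form

variable {G : Type} [Group G]

/-- A primitive recursive family of `Σ_n` formulas with parameters reduces to the `Σ_n` truths. -/
theorem Df.reduce_par {n : ℕ} {P : ℕ → (ℕ → G) → Prop} (h : Df n true P) (u : ℕ → G) :
    ∃ f : ℕ → ℕ, Computable f ∧ ∀ m, P m u ↔ SigmaTrue n G u (f m) := by
  obtain ⟨F, ⟨μ, h1, ⟨B, h2⟩, h3⟩, e⟩ := h
  obtain ⟨l, l', d, ρ', k1⟩ := cd_PP (B + 1) n true fun _ i => (Sum.inl i : ℕ ⊕ Fin 0)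
  have eF : ∀ m, (fun V : ℕ → ℕ → G => (μ m).ev V) = F m := fun m => funext fun V => propext (h3 m V)
  let := grpStr G
  have k3 : ∀ m, P m u ↔
      Formula.Realize (PP (B + 1) (μ m) n true fun _ i => (Sum.inl i : ℕ ⊕ Fin 0)) u := fun m => by
    have hL : Loc (B + 1) (F m) := fun V V' c => h2 m V V' fun j i hi => c j i (by omega)
    rw [Formula.Realize, real_PP (eF m ▸ hL), eF]
    exact (e m fun _ => u).symm
  refine ⟨fun m => encode (BoundedFormula.listEncode
    (PP (B + 1) (μ m) n true fun _ i => (Sum.inl i : ℕ ⊕ Fin 0))), ?_, fun m => (k3 m).trans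
      ⟨fun h => ⟨_, rfl, pfx_PP B _ _ _ _, h⟩, fun ⟨φ, c, _, h⟩ => ?_⟩⟩
  · refine (Primrec.encode.comp (Primrec.list_append.comp (Primrec.list_append.comp (.const l)
      (h1 d ρ')) (.const l'))).to_comp.of_eq fun m => ?_
    rw [← k1]
    exact (encode_list_map _).symm
  · have c' := BoundedFormula.listEncode_sigma_injective (a₁ := ⟨0, φ⟩) (a₂ := ⟨0, _⟩)
      (encode_injective c)
    obtain rfl : φ = _ := by simpa using c'
    exact h

theorem Wd.word {V : Type} {f : (V → G) → G} (h : Wd f) {a : ℕ → G}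
    (ha : Subgroup.closure (Set.range a) = ⊤) (e : V → ℕ) :
    ∃ w : FreeGroup (ℕ ⊕ ℕ), ∀ x : ℕ → G, FreeGroup.lift (Sum.elim a x) w = f (x ∘ e) := by
  induction h with
  | const g =>
    induction (ha ▸ Subgroup.mem_top g : g ∈ Subgroup.closure (Set.range a)) using
      Subgroup.closure_induction with
    | mem g h => obtain ⟨i, rfl⟩ := h; exact ⟨.of (.inl i), by simp⟩
    | one => exact ⟨1, by simp⟩
    | mul _ _ _ _ p q =>
      obtain ⟨w, p⟩ := p
      obtain ⟨w', q⟩ := q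
      exact ⟨w * w', by simp [p, q]⟩
    | inv _ _ p =>
      obtain ⟨w, p⟩ := p
      exact ⟨w⁻¹, by simp [p]⟩
  | var i => exact ⟨.of (.inr (e i)), by simp⟩
  | inv _ p =>
    obtain ⟨w, p⟩ := p
    exact ⟨w⁻¹, by simp [p]⟩
  | mul _ _ p q =>
    obtain ⟨w, p⟩ := p
    obtain ⟨w', q⟩ := q
    exact ⟨w * w', by simp [p, q]⟩

theorem ED.words {R : G → Prop} (h : ED fun v : Unit → G => R (v ())) {a : ℕ → G}
    (ha : Subgroup.closure (Set.range a) = ⊤) : ∃ L : List (FreeGroup (ℕ ⊕ ℕ)), ∀ g, R g ↔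
      ∃ x : ℕ → G, x 0 = g ∧ ∀ w ∈ L, FreeGroup.lift (Sum.elim a x) w = 1 := by
  obtain ⟨β, _, L, h1, h2⟩ := h
  obtain ⟨e, he⟩ := exists_injective_nat β
  choose! w hw using fun f hf => (h1 f hf).word ha (Sum.elim (fun _ => 0) fun b => e b + 1)
  refine ⟨L.map w, fun g => (h2 fun _ => g).trans ?_⟩
  simp only [List.forall_mem_map]
  refine ⟨fun ⟨t, k⟩ => ⟨fun n => n.casesOn g (extend e t 1), rfl, fun f hf => ?_⟩,
    fun ⟨x, k, k'⟩ => ⟨fun b => x (e b + 1), fun f hf => ?_⟩⟩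
  · rw [hw f hf, ← k f hf]
    congr 1
    ext (i | i) <;> simp [he.extend_apply]
  · rw [← k' f hf, hw f hf]
    congr 1
    ext (i | i) <;> simp [k]

theorem dioph_problem {s : G} {R : G → Prop} (h : ED fun v : Unit → G => R (v ()))
    (hR : ¬ ComputablePred fun m : ℕ => R (s ^ m)) {a : ℕ → G}
    (ha : Subgroup.closure (Set.range a) = ⊤) :
    ¬ ComputablePred fun S : List (List ((ℕ ⊕ ℕ) × Bool)) =>
      ∃ x : ℕ → G, ∀ w ∈ S, FreeGroup.lift (Sum.elim a x) (FreeGroup.mk w) = 1 := by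
  obtain ⟨L, hL⟩ := h.words ha
  obtain ⟨w, hw⟩ := (Wd.const (V := Empty) s).word ha Empty.elim
  obtain ⟨p, p1, p2⟩ : ∃ p : ℕ → List ((ℕ ⊕ ℕ) × Bool), Primrec p ∧
      ∀ m, FreeGroup.mk (p m) = (FreeGroup.of (.inr 0))⁻¹ * w ^ m := by
    refine ⟨_, Primrec.nat_rec₁ (f := fun _ l => l ++ w.toWord) [(.inr 0, false)]
      (Primrec.list_append.comp .snd (.const _)).to₂, fun m => ?_⟩
    induction m with
    | zero => rw [pow_zero, mul_one]; rfl
    | succ m ih => rw [pow_succ, ← mul_assoc, ← ih, ← FreeGroup.mul_mk, FreeGroup.mk_toWord]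
  refine fun c => hR (ComputablePred.computable_of_manyOneReducible
    ⟨fun m => p m :: L.map FreeGroup.toWord, (Primrec.list_cons.comp p1 (.const _)).to_comp,
      fun m => (hL _).trans (exists_congr fun x => ?_)⟩ c)
  simp [p2, hw, FreeGroup.mk_toWord, inv_mul_eq_one, -FreeGroup.lift_mk]

theorem exists_tm (w : FreeGroup (ℕ ⊕ ℕ)) :
    ∃ t : Tm, ∀ V : ℕ → ℕ → G, t.ev V = FreeGroup.lift (Sum.elim (V 0) (V 1)) w := by
  induction w using FreeGroup.induction_on with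
  | C1 => exact ⟨.one, by simp [Tm.ev]⟩
  | of y =>
    obtain i | i := y
    exacts [⟨.var 0 i, by simp [Tm.ev]⟩, ⟨.var 1 i, by simp [Tm.ev]⟩]
  | inv_of y p =>
    obtain ⟨t, p⟩ := p
    exact ⟨.inv t, by simp [Tm.ev, p]⟩
  | mul _ _ p q =>
    obtain ⟨t, p⟩ := p
    obtain ⟨t', q⟩ := q
    exact ⟨.mul t t', by simp [Tm.ev, p, q]⟩

/-- the term for a power -/
def pw (t : Tm) : ℕ → Tm
  | 0 => .one
  | j + 1 => .mul t (pw t j)

theorem QD.power (t : Tm) : QD (G := G) fun m V => V 1 0 = t.ev V ^ m := by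
  refine ⟨fun m => .eq (.var 1 0) (pw t m), primrec_eq (fun _ => .const _) fun ρ => ?_,
    ⟨t.bd + 1, fun m V V' e => by simp only [e 1 0 (by omega), Tm.ev_congr e t (by omega)]⟩,
    fun m V => ?_⟩
  · refine (Primrec.nat_rec₁ (f := fun (_ : ℕ) (l : List ℕ) => (2 * Nat.pair 2 0 + 1) ::
      (t.code ρ ++ l)) (Tm.one.code ρ) (Primrec.list_cons.comp (.const _)
        (Primrec.list_append.comp (.const _) .snd)).to₂).of_eq fun m => ?_
    induction m with
    | zero => rfl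
    | succ m ih => simp only [pw, Tm.code, ← ih]
  · have : (pw t m).ev V = t.ev V ^ m := by
      induction m with
      | zero => simp [pw, Tm.ev]
      | succ m ih => simp [pw, Tm.ev, ih, pow_succ']
    simp only [Fm.ev, Tm.ev, this]

theorem sigma_problem {s : G} {R : G → Prop} (h : ED fun v : Unit → G => R (v ()))
    (hR : ¬ ComputablePred fun m : ℕ => R (s ^ m)) {a : ℕ → G}
    (ha : Subgroup.closure (Set.range a) = ⊤) (n : ℕ) :
    ¬ ComputablePred (SigmaTrue (n + 1) G a) := by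
  obtain ⟨L, hL⟩ := h.words ha
  obtain ⟨w, hw⟩ := (Wd.const (V := Empty) s).word ha Empty.elim
  have k1 : QD fun (_ : ℕ) (V : ℕ → ℕ → G) =>
      ∀ w ∈ L, FreeGroup.lift (Sum.elim (V 0) (V 1)) w = 1 := by
    clear hL
    induction L with
    | nil => exact (QD.eq .one .one).congr (by simp)
    | cons w L ih =>
      obtain ⟨t, ht⟩ := exists_tm (G := G) w
      exact ((QD.eq t .one).and ih).congr (by simp [ht, Tm.ev])
  obtain ⟨t, ht⟩ := exists_tm (G := G) w
  have k2 : Df (n + 1) true fun m (v : ℕ → G) => ∃ x : ℕ → G,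
      x 0 = FreeGroup.lift (Sum.elim v x) w ^ m ∧ ∀ w ∈ L, FreeGroup.lift (Sum.elim v x) w = 1 := by
    induction n with
    | zero => exact ⟨_, (QD.power t).and k1, fun m V => by simp [Q, ht]⟩
    | succ n ih => exact ih.pad
  obtain ⟨f, f1, f2⟩ := k2.reduce_par a
  exact fun c => hR (ComputablePred.computable_of_manyOneReducible
    ⟨f, f1, fun m => (hL _).trans (by simpa only [hw] using f2 m)⟩ c)

end Pool.Agent.Lib.MP_e9747f_lc
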