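import Pool.Agent.Lib.MP_e9747f_lc.Fox

/-! Transvections of free groups and their common fixed points. -/

set_option autoImplicit false

namespace Pool.Agent.Lib.MP_e9747f_lc

open FreeGroup (of lift)
open Finsupp Function

attribute [local instance] comapSMul comapMulAction comapDistribMulAction

variable {ι : Type} [DecidableEq ι] {x : ι}

/-- the endomorphism `x ↦ u x v` -/
def tw (x : ι) (u v : FreeGroup ι) : FreeGroup ι →* FreeGroup ι :=
  lift fun y => if y = x then u * of x * v else of y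

@[simp] theorem tw_x (x : ι) (u v : FreeGroup ι) : tw x u v (of x) = u * of x * v := by simp [tw]

theorem tw_of {y : ι} (h : y ≠ x) (u v : FreeGroup ι) : tw x u v (of y) = of y := by simp [tw, h]

theorem tw_fix (u v : FreeGroup ι) {g : FreeGroup ι} (h : g ∈ Fr x) : tw x u v g = g := by
  induction h using Subgroup.closure_induction with
  | mem g h => obtain ⟨y, h, rfl⟩ := h; exact tw_of h u v
  | one => simp
  | mul a b _ _ ha hb => simp [ha, hb]
  | inv a _ ha => simp [ha]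

theorem tw_tw (u v : FreeGroup ι) {u' v' : FreeGroup ι} (hu : u' ∈ Fr x) (hv : v' ∈ Fr x)
    (g : FreeGroup ι) : tw x u v (tw x u' v' g) = tw x (u' * u) (v * v') g := by
  refine DFunLike.congr_fun (f := (tw x u v).comp (tw x u' v')) (FreeGroup.ext_hom _ _ fun y => ?_) g
  by_cases c : y = x
  · simp [c, tw_fix u v hu, tw_fix u v hv, mul_assoc]
  · simp [tw_of c]

theorem tw_one (g : FreeGroup ι) : tw x 1 1 g = g := by
  refine DFunLike.congr_fun (g := MonoidHom.id _) (FreeGroup.ext_hom _ _ fun y => ?_) g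
  by_cases c : y = x
  · simp [c]
  · simp [tw_of c]

theorem tw_inj {u v : FreeGroup ι} (hu : u ∈ Fr x) (hv : v ∈ Fr x) : Injective (tw x u v) :=
  LeftInverse.injective (g := tw x u⁻¹ v⁻¹) fun g => by
    rw [tw_tw _ _ hu hv, mul_inv_cancel, inv_mul_cancel, tw_one]

theorem xs_tw (y : ι) (u v g : FreeGroup ι) :
    xs y (tw x u v g) = xs y g + xs x g * (xs y u + xs y v) := by
  induction g using FreeGroup.induction_on with
  | C1 => simp
  | of e =>
    by_cases c : e = x
    · simp [c]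
      ring
    · simp [tw_of c, c]
  | inv_of e ih =>
    simp only [_root_.map_inv, xs_inv, ih]
    ring
  | mul a b ha hb =>
    simp only [_root_.map_mul, xs_mul, ha, hb]
    ring

theorem xs_eq {g h : FreeGroup ι} (e : (g : FreeGroup ι ⧸ Fr x) = h) : xs x g = xs x h := by
  have := xs_zero (QuotientGroup.eq.1 e)
  simp only [xs_mul, xs_inv] at this
  omega

/-- the map on edges -/
def em (x : ι) (w z h : FreeGroup ι) : FreeGroup ι := w * tw x z 1 h * z

theorem em_inj (w : FreeGroup ι) {z : FreeGroup ι} (hz : z ∈ Fr x) : Injective (em x w z) :=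
  fun _ _ e => tw_inj hz (one_mem _) (mul_left_cancel (mul_right_cancel e))

theorem fox_tw {z : FreeGroup ι} (hz : z ∈ Fr x) (w g : FreeGroup ι) :
    fox x (w * tw x z 1 g) = fox x w + mapDomain (em x w z) (fox x g) := by
  have : fox x (tw x z 1 g) = mapDomain (em x 1 z) (fox x g) := by
    refine Coc.ext (φ := tw x z 1) (D := fun g => fox x (tw x z 1 g))
      (D' := fun g => mapDomain (em x 1 z) (fox x g)) (fun g h => ?_) (fun g h => ?_)
      (fun y => ?_) g
    · simp only [_root_.map_mul, fox_mul]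
    · simp only [fox_mul, mapDomain_add, comapSMul_def, ← mapDomain_comp]
      congr 2
      funext k
      simp [em, mul_assoc]
    · by_cases c : y = x
      · simp [c, fox_mul, fox_of, fox_zero hz, em]
      · simp [tw_of c, fox_of, c]
  rw [fox_mul, this, comapSMul_def, ← mapDomain_comp]
  congr 2
  funext k
  simp [em, mul_assoc]

theorem em_iter {z : FreeGroup ι} (hz : z ∈ Fr x) (w : FreeGroup ι) (M : ℕ) :
    ∃ W, (∀ h, (em x w z)^[M] h = em x W (z ^ M) h) ∧
      (∀ p, w * tw x z 1 p = p * w → W * tw x (z ^ M) 1 p = p * W) ∧ (w ∈ Fr x → W = w ^ M) := by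
  induction M with
  | zero => exact ⟨1, fun h => by simp [em, tw_one], fun p _ => by simp [tw_one], by simp⟩
  | succ M ih =>
    obtain ⟨W, h1, h2, h3⟩ := ih
    have e : ∀ h, tw x (z ^ (M + 1)) 1 h = tw x z 1 (tw x (z ^ M) 1 h) := fun h => by
      rw [tw_tw _ _ (pow_mem hz M) (one_mem _), mul_one, pow_succ]
    refine ⟨w * tw x z 1 W, fun h => ?_, fun p hp => ?_, fun hw => ?_⟩
    · simp only [iterate_succ_apply', h1, em, e, _root_.map_mul, tw_fix z 1 (pow_mem hz M)]
      simp only [pow_succ, mul_assoc]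
    · rw [e, mul_assoc, ← _root_.map_mul, h2 p hp, _root_.map_mul, ← mul_assoc, hp, mul_assoc]
    · rw [h3 hw, tw_fix _ _ (pow_mem hw M), pow_succ']

variable [Fintype ι] {u u' : ι} {N N' : ℕ}

theorem fix_mem (hu : u ≠ x) (hu' : u' ≠ x) (huu : u ≠ u') (hN : N ≠ 0) (hN' : N' ≠ 0)
    {v : FreeGroup ι} (h : tw x (of u ^ N) 1 v = v) (h' : tw x (of u' ^ N') 1 v = v) :
    v ∈ Fr x := by
  classical
  have k : ∀ {u : ι} {N : ℕ}, u ≠ x → N ≠ 0 → tw x (of u ^ N) 1 v = v → xs x v = 0 ∧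
      ∃ M ≠ 0, ∀ a ∈ (fox x v).support, tw x (of u ^ M) 1 a * of u ^ M = a ∧ xs x a = -1 := by
    intro u N hu hN h
    have hz := pow_mem (of_mem hu) N
    refine ⟨by simpa [xs_tw, hN] using congrArg (xs u) h, ?_⟩
    have := fox_tw hz 1 v
    rw [one_mul, h, (fox_coc x).one, zero_add] at this
    obtain ⟨M, h0, h1⟩ := per (em_inj 1 hz) this.symm
    obtain ⟨W, h2, -, h3⟩ := em_iter hz 1 M
    refine ⟨N * M, by positivity, fun a ha => ?_⟩
    have e := h1 a ha 1
    rw [mul_one, h2, h3 (one_mem _), em, one_pow, one_mul, ← pow_mul] at e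
    refine ⟨e, ?_⟩
    have e' := congrArg (xs u) e
    simp only [xs_mul, xs_tw, xs_pow, xs_of, if_true, xs_one, mul_one, add_zero] at e'
    have : (xs x a + 1) * ((N * M : ℕ) : ℤ) = 0 := by linarith
    have := (mul_eq_zero.1 this).resolve_right (by positivity)
    omega
  obtain ⟨h0, M, hM, k1⟩ := k hu hN h
  obtain ⟨-, M', hM', k2⟩ := k hu' hN' h'
  refine mem_of_fox (by_contra fun c => ?_)
  obtain ⟨a, ha⟩ := support_nonempty_iff.2 c
  have e := DFunLike.congr_fun (bd_fox x v) (a : FreeGroup ι ⧸ Fr x)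
  have n : ∀ g : FreeGroup ι, xs x g = 0 → (a : FreeGroup ι ⧸ Fr x) ≠ g := fun g hg e => by
    have := xs_eq e
    have := (k1 a ha).2
    omega
  rw [bd_apply, Finsupp.sub_apply, Finsupp.sub_apply, single_eq_of_ne (n v h0),
    single_eq_of_ne (n 1 (by simp)), mapDomain_apply_eq_sum,
    notMem_support_iff.1 fun m => ?_, Finset.sum_eq_single a fun b hb hba => ?_] at e
  · exact mem_support_iff.1 ha (by simpa using e)
  · simp [mem_support_iff.1 ha]
  · obtain ⟨hb, e⟩ := Finset.mem_filter.1 hb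
    have f := QuotientGroup.eq.1 e
    have q : ∀ z : FreeGroup ι, tw x z 1 a * z = a → tw x z 1 b * z = b →
        b⁻¹ * a * z = z * (b⁻¹ * a) := fun z h1 h2 => by
      have := tw_fix z 1 f
      rw [_root_.map_mul, _root_.map_inv, eq_mul_inv_of_mul_eq h1, eq_mul_inv_of_mul_eq h2] at this
      exact (congrArg (· * z) this).symm.trans (by group)
    have := comm_two huu hM hM' (q _ (k1 a ha).1 (k1 b hb).1) (q _ (k2 a ha).1 (k2 b hb).1)
    exact absurd (inv_mul_eq_one.1 this) hba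
  · obtain ⟨b, hb, e⟩ := Finset.mem_image.1 (mapDomain_support m)
    exact n _ (by simp [(k1 b hb).2]) e.symm

theorem key (hu : u ≠ x) (hu' : u' ≠ x) (huu : u ≠ u') (hN : N ≠ 0) (hN' : N' ≠ 0)
    {w w' h p : FreeGroup ι} (e : em x w (of u ^ N) h = h) (e' : em x w' (of u' ^ N') h = h)
    (f : w * tw x (of u ^ N) 1 p = p * w) (f' : w' * tw x (of u' ^ N') 1 p = p * w') :
    (h * of x)⁻¹ * p * (h * of x) ∈ Fr x := by
  have k : ∀ w z, em x w z h = h → w * tw x z 1 p = p * w →
      tw x z 1 ((h * of x)⁻¹ * p * (h * of x)) = (h * of x)⁻¹ * p * (h * of x) := by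
    intro w z e f
    have : tw x z 1 (h * of x) = w⁻¹ * (h * of x) := by
      rw [eq_inv_mul_iff_mul_eq, _root_.map_mul, tw_x, mul_one, ← mul_assoc, ← mul_assoc]
      exact congrArg (· * of x) e
    rw [_root_.map_mul, _root_.map_mul, _root_.map_inv, this, eq_inv_mul_of_mul_eq f]
    group
  exact fix_mem hu hu' huu hN hN' (k _ _ e f) (k _ _ e' f')

theorem key_inv (hu : u ≠ x) (hu' : u' ≠ x) (huu : u ≠ u') (hN : N ≠ 0) (hN' : N' ≠ 0)
    {w w' : FreeGroup ι} {η : FreeGroup ι →₀ ℤ} (h0 : η ≠ 0)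
    (e : mapDomain (em x w (of u ^ N)) η = η) (e' : mapDomain (em x w' (of u' ^ N')) η = η) :
    ∃ g : FreeGroup ι, ∀ p, w * tw x (of u ^ N) 1 p = p * w → w' * tw x (of u' ^ N') 1 p = p * w' →
      g⁻¹ * p * g ∈ Fr x := by
  have hz := pow_mem (of_mem hu) N
  have hz' := pow_mem (of_mem hu') N'
  obtain ⟨M, h1, h2⟩ := per (em_inj w hz) e
  obtain ⟨M', h1', h2'⟩ := per (em_inj w' hz') e'
  obtain ⟨W, h3, h4, -⟩ := em_iter hz w M
  obtain ⟨W', h3', h4', -⟩ := em_iter hz' w' M'
  obtain ⟨a, ha⟩ := support_nonempty_iff.2 h0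
  simp only [← pow_mul] at h3 h4 h3' h4'
  exact ⟨a * of x, fun p f f' => key hu hu' huu (N := N * M) (N' := N' * M') (by positivity)
    (by positivity) (by simpa [h3] using h2 a ha 1) (by simpa [h3'] using h2' a ha 1) (h4 p f)
      (h4' p f')⟩

omit [DecidableEq ι] [Fintype ι] in
theorem cob {p : FreeGroup ι} {η : FreeGroup ι →₀ ℤ}
    (h : mapDomain (Quotient.mk (QuotientGroup.rightRel (Subgroup.zpowers p))) η = 0) :
    ∃ ζ : FreeGroup ι →₀ ℤ, η = ζ - p • ζ := by
  let R : AddSubgroup (FreeGroup ι →₀ ℤ) :=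
    (AddMonoidHom.id _ - DistribSMul.toAddMonoidHom (FreeGroup ι →₀ ℤ) p).range
  have k : ∀ (i : ℤ) (g : FreeGroup ι) (c : ℤ), single g c - single (p ^ i * g) c ∈ R := by
    intro i g c
    induction i using Int.induction_on with
    | zero => simp
    | succ i ih =>
      have := add_mem ih (⟨single (p ^ (i : ℤ) * g) c, rfl⟩ : _ ∈ R)
      simpa [add_comm (i : ℤ), zpow_add, mul_assoc] using this
    | pred i ih =>
      have := sub_mem ih (⟨single (p ^ (-(i : ℤ) - 1) * g) c, rfl⟩ : _ ∈ R)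
      have e : p * (p ^ (-(i : ℤ) - 1) * g) = p ^ (-(i : ℤ)) * g := by group
      simpa [e] using this
  have k2 : ∀ η : FreeGroup ι →₀ ℤ, η - mapDomain Quotient.out (mapDomain
      (Quotient.mk (QuotientGroup.rightRel (Subgroup.zpowers p))) η) ∈ R := fun η => by
    induction η using Finsupp.induction_linear with
    | zero => simp
    | add a b ha hb => simpa [mapDomain_add, add_sub_add_comm] using add_mem ha hb
    | single g c =>
      obtain ⟨i, hi⟩ := QuotientGroup.rightRel_apply.1 ((QuotientGroup.rightRel _).symm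
        (Quotient.mk_out (s := QuotientGroup.rightRel (Subgroup.zpowers p)) g))
      simpa [hi] using k i g c
  obtain ⟨ζ, e⟩ := k2 η
  exact ⟨ζ, by simpa [h] using e.symm⟩

theorem elliptic (hu : u ≠ x) (hu' : u' ≠ x) (huu : u ≠ u') (hN : N ≠ 0) (hN' : N' ≠ 0)
    {w w' p : FreeGroup ι} (f : w * tw x (of u ^ N) 1 p = p * w)
    (f' : w' * tw x (of u' ^ N') 1 p = p * w') : ∃ g : FreeGroup ι, g⁻¹ * p * g ∈ Fr x := by
  by_cases c : mapDomain (Quotient.mk (QuotientGroup.rightRel (Subgroup.zpowers p))) (fox x p) = 0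
  · obtain ⟨ζ, e⟩ := cob c
    have h1 := bd_fox x p
    rw [e, map_sub, bd_smul] at h1
    have h2 : p • (single ((1 : FreeGroup ι) : FreeGroup ι ⧸ Fr x) 1 + bd (Fr x) x ζ) =
        single ((1 : FreeGroup ι) : FreeGroup ι ⧸ Fr x) (1 : ℤ) + bd (Fr x) x ζ := by
      rw [smul_add, comapSMul_single, MulAction.Quotient.smul_mk, smul_eq_mul, mul_one,
        eq_add_of_sub_eq h1.symm]
      abel
    obtain ⟨M, h3, h4⟩ := per_smul h2
    obtain ⟨a, ha⟩ := support_nonempty_iff.2 (show single ((1 : FreeGroup ι) : FreeGroup ι ⧸ Fr x)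
      (1 : ℤ) + bd (Fr x) x ζ ≠ 0 from fun h => by
        have := congrArg (fun η => mapDomain (fun _ => ()) η ()) h
        simp [mapDomain_add, bd_apply, mapDomain_sub, ← mapDomain_comp, comp_def] at this)
    obtain ⟨g, rfl⟩ := QuotientGroup.mk_surjective a
    refine ⟨g, root_mem h3.ne' ?_⟩
    have := QuotientGroup.eq.1 (h4 _ ha).symm
    rwa [show (g⁻¹ * p * g) ^ M = g⁻¹ * (p ^ M * g) by simpa [mul_assoc] using conj_pow (a := g⁻¹)]
  · obtain ⟨a, ha⟩ := support_nonempty_iff.2 c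
    obtain ⟨h, rfl⟩ := Quotient.exists_rep a
    have k : ∀ {u : ι} {N : ℕ} {w : FreeGroup ι}, u ≠ x → N ≠ 0 →
        w * tw x (of u ^ N) 1 p = p * w → ∃ M ≠ 0, ∃ W, em x W (of u ^ M) h = h ∧
          W * tw x (of u ^ M) 1 p = p * W := by
      intro u N w hu hN f
      have hz := pow_mem (of_mem hu) N
      have c1 : ∀ i : ℤ, w * tw x (of u ^ N) 1 (p ^ i) * w⁻¹ = p ^ i := fun i => by
        rw [map_zpow, ← conj_zpow, f, mul_inv_cancel_right]
      have c2 : ∀ a b, em x w (of u ^ N) b * (em x w (of u ^ N) a)⁻¹ =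
          w * tw x (of u ^ N) 1 (b * a⁻¹) * w⁻¹ := fun a b => by simp [em, mul_assoc]
      let π : Quotient (QuotientGroup.rightRel (Subgroup.zpowers p)) →
          Quotient (QuotientGroup.rightRel (Subgroup.zpowers p)) :=
        Quotient.map (em x w (of u ^ N)) fun a b e => QuotientGroup.rightRel_apply.2 (by
          obtain ⟨i, hi⟩ := QuotientGroup.rightRel_apply.1 e
          exact ⟨i, by simp only [c2, ← hi, c1]⟩)
      have inj : Injective π := by
        rintro ⟨a⟩ ⟨b⟩ e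
        obtain ⟨i, hi⟩ := QuotientGroup.rightRel_apply.1 (Quotient.exact e)
        refine Quotient.sound (QuotientGroup.rightRel_apply.2 ⟨i, ?_⟩)
        simp only [c2] at hi
        exact tw_inj hz (one_mem _) (mul_left_cancel (mul_right_cancel ((c1 i).trans hi)))
      have e := congrArg (mapDomain (Quotient.mk (QuotientGroup.rightRel (Subgroup.zpowers p))))
        ((fox_tw hz w p).symm.trans ((congrArg _ f).trans (fox_mul x p w)))
      have e2 : (Quotient.mk (QuotientGroup.rightRel (Subgroup.zpowers p)) ∘ fun g => p • g) =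
          Quotient.mk _ := funext fun g =>
        Quotient.sound (QuotientGroup.rightRel_apply.2 ⟨-1, by simp⟩)
      rw [mapDomain_add, mapDomain_add, comapSMul_def, ← mapDomain_comp, ← mapDomain_comp, e2,
        add_comm, add_left_inj, show Quotient.mk _ ∘ em x w (of u ^ N) = π ∘ Quotient.mk _ from rfl,
        mapDomain_comp] at e
      obtain ⟨M, h1, h2⟩ := per inj e
      obtain ⟨W, h3, h4, -⟩ := em_iter hz w M
      have h5 := h2 _ ha 1
      rw [mul_one, ← (show Semiconj (Quotient.mk _) (em x w (of u ^ N)) π from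
        fun _ => rfl).iterate_right M, h3] at h5
      obtain ⟨i, hi⟩ := QuotientGroup.rightRel_apply.1 (Quotient.exact h5)
      simp only [← pow_mul] at hi h4
      refine ⟨N * M, by positivity, p ^ i * W, ?_, ?_⟩
      · exact Eq.trans (by simp [em, mul_assoc]) (mul_inv_eq_iff_eq_mul.1 hi.symm).symm
      · rw [mul_assoc, h4 p f]
        group
    obtain ⟨M, h1, W, h2, h3⟩ := k hu hN f
    obtain ⟨M', h1', W', h2', h3'⟩ := k hu' hN' f'
    exact ⟨_, key hu hu' huu h1 h1' h2 h2' h3 h3'⟩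

theorem common (hu : u ≠ x) (hu' : u' ≠ x) (huu : u ≠ u') (hN : N ≠ 0) (hN' : N' ≠ 0)
    {w w' : FreeGroup ι} {P : Set (FreeGroup ι)} (f : ∀ p ∈ P, w * tw x (of u ^ N) 1 p = p * w)
    (f' : ∀ p ∈ P, w' * tw x (of u' ^ N') 1 p = p * w') :
    ∃ g : FreeGroup ι, ∀ p ∈ P, g⁻¹ * p * g ∈ Fr x := by
  by_cases c : ∀ p ∈ P, p = 1
  · exact ⟨1, fun p hp => by simp [c p hp]⟩
  push Not at c
  obtain ⟨q, hq, q1⟩ := c
  choose! g hg using fun p hp => elliptic hu hu' huu hN hN' (f p hp) (f' p hp)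
  have k : ∀ {z w p}, p ∈ P → p ≠ 1 → z ∈ Fr x → w * tw x z 1 p = p * w →
      fox x w + mapDomain (em x w z) (fox x (g p)) = fox x (g p) := by
    intro z w p hp p1 hz e
    have m : (g p)⁻¹ * (w * tw x z 1 (g p)) ∈ Fr x := by
      refine malnormal (fun c => p1 (by simpa [mul_assoc, inv_mul_eq_one] using c)) (hg p hp) ?_
      have := tw_fix z 1 (hg p hp)
      rw [_root_.map_mul, _root_.map_mul, _root_.map_inv, eq_inv_mul_of_mul_eq e] at this
      have H := hg p hp
      rw [← this] at H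
      convert H using 1
      group
    rw [← fox_tw hz, ← mul_inv_cancel_left (g p) (w * _), fox_mul, fox_zero m, smul_zero, add_zero]
  by_cases c : ∀ p ∈ P, p ≠ 1 → fox x (g p) - fox x (g q) = 0
  · refine ⟨g q, fun p hp => ?_⟩
    by_cases p1 : p = 1
    · simp [p1]
    have := congrArg (bd (Fr x) x) (sub_eq_zero.1 (c p hp p1))
    rw [bd_fox, bd_fox, sub_left_inj, single_left_inj one_ne_zero] at this
    have m := QuotientGroup.eq.1 this
    convert mul_mem (mul_mem (inv_mem m) (hg p hp)) m using 1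
    group
  · push Not at c
    obtain ⟨p, hp, p1, c⟩ := c
    have k2 : ∀ {z w}, z ∈ Fr x → (∀ p ∈ P, w * tw x z 1 p = p * w) →
        mapDomain (em x w z) (fox x (g p) - fox x (g q)) = fox x (g p) - fox x (g q) := by
      intro z w hz e
      rw [mapDomain_sub, eq_sub_of_add_eq' (k hp p1 hz (e p hp)),
        eq_sub_of_add_eq' (k hq q1 hz (e q hq))]
      abel
    obtain ⟨g, hg⟩ := key_inv hu hu' huu hN hN' c (k2 (pow_mem (of_mem hu) N) f)
      (k2 (pow_mem (of_mem hu') N') f')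
    exact ⟨g, fun p hp => hg p (f p hp) (f' p hp)⟩

theorem normal_fix (hu : u ≠ x) (hu' : u' ≠ x) (huu : u ≠ u') (hN : N ≠ 0)
    (Φ : MulAut (FreeGroup ι)) (hΦ : ∀ y ≠ x, Φ (of y) ∈ Fr x)
    (h : ∀ y ≠ x, tw x (of y ^ N) 1 (Φ (of x)) = Φ (of y) ^ N * Φ (of x)) :
    ∃ g v, v ∈ Fr x ∧ ∀ k, Φ k = g * tw x 1 v k * g⁻¹ := by
  classical
  have q : Φ (of x) ∉ Fr x := fun c => by
    have : ∀ k, Φ k ∈ Fr x := fun k => by
      induction k using FreeGroup.induction_on with
      | C1 => simp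
      | of y => by_cases e : y = x; exacts [e ▸ c, hΦ y e]
      | inv_of y ih => simpa using ih
      | mul a b ha hb => simpa using mul_mem ha hb
    simpa using xs_zero (this (Φ.symm (of x)))
  have k : ∀ y ≠ x, ∃ M ≠ 0, ∀ a ∈ (fox x (Φ (of x))).support,
      tw x (of y ^ M) 1 a * of y ^ M = Φ (of y) ^ M * a := fun y hy => by
    have hz := pow_mem (of_mem hy) N
    have hw := inv_mem (pow_mem (hΦ y hy) N)
    have := fox_tw hz (Φ (of y) ^ N)⁻¹ (Φ (of x))
    rw [h y hy, inv_mul_cancel_left, fox_zero hw, zero_add] at this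
    obtain ⟨M, h0, h1⟩ := per (em_inj _ hz) this.symm
    obtain ⟨W, h2, -, h3⟩ := em_iter hz (Φ (of y) ^ N)⁻¹ M
    refine ⟨N * M, by positivity, fun a ha => ?_⟩
    have e := h1 a ha 1
    rwa [mul_one, h2, h3 hw, em, inv_pow, ← pow_mul, ← pow_mul, mul_assoc,
      inv_mul_eq_iff_eq_mul] at e
  obtain ⟨a, ha, m⟩ : ∃ a ∈ (fox x (Φ (of x))).support, a ∈ Fr x := by
    by_contra c
    have e := DFunLike.congr_fun (bd_fox x (Φ (of x))) ((1 : FreeGroup ι) : FreeGroup ι ⧸ Fr x)
    rw [bd_apply, Finsupp.sub_apply, Finsupp.sub_apply, single_eq_same,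
      single_eq_of_ne fun e => q (by simpa using QuotientGroup.eq.1 e),
      notMem_support_iff.1 fun m => ?_, notMem_support_iff.1 fun m => ?_] at e
    · simp at e
    · obtain ⟨b, hb, e⟩ := Finset.mem_image.1 (mapDomain_support m)
      exact c ⟨b, hb, by simpa using QuotientGroup.eq.1 e.symm⟩
    · obtain ⟨b, hb, e⟩ := Finset.mem_image.1 (mapDomain_support m)
      obtain ⟨M, h0, h1⟩ := k u hu
      have := tw_fix (of u ^ M) 1 (show b * of x ∈ Fr x by simpa using QuotientGroup.eq.1 e.symm)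
      rw [_root_.map_mul, tw_x, mul_one, ← mul_assoc, h1 b hb, mul_left_inj, mul_eq_right,
        ← map_pow, EmbeddingLike.map_eq_one_iff] at this
      exact pow_of_ne_one u h0 this
  have c : ∀ y ≠ x, Φ (of y) = a * of y * a⁻¹ := fun y hy => by
    obtain ⟨M, h0, h1⟩ := k y hy
    refine pow_left_injective h0 ?_
    have := h1 a ha
    rw [tw_fix _ _ m] at this
    simp only [conj_pow, this, mul_inv_cancel_right]
  have f : ∀ y ≠ x, tw x (of y ^ N) 1 ((of x)⁻¹ * a⁻¹ * Φ (of x)) = (of x)⁻¹ * a⁻¹ * Φ (of x) :=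
    fun y hy => by
      rw [_root_.map_mul, _root_.map_mul, _root_.map_inv, tw_x, tw_fix _ _ (inv_mem m), h y hy,
        c y hy, conj_pow]
      group
  refine ⟨a, _, mul_mem (fix_mem hu hu' huu hN hN (f u hu) (f u' hu')) m, fun k => ?_⟩
  refine DFunLike.congr_fun (f := Φ.toMonoidHom) (g := (MulAut.conj a).toMonoidHom.comp _)
    (FreeGroup.ext_hom _ _ fun y => ?_) k
  by_cases e : y = x
  · simp [e, mul_assoc]
  · simp [tw_of e, c y e]

/-- An automorphism commuting modulo inner automorphisms with powers of the left transvections is a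
right transvection modulo inner automorphisms. -/
theorem normal_form (hu : u ≠ x) (hu' : u' ≠ x) (huu : u ≠ u') (hN : N ≠ 0)
    (Φ : MulAut (FreeGroup ι)) (h : ∀ y ≠ x, ∃ w, ∀ k,
      Φ (tw x (of y ^ N) 1 k) = w * tw x (of y ^ N) 1 (Φ k) * w⁻¹) :
    ∃ g v, v ∈ Fr x ∧ ∀ k, Φ k = g * tw x 1 v k * g⁻¹ := by
  choose! w hw using h
  have f : ∀ y ≠ x, ∀ p ∈ (fun y => Φ (of y)) '' {y | y ≠ x},
      w y * tw x (of y ^ N) 1 p = p * w y := by
    rintro y hy _ ⟨e, he, rfl⟩
    rw [← mul_inv_eq_iff_eq_mul, ← hw y hy, tw_of he]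
  obtain ⟨g, hg⟩ := common hu hu' huu hN hN (f u hu) (f u' hu')
  have m : ∀ y ≠ x, (MulAut.conj g⁻¹ * Φ) (of y) ∈ Fr x := fun y hy => by
    simpa using hg _ ⟨y, hy, rfl⟩
  obtain ⟨a, v, h1, h2⟩ := normal_fix hu hu' huu hN (MulAut.conj g⁻¹ * Φ) m fun y hy => by
    have k : ∀ e ≠ x, Φ.symm (w y * tw x (of y ^ N) 1 g * g⁻¹) * of e ^ 1 =
        of e ^ 1 * Φ.symm (w y * tw x (of y ^ N) 1 g * g⁻¹) := fun e he => Φ.injective (by
      have := tw_fix (of y ^ N) 1 (hg _ ⟨e, he, rfl⟩)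
      rw [_root_.map_mul, _root_.map_mul, _root_.map_inv,
        eq_inv_mul_of_mul_eq (f y hy _ ⟨e, he, rfl⟩)] at this
      simp only [_root_.map_mul, pow_one, MulEquiv.apply_symm_apply]
      calc _ = w y * tw x (of y ^ N) 1 g * (g⁻¹ * Φ (of e) * g) * g⁻¹ := by group
        _ = _ := by rw [← this]; group)
    have := comm_two huu one_ne_zero one_ne_zero (k u hu) (k u' hu')
    rw [EmbeddingLike.map_eq_one_iff, mul_inv_eq_one] at this
    have e := hw y hy (of x)
    simp only [tw_x, mul_one, _root_.map_mul, map_pow] at e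
    change tw x _ 1 (g⁻¹ * Φ (of x) * g⁻¹⁻¹) =
      (g⁻¹ * Φ (of y) * g⁻¹⁻¹) ^ N * (g⁻¹ * Φ (of x) * g⁻¹⁻¹)
    simp only [_root_.map_mul, _root_.map_inv, eq_inv_mul_of_mul_eq this, conj_pow]
    calc _ = g⁻¹ * (w y * tw x (of y ^ N) 1 (Φ (of x)) * (w y)⁻¹) * g := by group
      _ = _ := by rw [← e]; group
  exact ⟨g * a, v, h1, fun k => by
    have := h2 k
    simp only [MulAut.mul_apply, MulAut.conj_apply, inv_inv] at this
    calc _ = g * (g⁻¹ * Φ k * g) * g⁻¹ := by group
      _ = _ := by rw [this]; group⟩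

end Pool.Agent.Lib.MP_e9747f_lc
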